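import Pool.Agent.H46.KA.B3b

/-!
Run lemma, module 10: truncated binomial expansion of `(1 - η)^β`.
-/

set_option autoImplicit false

namespace Pool.Agent.H10.KAC

open scoped BigOperators
open MvPowerSeries Pool.Agent.H46.KA Pool.Agent.H27.KAC

variable {I : Type} [Fintype I] [DecidableEq I]

/-- `(1 - η_{i,l+1})^β`. -/
noncomputable def Vp (a : I → I → ℕ) (i : I) (l : ℕ) (β : ℚ) : LL I :=
  Qp a i (l + 2) β * Qp a i l β * Qp a i (l + 1) (-2 * β)

theorem Vp_add (a : I → I → ℕ) (i : I) (l : ℕ) (β β' : ℚ) :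
    Vp a i l (β + β') = Vp a i l β * Vp a i l β' := by
  unfold Vp
  rw [Qp_add, Qp_add, mul_add, Qp_add]
  ring

theorem Vp_zero (a : I → I → ℕ) (i : I) (l : ℕ) : Vp a i l 0 = 1 := by
  unfold Vp
  rw [mul_zero, Qp_zero, Qp_zero, Qp_zero, one_mul, one_mul]

/-- `1 - η` as a power series. -/
noncomputable def Fe (a : I → I → ℕ) (i : I) (l : ℕ) : MvPowerSeries I ℚ :=
  1 - X i ^ (l + 1) * ((∏ j, uS a j (l + 1) ^ (a i j)) * ((uS a i (l + 1))⁻¹) ^ 2)

theorem Fe_mul (a : I → I → ℕ) (i : I) (l : ℕ) :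
    uS a i (l + 2) * uS a i l = Fe a i l * (uS a i (l + 1) * uS a i (l + 1)) := by
  rw [uS_rec]
  have h0 : constantCoeff (uS a i (l + 1)) ≠ 0 := by rw [uS_const]; exact one_ne_zero
  have h1 := MvPowerSeries.inv_mul_cancel _ h0
  unfold Fe
  linear_combination ((X i ^ (l + 1) * (∏ j, uS a j (l + 1) ^ (a i j)) *
    ((uS a i (l + 1))⁻¹ * uS a i (l + 1) + 1))) * h1

theorem Fe_const (a : I → I → ℕ) (i : I) (l : ℕ) : constantCoeff (Fe a i l) = 1 := by
  have h := congrArg constantCoeff (Fe_mul a i l)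
  rw [map_mul, map_mul, map_mul, uS_const, uS_const, uS_const] at h
  simpa using h.symm

theorem Vp_eq (a : I → I → ℕ) (i : I) (l : ℕ) (β : ℚ) :
    Vp a i l β = Tht a (rpw (Fe a i l) β) := by
  have hc := uS_const a i
  have h1 : rpw (uS a i (l + 2)) β * rpw (uS a i l) β =
      rpw (Fe a i l) β * (rpw (uS a i (l + 1)) β * rpw (uS a i (l + 1)) β) := by
    rw [← rpw_mul_left _ _ (hc _) (hc _), Fe_mul, rpw_mul_left _ _ (Fe_const a i l) (by
      rw [map_mul, hc, one_mul]), rpw_mul_left _ _ (hc _) (hc _)]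
  have h2 : Qp a i (l + 2) β * Qp a i l β =
      Tht a (rpw (Fe a i l) β) * (Qp a i (l + 1) β * Qp a i (l + 1) β) := by
    unfold Qp
    have h3 := congrArg (Tht a) h1
    rw [Tht_mul, Tht_mul, Tht_mul] at h3
    have h4 : (tm (fun j => if j = i then ((l + 2 : ℕ) : ℚ) * β else 0) : LL I) *
        tm (fun j => if j = i then (l : ℚ) * β else 0) =
        tm (fun j => if j = i then ((l + 1 : ℕ) : ℚ) * β else 0) *
        tm (fun j => if j = i then ((l + 1 : ℕ) : ℚ) * β else 0) := by
      rw [← tm_add, ← tm_add]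
      congr 1
      funext j
      by_cases hj : j = i
      · simp only [Pi.add_apply, hj, if_true]
        push_cast
        ring
      · simp only [Pi.add_apply, hj, if_false]
    calc _ = (tm (fun j => if j = i then ((l + 2 : ℕ) : ℚ) * β else 0) *
          tm (fun j => if j = i then (l : ℚ) * β else 0)) *
          (Tht a (rpw (uS a i (l + 2)) β) * Tht a (rpw (uS a i l) β)) := by ring
      _ = _ := by
          rw [h3, h4]
          ring
  unfold Vp
  rw [h2]
  have h5 : Qp a i (l + 1) β * Qp a i (l + 1) β * Qp a i (l + 1) (-2 * β) = 1 := by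
    rw [← Qp_add, ← Qp_add]
    have : β + β + -2 * β = 0 := by ring
    rw [this, Qp_zero]
  rw [mul_assoc, h5, mul_one]

theorem neg_eta_eq (a : I → I → ℕ) (hs : ∀ i j, a i j = a j i) (i : I) (l : ℕ) :
    -eta a i (l + 1) = Tht a (Fe a i l - 1) := by
  have h1 := one_sub_eta a hs i l
  have h2 := Vp_eq a i l 1
  unfold Vp at h2
  rw [mul_one] at h2
  rw [h2, rpw_one _ (Fe_const a i l)] at h1
  have h3 : Tht a (Fe a i l - 1) = Tht a (Fe a i l) - 1 := by
    rw [← ThtH_apply, map_sub, map_one]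
    rfl
  rw [h3]
  linear_combination h1

/-- the truncated binomial expansion. -/
theorem Vp_trunc (a : I → I → ℕ) (hs : ∀ i j, a i j = a j i) (i : I) (l : ℕ) (β : ℚ)
    (γ : I → ℚ) (K : ℕ) (hK : ∀ n : I →₀ ℕ, (∀ j, (n j : ℚ) = γ j) → n i < (l + 1) * K) :
    ∃ Rm : LL I, Vp a i l β =
      ∑ n ∈ Finset.range K, qC (Ring.choose β n) * (-eta a i (l + 1)) ^ n + Rm ∧
      ∀ F : LL I, CT γ (Rm * F) = 0 := by
  classical
  set Rem : MvPowerSeries I ℚ := rpw (Fe a i l) β -
    ∑ n ∈ Finset.range K, C (Ring.choose β n) * (Fe a i l - 1) ^ n with hRem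
  have hcoef : ∀ (m : ℕ) (β' : I →₀ ℕ), β' i < (l + 1) * m →
      coeff β' ((Fe a i l - 1) ^ m) = 0 := by
    intro m β' h
    have h1 : Fe a i l - 1 = X i ^ (l + 1) *
        (-((∏ j, uS a j (l + 1) ^ (a i j)) * ((uS a i (l + 1))⁻¹) ^ 2)) := by
      unfold Fe
      ring
    have h2 : (X i : MvPowerSeries I ℚ) ^ ((l + 1) * m) ∣ (Fe a i l - 1) ^ m := by
      rw [h1, mul_pow, ← pow_mul]
      exact Dvd.intro _ rfl
    exact MvPowerSeries.X_pow_dvd_iff.mp h2 β' h
  have hRem0 : ∀ β' : I →₀ ℕ, β' i < (l + 1) * K → coeff β' Rem = 0 := by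
    intro β' h
    have hsum : ∀ j, β' j ≤ ∑ j, β' j :=
      fun j => Finset.single_le_sum (f := fun j => β' j) (fun _ _ => Nat.zero_le _)
        (Finset.mem_univ j)
    rw [hRem, map_sub, map_sum, sub_eq_zero]
    have e1 : coeff β' (rpw (Fe a i l) β) = ∑ n ∈ Finset.range (∑ j, β' j + 1),
        Ring.choose β n * coeff β' ((Fe a i l - 1) ^ n) := rfl
    have e2 : ∀ n, coeff β' (C (Ring.choose β n) * (Fe a i l - 1) ^ n) =
        Ring.choose β n * coeff β' ((Fe a i l - 1) ^ n) := fun n => coeff_C_mul _ _ _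
    rw [e1, Finset.sum_congr rfl (fun n _ => e2 n)]
    have e3 : ∑ n ∈ Finset.range (∑ j, β' j + 1),
          Ring.choose β n * coeff β' ((Fe a i l - 1) ^ n) =
        ∑ n ∈ Finset.range (∑ j, β' j + 1 + K),
          Ring.choose β n * coeff β' ((Fe a i l - 1) ^ n) := by
      refine Finset.sum_subset (fun n hn => ?_) (fun n _ hn => ?_)
      · rw [Finset.mem_range] at *
        omega
      · rw [Finset.mem_range] at hn
        rw [hcoef n β', mul_zero]
        have := hsum i
        have h3 : n ≤ (l + 1) * n := Nat.le_mul_of_pos_left n (Nat.succ_pos l)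
        omega
    have e4 : ∑ n ∈ Finset.range K,
          Ring.choose β n * coeff β' ((Fe a i l - 1) ^ n) =
        ∑ n ∈ Finset.range (∑ j, β' j + 1 + K),
          Ring.choose β n * coeff β' ((Fe a i l - 1) ^ n) := by
      refine Finset.sum_subset (fun n hn => ?_) (fun n _ hn => ?_)
      · rw [Finset.mem_range] at *
        omega
      · rw [Finset.mem_range] at hn
        rw [hcoef n β', mul_zero]
        have h3 : (l + 1) * K ≤ (l + 1) * n := Nat.mul_le_mul_left _ (by omega)
        omega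
    rw [e3, e4]
  refine ⟨Tht a Rem, ?_, ?_⟩
  · rw [Vp_eq]
    have h1 : rpw (Fe a i l) β = (∑ n ∈ Finset.range K, C (Ring.choose β n) *
        (Fe a i l - 1) ^ n) + Rem := by
      rw [hRem]
      ring
    rw [h1, Tht_add]
    congr 1
    rw [← ThtH_apply, map_sum]
    refine Finset.sum_congr rfl (fun n _ => ?_)
    rw [map_mul, map_pow, ThtH_apply, ThtH_apply, Tht_C, neg_eta_eq a hs]
  · intro F
    by_cases h : ∃ n : I →₀ ℕ, ∀ j, (n j : ℚ) = γ j
    · obtain ⟨n, hn⟩ := h
      have hγ : γ = fun j => (n j : ℚ) := by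
        funext j; exact (hn j).symm
      have hlt := hK n hn
      rw [hγ, CT_nat, coeff_mul, Finset.sum_eq_zero]
      · rfl
      · intro p hp
        have h1 : p.1 i ≤ n i := by
          have := Finset.HasAntidiagonal.mem_antidiagonal.mp hp
          rw [← this]
          simp
        have h2 : coeff p.1 (Tht a Rem) =
            AddMonoidAlgebra.single (dg a p.1) (coeff p.1 Rem) := rfl
        rw [h2, hRem0 p.1 (by omega), AddMonoidAlgebra.single_zero, zero_mul]
    · exact CT_of_not γ h _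

end Pool.Agent.H10.KAC
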