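import Pool.Agent.H10.KAC.Forms
import Pool.Agent.H10.KAC.Binom

/-!
Run lemma, module 11: the crossing identity for large insertions.
-/

set_option autoImplicit false
set_option maxHeartbeats 400000

namespace Pool.Agent.H10.KAC

open scoped BigOperators
open Pool.Agent.H46.KA Pool.Agent.H27.KAC

variable {I : Type} [Fintype I] [DecidableEq I]

/-- the ideal `{t | s t ∈ J}`. -/
def colI {O : Type} [CommRing O] (s : O) (J : Ideal O) : Ideal O where
  carrier := {t | s * t ∈ J}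
  add_mem' := fun {x y} hx hy => by
    change s * (x + y) ∈ J
    rw [mul_add]
    exact J.add_mem hx hy
  zero_mem' := by
    change s * 0 ∈ J
    rw [mul_zero]
    exact J.zero_mem
  smul_mem' := fun c x hx => by
    change s * (c • x) ∈ J
    rw [smul_eq_mul, mul_left_comm]
    exact J.mul_mem_left c hx

theorem mem_colI {O : Type} [CommRing O] {s t : O} {J : Ideal O} : t ∈ colI s J ↔ s * t ∈ J :=
  Iff.rfl

/-- congruence of products. -/
theorem prod_pow_congr {O ι : Type} [CommRing O] (J : Ideal O) (s : Finset ι) (u v : ι → O)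
    (n : ι → ℕ) (h : ∀ i ∈ s, u i - v i ∈ J) : ∏ i ∈ s, u i ^ n i - ∏ i ∈ s, v i ^ n i ∈ J := by
  rw [← Ideal.Quotient.eq_zero_iff_mem, map_sub, sub_eq_zero, map_prod, map_prod]
  refine Finset.prod_congr rfl (fun i hi => ?_)
  rw [map_pow, map_pow]
  congr 1
  rw [← sub_eq_zero, ← map_sub, Ideal.Quotient.eq_zero_iff_mem]
  exact h i hi

section

variable {a : I → I → ℕ} {N : Finset I} (H : Hyp a N)

/-- data of the run starting at the base level `b`. -/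
structure RunD (h b M : ℕ) (ε : I → ℤ) (R : I → I → ℕ) : Prop where
  two_le : 2 ≤ h
  sgn : ∀ x, ε x = 1 ∨ ε x = -1
  rR : ∀ x ∈ N, ∀ z ∈ N, 2 * R x z = (if z = x then h else 0) + ∑ y ∈ N, a x y * R y z
  f1 : ∀ x ∈ N, ∀ l, b < l → l < b + h → So H b ^ M * Qo H x l ∈ Jo H (b + 1)
  f2 : ∀ x ∈ N, So H b ^ M * (Qo H x (b + h) -
          (ε x : OO N) * Qo H x b * ∏ z ∈ N, rr H z b ^ R x z) ∈ Jo H (b + 1)
  b1 : ∀ x ∈ N, ∀ l, b < l → l < b + h → So H (b + h) ^ M * Qo H x l ∈ Jo H (b + h - 1)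
  b2 : ∀ x ∈ N, So H (b + h) ^ M * ((∏ z ∈ N, rr H z (b + h - 1) ^ R x z) * Qo H x b -
          (ε x : OO N) * Qo H x (b + h)) ∈ Jo H (b + h - 1)

/-- insertion `∏_{x ∈ N} Q_{x,l}^{e_x}`. -/
noncomputable def insN (e : I → ℕ) (l : ℕ) : OO N := ∏ x ∈ N, Qo H x l ^ e x

/-- outer factor `∏_{i ∉ N} Q_{i,l}^{-p_i}`. -/
noncomputable def outN (p : I → ℚ) (l : ℕ) : OO N := ∏ i ∈ Nᶜ, Po H i l (-p i)

theorem insN_split (e e' : I → ℕ) (l M : ℕ) (h : ∀ x ∈ N, e x = M + e' x) :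
    insN H e l = ((∏ x ∈ N, Qo H x l) ^ M) * insN H e' l := by
  unfold insN
  rw [← Finset.prod_pow, ← Finset.prod_mul_distrib]
  refine Finset.prod_congr rfl (fun x hx => ?_)
  rw [← pow_add, h x hx]

theorem zo_val (l : ℕ) : ((∏ x ∈ N, Qo H x l : OO N) : LL I) = zo a N l := by
  rw [OO_coe_prod]
  rfl

/-- vanishing: a factor `t` of the colon ideal is killed in the presence of `z_m^M`. -/
theorem kill_col (γ : I → ℚ) (m l M : ℕ) {t : OO N} (ht : t ∈ colI (So H m ^ M) (Jo H l))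
    (G : OO N) {w : I → Fm I} (hw : RFo N w) :
    CTd γ ((G * (∏ x ∈ N, Qo H x m) ^ M * t : OO N) : LL I) (colN a N l w) = 0 := by
  have h0 : ((G * (∏ x ∈ N, Qo H x m) ^ M * t : OO N) : LL I) =
      (G : LL I) * zo a N m ^ M * (t : LL I) := by
    rw [Subring.coe_mul, Subring.coe_mul, Subring.coe_pow, zo_val]
  rw [h0]
  exact kill_colN H γ m l M (P := t) (mem_colI.mp ht) G.2 hw

theorem congr_col (γ : I → ℚ) (m l M : ℕ) {t t' : OO N}
    (ht : t - t' ∈ colI (So H m ^ M) (Jo H l))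
    (G : OO N) {w : I → Fm I} (hw : RFo N w) :
    CTd γ ((G * (∏ x ∈ N, Qo H x m) ^ M * t : OO N) : LL I) (colN a N l w) =
      CTd γ ((G * (∏ x ∈ N, Qo H x m) ^ M * t' : OO N) : LL I) (colN a N l w) := by
  have h1 := kill_col H γ m l M ht G hw
  have h2 : ((G * (∏ x ∈ N, Qo H x m) ^ M * (t - t') : OO N) : LL I) =
      ((G * (∏ x ∈ N, Qo H x m) ^ M * t : OO N) : LL I) -
        ((G * (∏ x ∈ N, Qo H x m) ^ M * t' : OO N) : LL I) := by
    rw [← OO_coe_sub]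
    congr 1
    ring
  rw [h2, CTd_sub] at h1
  exact sub_eq_zero.mp h1

/-- log-linearity: the factor `(1 - η_{i,l})^β` may be dropped if `η_{i,l}` is in the colon ideal. -/
theorem drop_V (γ : I → ℚ) (m lev M : ℕ) (i : I) (hi : i ∉ N) (l : ℕ) (x : I) (hx : x ∈ N)
    (hxi : a x i ≠ 0) (hQ : Qo H x (l + 1) ∈ colI (So H m ^ M) (Jo H lev)) (β : ℚ)
    (G : OO N) {w : I → Fm I} (hw : RFo N w) :
    CTd γ (((G * (∏ x ∈ N, Qo H x m) ^ M : OO N) : LL I) * Vp a i l β) (colN a N lev w) =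
      CTd γ ((G * (∏ x ∈ N, Qo H x m) ^ M : OO N) : LL I) (colN a N lev w) := by
  classical
  obtain ⟨e, heO, he⟩ := eta_dvd H i hi x hx hxi (l + 1)
  set E : OO N := Qo H x (l + 1) * ⟨e, heO⟩ with hE
  have hEv : (E : LL I) = eta a i (l + 1) := by
    rw [he]
    rfl
  have hEc : E ∈ colI (So H m ^ M) (Jo H lev) := Ideal.mul_mem_right _ _ hQ
  -- choose the truncation
  obtain ⟨K, hK1, hK⟩ : ∃ K : ℕ, 1 ≤ K ∧ ∀ n : I →₀ ℕ, (∀ j, (n j : ℚ) = γ j) →
      n i < (l + 1) * K := by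
    by_cases h : ∃ n : I →₀ ℕ, ∀ j, (n j : ℚ) = γ j
    · obtain ⟨n, hn⟩ := h
      refine ⟨n i + 1, by omega, fun n' hn' => ?_⟩
      have : n' i = n i := by
        have h1 := hn i
        have h2 := hn' i
        rw [← h2] at h1
        exact_mod_cast h1.symm
      rw [this]
      calc n i < n i + 1 := Nat.lt_succ_self _
        _ ≤ (l + 1) * (n i + 1) := Nat.le_mul_of_pos_left _ (Nat.succ_pos l)
    · exact ⟨1, le_rfl, fun n hn => absurd ⟨n, hn⟩ h⟩
  obtain ⟨Rm, hR1, hR2⟩ := Vp_trunc a H.s i l β γ K hK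
  rw [hR1, mul_add, CTd_add]
  have hrem : CTd γ (((G * (∏ x ∈ N, Qo H x m) ^ M : OO N) : LL I) * Rm) (colN a N lev w) = 0 := by
    unfold CTd
    have h1 : ((G * (∏ x ∈ N, Qo H x m) ^ M : OO N) : LL I) * Rm * (cM (colN a N lev w)).det =
        Rm * (((G * (∏ x ∈ N, Qo H x m) ^ M : OO N) : LL I) * (cM (colN a N lev w)).det) := by ring
    rw [h1]
    exact hR2 _
  rw [hrem, add_zero, Finset.mul_sum, CTd_sum]
  obtain ⟨K', rfl⟩ : ∃ K', K = K' + 1 := ⟨K - 1, by omega⟩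
  rw [Finset.sum_range_succ']
  have h0 : CTd γ (((G * (∏ x ∈ N, Qo H x m) ^ M : OO N) : LL I) *
      (qC (Ring.choose β 0) * (-eta a i (l + 1)) ^ 0)) (colN a N lev w) =
      CTd γ ((G * (∏ x ∈ N, Qo H x m) ^ M : OO N) : LL I) (colN a N lev w) := by
    rw [Ring.choose_zero_right, qC_one, pow_zero, mul_one, mul_one]
  rw [h0, Finset.sum_eq_zero, zero_add]
  intro n _
  have h1 : ((G * (∏ x ∈ N, Qo H x m) ^ M : OO N) : LL I) *
      (qC (Ring.choose β (n + 1)) * (-eta a i (l + 1)) ^ (n + 1)) =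
      qC (Ring.choose β (n + 1)) *
        ((G * (∏ x ∈ N, Qo H x m) ^ M * (-E) ^ (n + 1) : OO N) : LL I) := by
    have h2 : (((-E) ^ (n + 1) : OO N) : LL I) = (-eta a i (l + 1)) ^ (n + 1) := by
      rw [Subring.coe_pow, Subring.coe_neg, hEv]
    rw [Subring.coe_mul (OO N) (G * (∏ x ∈ N, Qo H x m) ^ M) ((-E) ^ (n + 1)), h2]
    ring
  rw [h1, CTd_qC, kill_col H γ m lev M _ G hw, mul_zero]
  rw [pow_succ]
  exact Ideal.mul_mem_left _ _ (Ideal.neg_mem_iff _ |>.mpr hEc)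

end

end Pool.Agent.H10.KAC
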