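import Pool.Agent.H10.KAC.Cross

/-!
Run lemma, module 12: the crossing identity for large insertions.
-/

set_option autoImplicit false
set_option maxHeartbeats 200000

namespace Pool.Agent.H10.KAC

open scoped BigOperators
open Pool.Agent.H46.KA Pool.Agent.H27.KAC

section alg

variable {O : Type} [CommRing O]

theorem alg1 (x1 x1' x2 x2' x3 y z : O) (h1 : x1' * x1 = 1) (h2 : x2' * x2 = 1) :
    x2 * x1' * y * z * (x3 * x1 * (x2' * x2')) = x3 * x2' * y * z := by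
  linear_combination (x3 * x2' * y * z) * h2 + (x2 * y * z * x3 * x2' * x2') * h1

theorem alg2 (A A' B C D y z : O) (h : A' * A = 1) :
    A * B * C * (D * A' * y * z) = D * (B * y) * (C * z) := by
  linear_combination (B * C * D * y * z) * h

theorem alg3 (P P' Q Q' S S' u : O) (h1 : P' * P = 1) (h2 : Q' * Q = 1) (h3 : S' * S = 1) :
    u = P * Q' * S' * (S * P' * (Q * u)) := by
  linear_combination (-u) * h1 - (P' * P * u) * h2 - (P' * P * Q' * Q * u) * h3

theorem alg4 (X Y o i : O) (W : O) : X * (i * (Y * o * W)) = i * (X * Y) * o * W := by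
  ring

theorem alg5 (X i o F : O) : X * (i * o * F) = (X * (i * o)) * F := by ring

theorem alg6 (t o W F : O) : t * o * W * F = t * o * F * W := by ring

theorem alg7 (z r t o F : O) : z * (r * t) * o * F = (r * t) * o * F * z := by ring

theorem alg8 (z r t v o F : O) : z * (r * t) * v * o * F = r * t * o * F * z * v := by ring

theorem alg9 (z r t ε z' o F : O) : z * (r * t) * (ε * z') * o * F =
    (ε * (r * t) * o * F) * z' * z := by ring

theorem alg10 (t ε z' o F : O) : t * (ε * z') * o * F = ε * o * F * z' * t := by ring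

theorem alg11 (A B C D : O) : A * B * (C * D) = (A * C) * (B * D) := by ring

theorem alg12 (q r t : O) (n : ℕ) : (q * r) ^ n * t = q ^ n * (r ^ n * t) := by
  rw [mul_pow, mul_assoc]

theorem alg13 (ε i o F : O) : ε * i * o * F = ε * (i * o * F) := by ring

theorem alg14 (G V z W : O) : G * z * (V * W) = (G * V) * z * W := by ring

theorem alg15 (G V z : O) : G * V * z = G * z * V := by ring

end alg

variable {I : Type} [Fintype I] [DecidableEq I]

section

variable {a : I → I → ℕ} {N : Finset I} (H : Hyp a N)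

/-- `(1 - η_{i,l+1})^β` in `OO N`, for `i ∉ N`. -/
noncomputable def Vo (i : I) (l : ℕ) (β : ℚ) : OO N :=
  Po H i (l + 2) β * Po H i l β * Po H i (l + 1) (-2 * β)

theorem Vo_val (i : I) (hi : i ∉ N) (l : ℕ) (β : ℚ) : (Vo H i l β : LL I) = Vp a i l β := by
  unfold Vo Vp
  rw [Subring.coe_mul, Subring.coe_mul, Po_val H i hi, Po_val H i hi, Po_val H i hi]

theorem Vo_zero (i : I) (l : ℕ) : Vo H i l 0 = 1 := by
  unfold Vo
  rw [mul_zero, Po_zero, Po_zero, Po_zero, one_mul, one_mul]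

theorem Vo_add (i : I) (l : ℕ) (β β' : ℚ) : Vo H i l (β + β') = Vo H i l β * Vo H i l β' := by
  unfold Vo
  rw [Po_add, Po_add, mul_add, Po_add]
  ring

theorem Vo_tele1 (i : I) (b m : ℕ) (α : ℚ) :
    ∏ l ∈ Finset.range (m + 1), Vo H i (b + l) α =
      Po H i (b + m + 2) α * Po H i (b + m + 1) (-α) * Po H i (b + 1) (-α) * Po H i b α := by
  induction m with
  | zero =>
    rw [zero_add, Finset.prod_range_one]
    unfold Vo
    have : (-2 * α) = -α + -α := by ring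
    rw [this, Po_add]
    simp only [add_zero]
    ring
  | succ m ih =>
    rw [Finset.prod_range_succ, ih]
    unfold Vo
    have h1 : (-2 * α) = -α + -α := by ring
    rw [h1, Po_add]
    have e1 := Po_neg H i (b + m + 2) α
    have e2 := Po_neg H i (b + m + 1) α
    have e3 : b + (m + 1) + 2 = b + m + 3 := by ring
    have e4 : b + (m + 1) + 1 = b + m + 2 := by ring
    have e5 : b + (m + 1) = b + m + 1 := by ring
    rw [e3, e4, e5]
    exact alg1 _ _ _ _ _ _ _ e2 e1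

theorem Vo_tele (i : I) (b m : ℕ) (α : ℚ) :
    ∏ l ∈ Finset.range m, Vo H i (b + l) (((m : ℚ) - l) * α) =
      Po H i (b + m + 1) α * Po H i (b + 1) (-((m + 1) * α)) * Po H i b (m * α) := by
  induction m with
  | zero =>
    rw [Finset.range_zero, Finset.prod_empty, Nat.cast_zero, zero_mul, Po_zero, mul_one, zero_add,
      one_mul, add_zero]
    rw [mul_comm]
    exact (Po_neg H i (b + 1) α).symm
  | succ m ih =>
    have h1 : ∏ l ∈ Finset.range (m + 1), Vo H i (b + l) ((((m + 1 : ℕ) : ℚ) - l) * α) =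
        (∏ l ∈ Finset.range m, Vo H i (b + l) (((m : ℚ) - l) * α)) *
        ∏ l ∈ Finset.range (m + 1), Vo H i (b + l) α := by
      rw [Finset.prod_range_succ, Finset.prod_range_succ (fun l => Vo H i (b + l) α), ← mul_assoc,
        ← Finset.prod_mul_distrib]
      have g1 : (((m + 1 : ℕ) : ℚ) - m) * α = α := by
        push_cast
        ring
      rw [g1]
      refine congrArg (· * Vo H i (b + m) α) (Finset.prod_congr rfl (fun l _ => ?_))
      have g2 : (((m + 1 : ℕ) : ℚ) - l) * α = ((m : ℚ) - l) * α + α := by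
        push_cast
        ring
      rw [g2, Vo_add]
    rw [h1, ih, Vo_tele1]
    have e1 := Po_neg H i (b + m + 1) α
    have e2 : (-((((m + 1 : ℕ) : ℚ) + 1) * α)) = -((m + 1) * α) + -α := by
      push_cast
      ring
    have e3 : ((m + 1 : ℕ) : ℚ) * α = m * α + α := by
      push_cast
      ring
    rw [e2, e3, Po_add, Po_add]
    have e4 : b + (m + 1) + 1 = b + m + 2 := by ring
    rw [e4]
    exact alg2 _ _ _ _ _ _ _ e1

/-- dropping one factor. -/
theorem drop_Vo (γ : I → ℚ) (m lev M : ℕ) (i : I) (hi : i ∉ N) (l : ℕ) (β : ℚ)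
    (h : β = 0 ∨ ∃ x ∈ N, a x i ≠ 0 ∧ Qo H x (l + 1) ∈ colI (So H m ^ M) (Jo H lev))
    (G : OO N) {w : I → Fm I} (hw : RFo N w) :
    CTd γ ((G * (∏ x ∈ N, Qo H x m) ^ M * Vo H i l β : OO N) : LL I) (colN a N lev w) =
      CTd γ ((G * (∏ x ∈ N, Qo H x m) ^ M : OO N) : LL I) (colN a N lev w) := by
  rcases h with rfl | ⟨x, hx, hxi, hQ⟩
  · rw [Vo_zero, mul_one]
  · rw [Subring.coe_mul (OO N) (G * (∏ x ∈ N, Qo H x m) ^ M) (Vo H i l β), Vo_val H i hi]
    exact drop_V H γ m lev M i hi l x hx hxi hQ β G hw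

/-- dropping a product of factors. -/
theorem drop_Vs (γ : I → ℚ) (m lev M : ℕ) {ι : Type} (s : Finset ι) (i : ι → I) (l : ι → ℕ)
    (β : ι → ℚ) (hi : ∀ k ∈ s, i k ∉ N)
    (h : ∀ k ∈ s, β k = 0 ∨ ∃ x ∈ N, a x (i k) ≠ 0 ∧
      Qo H x (l k + 1) ∈ colI (So H m ^ M) (Jo H lev))
    (G : OO N) {w : I → Fm I} (hw : RFo N w) :
    CTd γ ((G * (∏ x ∈ N, Qo H x m) ^ M * ∏ k ∈ s, Vo H (i k) (l k) (β k) : OO N) : LL I)
        (colN a N lev w) =
      CTd γ ((G * (∏ x ∈ N, Qo H x m) ^ M : OO N) : LL I) (colN a N lev w) := by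
  classical
  induction s using Finset.induction_on generalizing G with
  | empty => rw [Finset.prod_empty, mul_one]
  | insert k s hk ih =>
    rw [Finset.prod_insert hk]
    have e1 : G * (∏ x ∈ N, Qo H x m) ^ M * (Vo H (i k) (l k) (β k) *
        ∏ k ∈ s, Vo H (i k) (l k) (β k)) = (G * Vo H (i k) (l k) (β k)) *
        (∏ x ∈ N, Qo H x m) ^ M * ∏ k ∈ s, Vo H (i k) (l k) (β k) := alg14 _ _ _ _
    rw [e1, ih (fun k' hk' => hi k' (Finset.mem_insert_of_mem hk'))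
      (fun k' hk' => h k' (Finset.mem_insert_of_mem hk'))]
    have e2 : G * Vo H (i k) (l k) (β k) * (∏ x ∈ N, Qo H x m) ^ M =
        G * (∏ x ∈ N, Qo H x m) ^ M * Vo H (i k) (l k) (β k) := alg15 _ _ _
    rw [e2]
    exact drop_Vo H γ m lev M (i k) (hi k (Finset.mem_insert_self k s)) (l k) (β k)
      (h k (Finset.mem_insert_self k s)) G hw

theorem Po_mulNat (i : I) (l : ℕ) (α : ℚ) (n : ℕ) : Po H i l (α * n) = Po H i l α ^ n := by
  induction n with
  | zero => rw [Nat.cast_zero, mul_zero, Po_zero, pow_zero]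
  | succ n ih => rw [Nat.cast_succ, mul_add, mul_one, Po_add, ih, pow_succ]

theorem Po_sum (i : I) (l : ℕ) {ι : Type} (s : Finset ι) (f : ι → ℚ) :
    Po H i l (∑ k ∈ s, f k) = ∏ k ∈ s, Po H i l (f k) := by
  classical
  induction s using Finset.induction_on with
  | empty => rw [Finset.sum_empty, Finset.prod_empty, Po_zero]
  | insert k s hk ih => rw [Finset.sum_insert hk, Finset.prod_insert hk, Po_add, ih]

/-- powers of `rr`. -/
theorem rr_pow_prod (b : ℕ) (n : I → ℕ) (P : I → ℚ)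
    (hP : ∀ i, i ∉ N → P i = ∑ z ∈ N, (a z i : ℚ) * n z) :
    ∏ z ∈ N, rr H z b ^ n z = (∏ z ∈ N, Xo N z ^ n z) *
      ∏ i ∈ Nᶜ, (Po H i (b + 1) (P i) * Po H i b (-P i)) := by
  have h1 : ∀ i ∈ Nᶜ, Po H i (b + 1) (P i) * Po H i b (-P i) =
      ∏ z ∈ N, (Po H i (b + 1) (a z i) * Po H i b (-(a z i : ℚ))) ^ n z := by
    intro i hi
    rw [hP i (Finset.mem_compl.mp hi), ← Finset.sum_neg_distrib, Po_sum, Po_sum,
      ← Finset.prod_mul_distrib]
    refine Finset.prod_congr rfl (fun z _ => ?_)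
    rw [mul_pow, ← Po_mulNat, ← Po_mulNat]
    congr 2
    ring
  rw [Finset.prod_congr rfl h1, Finset.prod_comm, ← Finset.prod_mul_distrib]
  refine Finset.prod_congr rfl (fun z _ => ?_)
  unfold rr
  rw [mul_pow, ← Finset.prod_pow]

variable {h b M : ℕ} {ε : I → ℤ} {R : I → I → ℕ}

/-- `T_x = Q_{x,b} ρ_x`. -/
noncomputable def Tx (b : ℕ) (R : I → I → ℕ) (x : I) : OO N :=
  Qo H x b * ∏ z ∈ N, rr H z b ^ R x z

theorem Tx_f (D : RunD H h b M ε R) (x : I) (hx : x ∈ N) :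
    Tx H b R x - (ε x : OO N) * Qo H x (b + h) ∈ colI (So H b ^ M) (Jo H (b + 1)) := by
  have h1 := Ideal.mul_mem_left _ (-(ε x : OO N)) (mem_colI.mpr (D.f2 x hx))
  have h2 : (ε x : OO N) * (ε x : OO N) = 1 := by
    rcases D.sgn x with h | h <;> rw [h] <;> simp
  have h3 : Tx H b R x - (ε x : OO N) * Qo H x (b + h) = -(ε x : OO N) * (Qo H x (b + h) -
          (ε x : OO N) * Qo H x b * ∏ z ∈ N, rr H z b ^ R x z) := by
    unfold Tx
    linear_combination (-(Qo H x b * ∏ z ∈ N, rr H z b ^ R x z)) * h2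
  rw [h3]
  exact h1

theorem rr_congr (D : RunD H h b M ε R) (z : I) (hz : z ∈ N) (m : ℕ) (hm : m + 1 ≤ h) :
    m + 1 < h → rr H z (b + m + 1) - rr H z (b + m) ∈
      colI (So H (b + h) ^ M) (Jo H (b + h - 1)) := by
  intro hlt
  obtain ⟨G, hG⟩ := rr_succ H z hz (b + m)
  have h1 : rr H z (b + m + 1) - rr H z (b + m) = (-(rr H z (b + m) * G)) * Qo H z (b + m + 1) := by
    rw [hG]
    ring
  rw [h1]
  exact Ideal.mul_mem_left _ _ (mem_colI.mpr (D.b1 z hz (b + m + 1) (by omega) (by omega)))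

theorem rr_congr' (D : RunD H h b M ε R) (z : I) (hz : z ∈ N) (m : ℕ) (hm : m + 1 ≤ h) :
    rr H z (b + m) - rr H z b ∈ colI (So H (b + h) ^ M) (Jo H (b + h - 1)) := by
  induction m with
  | zero =>
    rw [add_zero, sub_self]
    exact Ideal.zero_mem _
  | succ m ih =>
    have h1 := ih (by omega)
    have h2 := rr_congr H D z hz m (by omega) (by omega)
    have h3 := Ideal.add_mem _ h2 h1
    rw [sub_add_sub_cancel] at h3
    exact h3

theorem Tx_b (D : RunD H h b M ε R) (x : I) (hx : x ∈ N) :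
    Tx H b R x - (ε x : OO N) * Qo H x (b + h) ∈
      colI (So H (b + h) ^ M) (Jo H (b + h - 1)) := by
  have h1 := mem_colI.mpr (D.b2 x hx)
  have h2 := D.two_le
  have h3 : ∏ z ∈ N, rr H z (b + h - 1) ^ R x z - ∏ z ∈ N, rr H z b ^ R x z ∈
      colI (So H (b + h) ^ M) (Jo H (b + h - 1)) := by
    apply prod_pow_congr
    intro z hz
    have h4 := rr_congr' H D z hz (h - 1) (by omega)
    have h5 : b + (h - 1) = b + h - 1 := by omega
    rwa [h5] at h4
  have h6 := Ideal.sub_mem _ h1 (Ideal.mul_mem_right (Qo H x b) _ h3)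
  have h7 : Tx H b R x - (ε x : OO N) * Qo H x (b + h) =
      ((∏ z ∈ N, rr H z (b + h - 1) ^ R x z) * Qo H x b - (ε x : OO N) * Qo H x (b + h)) -
      (∏ z ∈ N, rr H z (b + h - 1) ^ R x z - ∏ z ∈ N, rr H z b ^ R x z) * Qo H x b := by
    unfold Tx
    ring
  rw [h7]
  exact h6

theorem int_out (γ : I → ℚ) (n : ℤ) (F : OO N) (c : I → Fm I) :
    CTd γ (((n : OO N) * F : OO N) : LL I) c = (n : ℚ) * CTd γ (F : LL I) c := by
  rw [← CTd_qC, qC_intCast, Subring.coe_mul, Subring.coe_intCast]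

theorem Xo_prod_val (n : I → ℕ) : ((∏ x ∈ N, Xo N x ^ n x : OO N) : LL I) =
    ∏ x ∈ N, MvPowerSeries.X x ^ n x := by
  rw [OO_coe_prod]
  rfl

theorem insN_const (l c : ℕ) : insN H (fun _ => c) l = (∏ x ∈ N, Qo H x l) ^ c := by
  unfold insN
  exact Finset.prod_pow _ _ _

attribute [local irreducible] Qo Po rr Xo Vo insN outN So Jo colI

/-- splitting off powers of `z_b`. -/
theorem split_T (b : ℕ) (ρ : I → OO N) (f g : I → ℕ) (c : ℕ) (hfg : ∀ x ∈ N, f x = c + g x) :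
    ∏ x ∈ N, (Qo H x b * ρ x) ^ f x = (∏ x ∈ N, Qo H x b) ^ c *
        ((∏ x ∈ N, ρ x ^ c) * ∏ x ∈ N, (Qo H x b * ρ x) ^ g x) := by
  rw [← Finset.prod_pow, ← Finset.prod_mul_distrib, ← Finset.prod_mul_distrib]
  refine Finset.prod_congr rfl (fun x hx => ?_)
  rw [hfg x hx, pow_add]
  exact alg12 _ _ _ _

theorem split_E (l : ℕ) (ε : I → ℤ) (f : I → ℕ) :
    ∏ x ∈ N, ((ε x : OO N) * Qo H x l) ^ f x =
      (((∏ x ∈ N, ε x ^ f x : ℤ) : OO N)) * insN H f l := by
  unfold insN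
  rw [Int.cast_prod, ← Finset.prod_mul_distrib]
  refine Finset.prod_congr rfl (fun x _ => ?_)
  rw [mul_pow, Int.cast_pow]

theorem stepA (γ : I → ℚ) (D : RunD H h b M ε R) (ρ : I → OO N) {e e1 : I → ℕ}
    (he : ∀ x ∈ N, e x = M + e1 x) {p : I → ℚ}
    (hp0 : ∀ i, i ∉ N → (∀ x ∈ N, a x i = 0) → p i = 0) (out F : OO N)
    {w : I → Fm I} (hw : RFo N w) :
    CTd γ (((∏ x ∈ N, (Qo H x b * ρ x) ^ e x) * out * F * ∏ i ∈ Nᶜ, ∏ l ∈ Finset.range (h - 1),
        Vo H i (b + l) ((((h - 1 : ℕ) : ℚ) - l) * p i) : OO N) : LL I) (colN a N (b + 1) w) =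
      CTd γ (((∏ x ∈ N, (Qo H x b * ρ x) ^ e x) * out * F : OO N) : LL I)
        (colN a N (b + 1) w) := by
  classical
  rw [split_T H b ρ e e1 M he, Finset.prod_sigma', alg7]
  refine drop_Vs H γ b (b + 1) M (ι := Σ _ : I, ℕ) _ (fun k => k.1) (fun k => b + k.2)
    (fun k => (((h - 1 : ℕ) : ℚ) - k.2) * p k.1) ?_ ?_
    (((∏ x ∈ N, ρ x ^ M) * ∏ x ∈ N, (Qo H x b * ρ x) ^ e1 x) * out * F) hw
  · intro k hk
    exact Finset.mem_compl.mp (Finset.mem_sigma.mp hk).1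
  · intro k hk
    have hk1 := Finset.mem_compl.mp (Finset.mem_sigma.mp hk).1
    have hk2 := Finset.mem_range.mp (Finset.mem_sigma.mp hk).2
    by_cases hadj : ∃ x ∈ N, a x k.1 ≠ 0
    · obtain ⟨x, hx, hxi⟩ := hadj
      right
      exact ⟨x, hx, hxi, mem_colI.mpr (D.f1 x hx _ (by omega) (by omega))⟩
    · left
      push Not at hadj
      rw [hp0 k.1 hk1 hadj, mul_zero]

theorem stepB (γ : I → ℚ) (m lev : ℕ) (ρ E : I → OO N) {e e1 e2 : I → ℕ}
    (he : ∀ x ∈ N, e x = e1 x + M) (he1 : ∀ x ∈ N, e1 x = M + e2 x)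
    (hT : ∀ x ∈ N, Qo H x m * ρ x - E x ∈ colI (So H m ^ M) (Jo H lev)) (out F : OO N)
    {w : I → Fm I} (hw : RFo N w) :
    CTd γ (((∏ x ∈ N, (Qo H x m * ρ x) ^ e x) * out * F : OO N) : LL I) (colN a N lev w) =
      CTd γ (((∏ x ∈ N, (Qo H x m * ρ x) ^ e1 x) * (∏ x ∈ N, E x ^ M) * out * F : OO N) : LL I)
        (colN a N lev w) := by
  have ht := prod_pow_congr (colI (So H m ^ M) (Jo H lev)) N (fun x => Qo H x m * ρ x) E
    (fun _ => M) hT
  have h1 := congr_col H γ m lev M ht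
    (((∏ x ∈ N, ρ x ^ M) * ∏ x ∈ N, (Qo H x m * ρ x) ^ e2 x) * out * F) hw
  have hsum : ∏ x ∈ N, (Qo H x m * ρ x) ^ e x =
      (∏ x ∈ N, (Qo H x m * ρ x) ^ e1 x) * ∏ x ∈ N, (Qo H x m * ρ x) ^ M := by
    rw [← Finset.prod_mul_distrib]
    exact Finset.prod_congr rfl (fun x hx => by rw [← pow_add, he x hx])
  rw [hsum, split_T H m ρ e1 e2 M he1, alg8, alg8]
  exact h1

theorem stepC (γ : I → ℚ) (D : RunD H h b M ε R) (ρ : I → OO N) {e1 e3 : I → ℕ}
    (he1 : ∀ x ∈ N, e1 x = M * N.card + e3 x) (out F : OO N)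
    {w : I → Fm I} (hw : RFo N w) :
    CTd γ (((∏ x ∈ N, (Qo H x b * ρ x) ^ e1 x) *
        (∏ x ∈ N, ((ε x : OO N) * Qo H x (b + h)) ^ M) * out * F : OO N) : LL I)
        (colN a N (b + 1) w) =
      CTd γ (((∏ x ∈ N, (Qo H x b * ρ x) ^ e1 x) *
        (∏ x ∈ N, ((ε x : OO N) * Qo H x (b + h)) ^ M) * out * F : OO N) : LL I)
        (colN a N (b + h - 1) w) := by
  have hh2 := D.two_le
  have g1 : (∏ x ∈ N, (Qo H x b * ρ x) ^ e1 x) *
      (∏ x ∈ N, ((ε x : OO N) * Qo H x (b + h)) ^ M) * out * F =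
      (((∏ x ∈ N, ε x ^ M : ℤ) : OO N) * ((∏ x ∈ N, ρ x ^ (M * N.card)) *
        ∏ x ∈ N, (Qo H x b * ρ x) ^ e3 x) * out * F) * (∏ x ∈ N, Qo H x (b + h)) ^ M *
        ((∏ x ∈ N, Qo H x b) ^ M) ^ N.card := by
    rw [split_E H (b + h) ε (fun _ => M), split_T H b ρ e1 e3 (M * N.card) he1, insN_const,
      ← pow_mul]
    exact alg9 _ _ _ _ _ _ _
  have g2 := congrArg (fun t : OO N => (t : LL I)) g1
  rw [Subring.coe_mul (OO N) (_ * (∏ x ∈ N, Qo H x (b + h)) ^ M), Subring.coe_mul (OO N) _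
    ((∏ x ∈ N, Qo H x (b + h)) ^ M), Subring.coe_pow, Subring.coe_pow,
    Subring.coe_pow, zo_val, zo_val] at g2
  rw [g2]
  exact transport H γ b (b + h) (b + 1) (b + h - 1) M
    (fun x hx => D.f1 x hx _ (by omega) (by omega))
    (fun x hx => D.b1 x hx _ (by omega) (by omega)) (Subtype.property _) hw

theorem stepD (γ : I → ℚ) (m lev : ℕ) (T : I → OO N) (e1 : I → ℕ)
    (hT : ∀ x ∈ N, T x - (ε x : OO N) * Qo H x m ∈ colI (So H m ^ M) (Jo H lev)) (out F : OO N)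
    {w : I → Fm I} (hw : RFo N w) :
    CTd γ (((∏ x ∈ N, T x ^ e1 x) *
        (∏ x ∈ N, ((ε x : OO N) * Qo H x m) ^ M) * out * F : OO N) : LL I)
        (colN a N lev w) =
      CTd γ (((∏ x ∈ N, ((ε x : OO N) * Qo H x m) ^ e1 x) *
        (∏ x ∈ N, ((ε x : OO N) * Qo H x m) ^ M) * out * F : OO N) : LL I)
        (colN a N lev w) := by
  have ht := prod_pow_congr (colI (So H m ^ M) (Jo H lev)) N T
    (fun x => (ε x : OO N) * Qo H x m) e1 hT
  have h1 := congr_col H γ m lev M ht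
    (((∏ x ∈ N, ε x ^ M : ℤ) : OO N) * out * F) hw
  have g1 : ∀ t : OO N, t * (∏ x ∈ N, ((ε x : OO N) * Qo H x m) ^ M) * out * F =
      ((∏ x ∈ N, ε x ^ M : ℤ) : OO N) * out * F * (∏ x ∈ N, Qo H x m) ^ M * t := by
    intro t
    rw [split_E H m ε (fun _ => M), insN_const]
    exact alg10 _ _ _ _ _
  rw [g1, g1]
  exact h1

/-- `X^n U_b` in terms of `T`. -/
theorem step0 (hh : 1 ≤ h) {e n : I → ℕ} {p : I → ℚ}
    (hn : ∀ z ∈ N, n z = ∑ x ∈ N, e x * R x z)
    (hp : ∀ i, i ∉ N → (h : ℚ) * p i = ∑ z ∈ N, (a z i : ℚ) * n z) :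
    (∏ x ∈ N, Xo N x ^ n x) * (insN H e b * outN H p b) =
      (∏ x ∈ N, (Qo H x b * ∏ z ∈ N, rr H z b ^ R x z) ^ e x) * outN H p (b + h) *
        ∏ i ∈ Nᶜ, ∏ l ∈ Finset.range (h - 1),
        Vo H i (b + l) ((((h - 1 : ℕ) : ℚ) - l) * p i) := by
  have hrho : ∏ x ∈ N, (Qo H x b * ∏ z ∈ N, rr H z b ^ R x z) ^ e x =
      insN H e b * ∏ z ∈ N, rr H z b ^ n z := by
    have h1 : ∀ x ∈ N, (Qo H x b * ∏ z ∈ N, rr H z b ^ R x z) ^ e x =
        Qo H x b ^ e x * ∏ z ∈ N, rr H z b ^ (e x * R x z) := by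
      intro x _
      rw [mul_pow, ← Finset.prod_pow]
      refine congrArg (Qo H x b ^ e x * ·) (Finset.prod_congr rfl (fun z _ => ?_))
      rw [← pow_mul, mul_comm (R x z)]
    rw [Finset.prod_congr rfl h1, Finset.prod_mul_distrib, Finset.prod_comm]
    unfold insN
    refine congrArg ((∏ x ∈ N, Qo H x b ^ e x) * ·) (Finset.prod_congr rfl (fun z hz => ?_))
    rw [hn z hz, Finset.prod_pow_eq_pow_sum]
  rw [hrho, rr_pow_prod H b n (fun i => (h : ℚ) * p i) hp]
  have h1 : outN H p b = (∏ i ∈ Nᶜ, (Po H i (b + 1) ((h : ℚ) * p i) *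
      Po H i b (-((h : ℚ) * p i)))) * outN H p (b + h) * ∏ i ∈ Nᶜ, ∏ l ∈ Finset.range (h - 1),
      Vo H i (b + l) ((((h - 1 : ℕ) : ℚ) - l) * p i) := by
    unfold outN
    rw [← Finset.prod_mul_distrib, ← Finset.prod_mul_distrib]
    refine Finset.prod_congr rfl (fun i _ => ?_)
    rw [Vo_tele]
    have e1 : b + (h - 1) + 1 = b + h := by omega
    have e2 : ((h - 1 : ℕ) : ℚ) = (h : ℚ) - 1 := by
      rw [Nat.cast_sub hh]
      norm_num
    have e3 : (-(((h : ℚ) - 1 + 1) * p i)) = -((h : ℚ) * p i) := by ring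
    have e4 : ((h : ℚ) - 1) * p i = (h : ℚ) * p i + -p i := by ring
    rw [e1, e2, e3, e4, Po_add H i b]
    exact alg3 _ _ _ _ _ _ _ (Po_neg H i (b + 1) ((h : ℚ) * p i))
      (Po_neg H i b ((h : ℚ) * p i)) (Po_neg H i (b + h) (p i))
  rw [h1]
  exact alg4 _ _ _ _ _

/-- The crossing identity for large insertions. -/
theorem cross_exact (D : RunD H h b M ε R) {e n : I → ℕ} {p : I → ℚ}
    (he : ∀ x ∈ N, M * (N.card + 2) ≤ e x)
    (hn : ∀ z ∈ N, n z = ∑ x ∈ N, e x * R x z)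
    (hp : ∀ i, i ∉ N → (h : ℚ) * p i = ∑ z ∈ N, (a z i : ℚ) * n z)
    (γ : I → ℚ) (F : OO N) {w : I → Fm I} (hw : RFo N w) :
    CTd (fun i => γ i + if i ∈ N then (n i : ℚ) else 0)
        ((insN H e (b + h) * outN H p (b + h) * F : OO N) : LL I) (colN a N (b + h - 1) w) =
      ((∏ x ∈ N, ε x ^ e x : ℤ) : ℚ) *
        CTd γ ((insN H e b * outN H p b * F : OO N) : LL I) (colN a N (b + 1) w) := by
  classical
  have hh2 := D.two_le
  have hcard : M * (N.card + 2) = M * N.card + M + M := by ring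
  rw [hcard] at he
  have hp0 : ∀ i, i ∉ N → (∀ x ∈ N, a x i = 0) → p i = 0 := by
    intro i hi hadj
    have h1 := hp i hi
    rw [Finset.sum_eq_zero (fun z hz => by rw [hadj z hz]; simp)] at h1
    have h2 : (h : ℚ) ≠ 0 := by
      have : 0 < h := by omega
      positivity
    rcases mul_eq_zero.mp h1 with h3 | h3
    · exact absurd h3 h2
    · exact h3
  -- step 0
  have s0 : CTd γ ((insN H e b * outN H p b * F : OO N) : LL I) (colN a N (b + 1) w) =
      CTd (fun i => γ i + if i ∈ N then (n i : ℚ) else 0)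
        (((∏ x ∈ N, (Qo H x b * ∏ z ∈ N, rr H z b ^ R x z) ^ e x) * outN H p (b + h) * F *
        ∏ i ∈ Nᶜ, ∏ l ∈ Finset.range (h - 1),
        Vo H i (b + l) ((((h - 1 : ℕ) : ℚ) - l) * p i) : OO N) : LL I) (colN a N (b + 1) w) := by
    rw [← CTd_shift γ n N]
    have e1 : (∏ x ∈ N, MvPowerSeries.X x ^ n x : LL I) =
        ((∏ x ∈ N, Xo N x ^ n x : OO N) : LL I) := (Xo_prod_val n).symm
    have e2 : (∏ x ∈ N, Xo N x ^ n x) * (insN H e b * outN H p b * F) =
        (∏ x ∈ N, (Qo H x b * ∏ z ∈ N, rr H z b ^ R x z) ^ e x) * outN H p (b + h) * F *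
        ∏ i ∈ Nᶜ, ∏ l ∈ Finset.range (h - 1),
        Vo H i (b + l) ((((h - 1 : ℕ) : ℚ) - l) * p i) := by
      rw [alg5, step0 H (by omega) hn hp]
      exact alg6 _ _ _ _
    rw [e1, ← Subring.coe_mul, e2]
  rw [s0, stepA H _ D (fun x => ∏ z ∈ N, rr H z b ^ R x z) (e1 := fun x => e x - M)
    (fun x hx => by have := he x hx; omega) hp0 _ F hw,
    stepB H _ b (b + 1) (fun x => ∏ z ∈ N, rr H z b ^ R x z)
      (fun x => (ε x : OO N) * Qo H x (b + h)) (e1 := fun x => e x - M)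
      (e2 := fun x => e x - M - M)
      (fun x hx => by have := he x hx; omega)
      (fun x hx => by have := he x hx; omega)
      (fun x hx => Tx_f H D x hx) _ F hw,
    stepC H _ D (fun x => ∏ z ∈ N, rr H z b ^ R x z) (e1 := fun x => e x - M)
      (e3 := fun x => e x - M - M * N.card)
      (fun x hx => by have := he x hx; omega) _ F hw,
    stepD H _ (b + h) (b + h - 1) (fun x => Qo H x b * ∏ z ∈ N, rr H z b ^ R x z)
      (fun x => e x - M) (fun x hx => Tx_b H D x hx) _ F hw]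
  -- collect
  have hcol : (∏ x ∈ N, ((ε x : OO N) * Qo H x (b + h)) ^ (e x - M)) *
      (∏ x ∈ N, ((ε x : OO N) * Qo H x (b + h)) ^ M) * outN H p (b + h) * F =
      ((∏ x ∈ N, ε x ^ e x : ℤ) : OO N) * (insN H e (b + h) * outN H p (b + h) * F) := by
    have h1 : (∏ x ∈ N, ((ε x : OO N) * Qo H x (b + h)) ^ (e x - M)) *
        (∏ x ∈ N, ((ε x : OO N) * Qo H x (b + h)) ^ M) =
        ∏ x ∈ N, ((ε x : OO N) * Qo H x (b + h)) ^ e x := by
      rw [← Finset.prod_mul_distrib]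
      refine Finset.prod_congr rfl (fun x hx => ?_)
      rw [← pow_add]
      have := he x hx
      rw [show e x - M + M = e x by omega]
    rw [h1, split_E]
    exact alg13 _ _ _ _
  rw [hcol, int_out, ← mul_assoc]
  have hsq : ((∏ x ∈ N, ε x ^ e x : ℤ) : ℚ) * ((∏ x ∈ N, ε x ^ e x : ℤ) : ℚ) = 1 := by
    rw [← Int.cast_mul, ← Finset.prod_mul_distrib]
    have : ∏ x ∈ N, ε x ^ e x * ε x ^ e x = 1 := by
      refine Finset.prod_eq_one (fun x _ => ?_)
      rw [← mul_pow]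
      rcases D.sgn x with h | h <;> rw [h] <;> simp
    rw [this, Int.cast_one]
  rw [hsq, one_mul]

end

end Pool.Agent.H10.KAC
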