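import Pool.Agent.H10.KAC.Fin3

/-!
Run lemma, module 18: existence of the crossing data (mm = the `KE` number = Coxeter number,
eps q = (-1)^(2 * sum of q)).
-/

set_option autoImplicit false
set_option maxHeartbeats 400000

namespace Pool.Agent.H10.KAC

open scoped BigOperators
open Pool.Agent.H46.KA Pool.Agent.H27.KAC

variable {I : Type} [Fintype I] [DecidableEq I]

theorem prod_neg_one (s : Finset I) (S : I → ℕ) (z : I → ℤ) :
    ∏ x ∈ s, (((-1 : ℚ) ^ S x) ^ z x) = (-1) ^ (∑ x ∈ s, (S x : ℤ) * z x) := by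
  induction s using Finset.induction_on with
  | empty => simp
  | insert x s hx ih =>
    rw [Finset.prod_insert hx, Finset.sum_insert hx, zpow_add₀ (by norm_num), ih]
    congr 1
    rw [zpow_mul, zpow_natCast]

theorem OneD.eps_formula {a : I → I → ℕ} (hs : ∀ i j, a i j = a j i) {A : Finset I} {m : ℕ}
    {e : ℕ → {x // x ∈ A} → ℤ} {ε : I → ℤ} (D : OneD a A m e ε) (q : I → ℚ)
    (hq : ∀ x ∈ A, IsZ (cqN a A q x)) :
    ∃ n : ℤ, 2 * ∑ x ∈ A, q x = n ∧ epsG a A ε q = (-1) ^ n := by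
  classical
  obtain ⟨S, hS⟩ : ∃ S : I → ℕ, S = fun x => if hx : x ∈ A then Se e m ⟨x, hx⟩ else 0 := ⟨_, rfl⟩
  have hSx : ∀ x (hx : x ∈ A), S x = Se e m ⟨x, hx⟩ := fun x hx => by
    rw [hS]
    simp only [dif_pos hx]
  have hlast : ∀ x ∈ A, ∑ y ∈ A, a x y * S y + 2 = 2 * S x := by
    intro x hx
    have h1 := Se_last (fun x y => hs x.1 y.1) D.ke ⟨x, hx⟩
    rw [hSx x hx, ← h1]
    congr 1
    rw [← Finset.sum_coe_sort A (fun y => a x y * S y)]
    exact Finset.sum_congr rfl (fun y _ => by rw [hSx y.1 y.2]; rfl)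
  refine ⟨∑ x ∈ A, (S x : ℤ) * ⌊cqN a A q x⌋, ?_, ?_⟩
  · push_cast
    have h1 : ∀ x ∈ A, (S x : ℚ) * ((⌊cqN a A q x⌋ : ℤ) : ℚ) =
        ∑ y ∈ A, (cart a x y : ℚ) * S x * q y := by
      intro x hx
      rw [IsZ_floor (hq x hx)]
      unfold cqN
      rw [Finset.mul_sum]
      exact Finset.sum_congr rfl (fun y _ => by ring)
    rw [Finset.sum_congr rfl h1, Finset.sum_comm, Finset.mul_sum]
    refine Finset.sum_congr rfl (fun y hy => ?_)
    rw [← Finset.sum_mul]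
    congr 1
    have h2 : ∀ x ∈ A, (cart a x y : ℚ) * S x =
        (if x = y then 2 * (S x : ℚ) else 0) - (a y x : ℚ) * S x := by
      intro x _
      unfold cart
      rw [hs y x]
      by_cases hxy : x = y
      · rw [if_pos hxy, if_pos hxy]
        push_cast
        ring
      · rw [if_neg hxy, if_neg hxy]
        push_cast
        ring
    rw [Finset.sum_congr rfl h2, Finset.sum_sub_distrib, Finset.sum_ite_eq' A y, if_pos hy]
    have h3 : (((∑ x ∈ A, a y x * S x + 2 : ℕ)) : ℚ) = ((2 * S y : ℕ) : ℚ) := by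
      rw [hlast y hy]
    push_cast at h3
    linarith
  · unfold epsG epsF
    rw [if_pos hq, ← prod_neg_one]
    refine Finset.prod_congr rfl (fun x hx => ?_)
    rw [D.sgn x hx, hSx x hx]
    push_cast
    rfl

/-- Existence of the crossing data. -/
theorem crossData_exists (a : I → I → ℕ) (hs : ∀ i j, a i j = a j i) :
    ∃ cd : CrossData a,
      (∀ A, FinT a A → ConnS a A → ∃ e, Pool.H88.KA.KE (aN a A) (cd.mm A) 1 e) ∧
      (∀ A, FinT a A → ConnS a A → ∃ o, Knit (aN a A) (cd.mm A) o) ∧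
      (∀ A, FinT a A → ConnS a A → ∀ q : I → ℚ, (∀ x ∈ A, IsZ (cqN a A q x)) →
        ∃ n : ℤ, 2 * ∑ x ∈ A, q x = n ∧ cd.eps A q = (-1) ^ n) ∧
      (∀ A, ∀ q : I → ℚ, (∀ x ∈ A, IsZ (q x)) → cd.eps A q = 1) := by
  classical
  have key : ∀ A : Finset I, ∃ (m : ℕ) (ε : I → ℤ),
      (FinT a A → ConnS a A → ∃ e, OneD a A m e ε) ∧
      (¬(FinT a A ∧ ConnS a A) → m = 2 ∧ ε = fun _ => 1) := by
    intro A
    by_cases h : FinT a A ∧ ConnS a A
    · obtain ⟨m, e, ε, D⟩ := oneD_exists hs h.1 h.2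
      exact ⟨m, ε, fun _ _ => ⟨e, D⟩, fun h' => absurd h h'⟩
    · exact ⟨2, fun _ => 1, fun h1 h2 => absurd ⟨h1, h2⟩ h, fun _ => ⟨rfl, rfl⟩⟩
  choose mm ε h1 h2 using key
  have hpm : ∀ A x, ε A x = 1 ∨ ε A x = -1 := by
    intro A x
    by_cases h : FinT a A ∧ ConnS a A
    · obtain ⟨e, D⟩ := h1 A h.1 h.2
      exact D.pm x
    · left
      rw [(h2 A h).2]
  have hprod : ∀ A, ∀ x ∈ A, ∏ y ∈ A, ε A y ^ a x y = 1 := by
    intro A x hx
    by_cases h : FinT a A ∧ ConnS a A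
    · obtain ⟨e, D⟩ := h1 A h.1 h.2
      exact D.prod x hx
    · rw [(h2 A h).2]
      exact Finset.prod_eq_one (fun y _ => one_pow _)
  have hcongr : ∀ A (q q' : I → ℚ), (∀ x ∈ A, IsZ (q x - q' x)) →
      epsG a A (ε A) q = epsG a A (ε A) q' := fun A q q' hq =>
    epsG_congr hs (hpm A) (hprod A) q q' hq
  refine ⟨⟨mm, fun A q => epsG a A (ε A) q, ?_, fun A q => epsG_pm (hpm A) q, hcongr, ?_, ?_,
    ?_, ?_⟩, ?_, ?_, ?_, ?_⟩
  · intro A
    by_cases h : FinT a A ∧ ConnS a A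
    · obtain ⟨e, D⟩ := h1 A h.1 h.2
      exact D.ke.two_le
    · rw [(h2 A h).1]
  · intro A q hF hC hq
    obtain ⟨e, D⟩ := h1 A hF hC
    exact D.integral q hq
  · intro A hF hC s q hq T hT y hy l hl1 hl2 hE
    obtain ⟨e, D⟩ := h1 A hF hC
    exact D.rv s q hq T hT y hy l hl1 hl2 hE
  · intro A hF hC k q hq T hT hk
    obtain ⟨e, D⟩ := h1 A hF hC
    have hq' : ∀ x, ∃ n : ℕ, x ∈ A → 1 ≤ n ∧ cqN a A q x = n := by
      intro x
      by_cases hx : x ∈ A
      · obtain ⟨n, hn⟩ := hq x hx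
        exact ⟨n, fun _ => hn⟩
      · exact ⟨0, fun h => absurd h hx⟩
    choose n hn using hq'
    rw [D.cr k q n (fun x hx => (hn x hx).1) (fun x hx => (hn x hx).2) T hT hk,
      epsG_nat q n (fun x hx => (hn x hx).2)]
  · intro A hF hC k q hq T hT hk1 hk2
    obtain ⟨e, D⟩ := h1 A hF hC
    exact D.cr0 k q hq T hT hk1 hk2
  · intro A hF hC
    obtain ⟨e, D⟩ := h1 A hF hC
    exact ⟨e, D.ke⟩
  · intro A hF hC
    obtain ⟨e, D⟩ := h1 A hF hC
    exact Pool.H88.KA.knit_of_KE (pd_of hF) D.ke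
  · intro A hF hC q hq
    obtain ⟨e, D⟩ := h1 A hF hC
    exact D.eps_formula hs q hq
  · intro A q hq
    change epsG a A (ε A) q = 1
    rw [hcongr A q (fun _ => 0) (fun x hx => by rw [sub_zero]; exact hq x hx),
      epsG_nat (fun _ => 0) (fun _ => 0) (fun x _ => by unfold cqN; simp)]
    simp

end Pool.Agent.H10.KAC
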