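import Pool.Agent.H10.KAC.Univ

/-!
Run lemma, module 3: evaluation of the universal Q-system on a monomial curve.

`Knit a h o`: the orders `o k x` of `Q_{x,k}` along the curve `q_x = τ^(o 1 x)`.
-/

namespace Pool.Agent.H10.KAC

open scoped BigOperators

/-- knitting data: `o (k+2) + o k = A o (k+1)`, `C (o k) > 0` for `1 ≤ k < h`, `o h = 0`. -/
structure Knit {N : Type} [Fintype N] (a : N → N → ℕ) (h : ℕ) (o : ℕ → N → ℕ) : Prop where
  two_le : 2 ≤ h
  zero : ∀ x, o 0 x = 0
  one : ∀ x, 0 < o 1 x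
  knit : ∀ k x, k + 2 ≤ h → o (k + 2) x + o k x = ∑ y, a x y * o (k + 1) y
  pos : ∀ k x, 1 ≤ k → k < h → ∑ y, a x y * o k y < 2 * o k x
  last : ∀ x, o h x = 0

/-- the signs of the leading coefficients. -/
def sg {N : Type} [Fintype N] (a : N → N → ℕ) : ℕ → N → ℤ
  | 0, _ => 1
  | 1, _ => 1
  | k + 2, x => -(sg a k x * ∏ y, sg a (k + 1) y ^ a x y)

theorem sg_pm {N : Type} [Fintype N] (a : N → N → ℕ) (k : ℕ) (x : N) :
    sg a k x = 1 ∨ sg a k x = -1 := by
  have h0 : ∀ u : ℤ, (u = 1 ∨ u = -1) ↔ u * u = 1 := fun u =>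
    ⟨fun h => by rcases h with rfl | rfl <;> norm_num, fun h => mul_self_eq_one_iff.mp h⟩
  induction k using Nat.strong_induction_on generalizing x with
  | _ k ih =>
    match k, ih with
    | 0, _ => exact Or.inl rfl
    | 1, _ => exact Or.inl rfl
    | k + 2, ih =>
      rw [h0]
      have h1 := (h0 _).mp (ih k (by omega) x)
      have h2 : (∏ y, sg a (k + 1) y ^ a x y) * (∏ y, sg a (k + 1) y ^ a x y) = 1 := by
        rw [← Finset.prod_mul_distrib]
        refine Finset.prod_eq_one (fun y _ => ?_)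
        rw [← mul_pow, (h0 _).mp (ih (k + 1) (by omega) y), one_pow]
      change -(sg a k x * ∏ y, sg a (k + 1) y ^ a x y) *
        -(sg a k x * ∏ y, sg a (k + 1) y ^ a x y) = 1
      linear_combination (∏ y, sg a (k + 1) y ^ a x y) * (∏ y, sg a (k + 1) y ^ a x y) * h1 + h2

section lead

variable {B : Type} [CommRing B]

open Polynomial

/-- `F = τ^m (b + O(τ))`. -/
def Lead (F : Polynomial B) (m : ℕ) (b : B) : Prop := ∃ G, F = X ^ m * (C b + X * G)

theorem Lead.mul {F G : Polynomial B} {m n : ℕ} {b c : B} (hF : Lead F m b) (hG : Lead G n c) :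
    Lead (F * G) (m + n) (b * c) := by
  obtain ⟨F', rfl⟩ := hF
  obtain ⟨G', rfl⟩ := hG
  refine ⟨F' * C c + C b * G' + X * F' * G', ?_⟩
  rw [map_mul, pow_add]
  ring

theorem Lead.one : Lead (1 : Polynomial B) 0 1 := ⟨0, by simp⟩

theorem Lead.pow {F : Polynomial B} {m : ℕ} {b : B} (hF : Lead F m b) (n : ℕ) :
    Lead (F ^ n) (n * m) (b ^ n) := by
  induction n with
  | zero => simpa using Lead.one
  | succ n ih =>
    have h := ih.mul hF
    rw [pow_succ, pow_succ]
    convert h using 1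
    ring

theorem Lead.prod {ι : Type} {s : Finset ι} {F : ι → Polynomial B} {m : ι → ℕ} {b : ι → B}
    (h : ∀ i ∈ s, Lead (F i) (m i) (b i)) : Lead (∏ i ∈ s, F i) (∑ i ∈ s, m i) (∏ i ∈ s, b i) := by
  classical
  induction s using Finset.induction_on with
  | empty => simpa using Lead.one
  | insert i s hi ih =>
    rw [Finset.prod_insert hi, Finset.sum_insert hi, Finset.prod_insert hi]
    exact (h i (Finset.mem_insert_self i s)).mul (ih (fun j hj => h j (Finset.mem_insert_of_mem hj)))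

theorem Lead.sub {F G : Polynomial B} {m n : ℕ} {b c : B} (hF : Lead F m b) (hG : Lead G n c)
    (hmn : m < n) : Lead (G - F) m (-b) := by
  obtain ⟨F', rfl⟩ := hF
  obtain ⟨G', rfl⟩ := hG
  obtain ⟨d, rfl⟩ : ∃ d, n = m + 1 + d := ⟨n - m - 1, by omega⟩
  refine ⟨X ^ d * (C c + X * G') - F', ?_⟩
  rw [map_neg, pow_add, pow_add]
  ring

theorem Lead.dvd_X {F : Polynomial B} {m : ℕ} {b : B} (hF : Lead F m b) (hm : 0 < m) :
    ∃ G, F = X * G := by
  obtain ⟨F', rfl⟩ := hF
  obtain ⟨d, rfl⟩ : ∃ d, m = d + 1 := ⟨m - 1, by omega⟩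
  exact ⟨X ^ d * (C b + X * F'), by rw [pow_succ]; ring⟩

theorem Lead.eval_zero {F : Polynomial B} {m : ℕ} {b : B} (hF : Lead F m b) (hm : 0 < m) :
    F.eval 0 = 0 := by
  obtain ⟨G, rfl⟩ := hF.dvd_X hm
  simp

theorem Lead.eval_zero' {F : Polynomial B} {b : B} (hF : Lead F 0 b) : F.eval 0 = b := by
  obtain ⟨G, rfl⟩ := hF
  simp

theorem Lead.cancel [IsDomain B] {F G H : Polynomial B} {m p : ℕ} {b d : B} (hF : Lead F m b)
    (hb : b ≠ 0) (hH : Lead H p d) (hmp : m ≤ p) (h : F * G = H) :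
    ∃ c, Lead G (p - m) c ∧ b * c = d := by
  obtain ⟨F', rfl⟩ := hF
  obtain ⟨H', rfl⟩ := hH
  obtain ⟨n, rfl⟩ : ∃ n, p = m + n := ⟨p - m, by omega⟩
  have hX : (X : Polynomial B) ^ m ≠ 0 := pow_ne_zero m X_ne_zero
  have h1 : (C b + X * F') * G = X ^ n * (C d + X * H') := by
    apply mul_left_cancel₀ hX
    rw [← mul_assoc, h, pow_add, mul_assoc]
  have h2 : (X : Polynomial B) ^ n ∣ (C b + X * F') * G := ⟨_, h1⟩
  have h3 : ¬ (X : Polynomial B) ∣ (C b + X * F') := by
    intro hd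
    rw [X_dvd_iff] at hd
    apply hb
    simpa using hd
  have h4 : (X : Polynomial B) ^ n ∣ G := prime_X.pow_dvd_of_dvd_mul_left n h3 h2
  obtain ⟨G', rfl⟩ := h4
  have h5 : (C b + X * F') * G' = C d + X * H' := by
    apply mul_left_cancel₀ (pow_ne_zero n (X_ne_zero (R := B)))
    rw [← h1]
    ring
  refine ⟨G'.coeff 0, ⟨G'.divX, ?_⟩, ?_⟩
  · rw [Nat.add_sub_cancel_left, add_comm, X_mul_divX_add]
  · have h6 := congrArg (fun P => Polynomial.coeff P 0) h5
    simpa [mul_coeff_zero] using h6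

end lead

section mono

open MvPolynomial

variable {N : Type} [Fintype N] [DecidableEq N]

/-- the exponent vector of `∏ X (y, 2) ^ r y`. -/
noncomputable def ex2 (r : N → ℕ) : (N × ℕ) →₀ ℕ := ∑ y, Finsupp.single (y, 2) (r y)

theorem ex2_apply (r : N → ℕ) (y : N) : ex2 r (y, 2) = r y := by
  unfold ex2
  rw [Finsupp.finsetSum_apply, Finset.sum_eq_single y]
  · simp
  · intro z _ hz
    rw [Finsupp.single_apply, if_neg]
    intro h
    exact hz (Prod.mk.injEq _ _ _ _ ▸ h : z = y ∧ 2 = 2).1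
  · intro h
    exact absurd (Finset.mem_univ y) h

theorem ex2_inj {r r' : N → ℕ} (h : ex2 r = ex2 r') : r = r' := by
  funext y
  rw [← ex2_apply r y, h, ex2_apply]

theorem ex2_monomial (ε : ℤ) (r : N → ℕ) :
    (C ε * ∏ y, X (y, 2) ^ r y : VV N) = monomial (ex2 r) ε := by
  unfold ex2
  have h : (∏ y, X (y, 2) ^ r y : VV N) = monomial (∑ y, Finsupp.single (y, 2) (r y)) 1 := by
    rw [monomial_sum_index, C_1, one_mul]
    simp [X_pow_eq_monomial]
  rw [h, C_mul_monomial, mul_one]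

/-- signed monomials in the variables `(y, 2)`. -/
def IsMon (b : VV N) : Prop :=
  ∃ (ε : ℤ) (r : N → ℕ), (ε = 1 ∨ ε = -1) ∧ b = C ε * ∏ y, X (y, 2) ^ r y

theorem IsMon.one : IsMon (1 : VV N) := ⟨1, fun _ => 0, Or.inl rfl, by simp⟩

theorem IsMon.X (x : N) : IsMon (X (x, 2) : VV N) := by
  refine ⟨1, fun y => if y = x then 1 else 0, Or.inl rfl, ?_⟩
  rw [C_1, one_mul, Finset.prod_eq_single x]
  · simp
  · intro y _ hy
    simp [hy]
  · intro h
    exact absurd (Finset.mem_univ x) h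

theorem IsMon.mul {b c : VV N} (hb : IsMon b) (hc : IsMon c) : IsMon (b * c) := by
  obtain ⟨ε, r, h1, rfl⟩ := hb
  obtain ⟨ε', r', h2, rfl⟩ := hc
  refine ⟨ε * ε', fun y => r y + r' y, ?_, ?_⟩
  · rcases h1 with rfl | rfl <;> rcases h2 with rfl | rfl <;> simp
  · have : (∏ y, MvPolynomial.X (y, 2) ^ (r y + r' y) : VV N) =
      (∏ y, MvPolynomial.X (y, 2) ^ r y) * ∏ y, MvPolynomial.X (y, 2) ^ r' y := by
      rw [← Finset.prod_mul_distrib]
      exact Finset.prod_congr rfl (fun y _ => pow_add _ _ _)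
    rw [this, C_mul]
    ring

theorem IsMon.neg {b : VV N} (hb : IsMon b) : IsMon (-b) := by
  obtain ⟨ε, r, h1, rfl⟩ := hb
  refine ⟨-ε, r, ?_, by rw [C_neg, neg_mul]⟩
  rcases h1 with rfl | rfl <;> simp

theorem IsMon.pow {b : VV N} (hb : IsMon b) (n : ℕ) : IsMon (b ^ n) := by
  induction n with
  | zero => simpa using IsMon.one
  | succ n ih =>
    rw [pow_succ]
    exact ih.mul hb

theorem IsMon.prod {ι : Type} {s : Finset ι} {b : ι → VV N} (h : ∀ i ∈ s, IsMon (b i)) :
    IsMon (∏ i ∈ s, b i) := by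
  classical
  induction s using Finset.induction_on with
  | empty => simpa using IsMon.one
  | insert i s hi ih =>
    rw [Finset.prod_insert hi]
    exact (h i (Finset.mem_insert_self i s)).mul (ih (fun j hj => h j (Finset.mem_insert_of_mem hj)))

theorem IsMon.ne_zero {b : VV N} (hb : IsMon b) : b ≠ 0 := by
  obtain ⟨ε, r, h1, rfl⟩ := hb
  rw [ex2_monomial]
  intro h
  rw [monomial_eq_zero] at h
  rcases h1 with rfl | rfl <;> simp at h

theorem IsMon.of_mul {b c d : VV N} (hb : IsMon b) (hd : IsMon d) (h : b * c = d) : IsMon c := by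
  have hb0 := hb.ne_zero
  obtain ⟨ε, r, h1, rfl⟩ := hb
  obtain ⟨ε', r', h2, rfl⟩ := hd
  have hdv : (monomial (ex2 r) ε : VV N) ∣ monomial (ex2 r') ε' :=
    ⟨c, by rw [← ex2_monomial, ← ex2_monomial, h]⟩
  rw [monomial_dvd_monomial] at hdv
  have hle : ∀ y, r y ≤ r' y := by
    intro y
    rcases hdv.1 with h3 | h3
    · rcases h2 with rfl | rfl <;> simp at h3
    · have := h3 (y, 2)
      rwa [ex2_apply, ex2_apply] at this
  refine ⟨ε * ε', fun y => r' y - r y, ?_, ?_⟩
  · rcases h1 with rfl | rfl <;> rcases h2 with rfl | rfl <;> simp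
  · apply mul_left_cancel₀ hb0
    rw [h]
    have : (∏ y, MvPolynomial.X (y, 2) ^ r' y : VV N) =
      (∏ y, MvPolynomial.X (y, 2) ^ r y) * ∏ y, MvPolynomial.X (y, 2) ^ (r' y - r y) := by
      rw [← Finset.prod_mul_distrib]
      refine Finset.prod_congr rfl (fun y _ => ?_)
      rw [← pow_add]
      congr 1
      have := hle y
      omega
    rw [this]
    have h4 : ε * ε = 1 := by rcases h1 with rfl | rfl <;> norm_num
    calc (C ε' * ((∏ y, MvPolynomial.X (y, 2) ^ r y) *
          ∏ y, MvPolynomial.X (y, 2) ^ (r' y - r y)) : VV N)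
        = C (ε * ε * ε') * ((∏ y, MvPolynomial.X (y, 2) ^ r y) *
          ∏ y, MvPolynomial.X (y, 2) ^ (r' y - r y)) := by rw [h4, one_mul]
      _ = _ := by rw [C_mul, C_mul, C_mul]; ring

end mono

section curve

open MvPolynomial

variable {N : Type} [Fintype N] [DecidableEq N]

/-- the curve `q_x = τ^(d x)`. -/
noncomputable def psi (d : N → ℕ) : VV N →+* Polynomial (VV N) :=
  eval₂Hom (algebraMap ℤ (Polynomial (VV N)))
    (fun p => if p.2 = 0 then Polynomial.X ^ d p.1 else Polynomial.C (X p))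

/-- `q ↦ 0`. -/
noncomputable def ev0 (N : Type) : VV N →+* VV N :=
  eval₂Hom (algebraMap ℤ (VV N)) (fun p => if p.2 = 0 then 0 else X p)

/-- the ideal generated by the `q_x`. -/
noncomputable def Iq (N : Type) : Ideal (VV N) := Ideal.span (Set.range (fun y : N => (X (y, 0) : VV N)))

theorem psi_q (d : N → ℕ) (x : N) : psi d (X (x, 0)) = Polynomial.X ^ d x := by
  simp [psi]

theorem psi_ne (d : N → ℕ) (x : N) (j : ℕ) : psi d (X (x, j + 1)) = Polynomial.C (X (x, j + 1)) := by
  simp [psi]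

theorem ev0_q (x : N) : ev0 N (X (x, 0)) = 0 := by
  simp [ev0]

theorem ev0_ne (x : N) (j : ℕ) : ev0 N (X (x, j + 1)) = X (x, j + 1) := by
  simp [ev0]

theorem ev0_C (n : ℤ) : ev0 N (C n) = C n := by
  simp [ev0]

theorem eval_psi {d : N → ℕ} (hd : ∀ x, 0 < d x) (v : VV N) :
    (psi d v).eval 0 = ev0 N v := by
  have h : (Polynomial.evalRingHom (0 : VV N)).comp (psi d) = ev0 N := by
    apply MvPolynomial.ringHom_ext
    · intro r
      simp [psi, ev0]
    · rintro ⟨x, j⟩
      cases j with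
      | zero =>
        rw [RingHom.comp_apply, psi_q, ev0_q]
        simp [(hd x).ne']
      | succ j =>
        rw [RingHom.comp_apply, psi_ne, ev0_ne]
        simp
  exact RingHom.congr_fun h v

theorem sub_ev0_mem (v : VV N) : v - ev0 N v ∈ Iq N := by
  have h : (Ideal.Quotient.mk (Iq N)).comp (ev0 N) = Ideal.Quotient.mk (Iq N) := by
    apply MvPolynomial.ringHom_ext
    · intro r
      rw [RingHom.comp_apply, ev0_C]
    · rintro ⟨x, j⟩
      cases j with
      | zero =>
        rw [RingHom.comp_apply, ev0_q, map_zero]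
        symm
        rw [Ideal.Quotient.eq_zero_iff_mem]
        exact Ideal.subset_span ⟨x, rfl⟩
      | succ j =>
        rw [RingHom.comp_apply, ev0_ne]
  rw [← Ideal.Quotient.eq_zero_iff_mem, map_sub, sub_eq_zero]
  exact (RingHom.congr_fun h v).symm

theorem mem_Iq_of_ev0 {v : VV N} (h : ev0 N v = 0) : v ∈ Iq N := by
  have := sub_ev0_mem v
  rwa [h, sub_zero] at this

variable (a : N → N → ℕ) (hs : ∀ x y, a x y = a y x) (ha : ∀ x, a x x = 0)

/-- the leading terms along the curve. -/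
theorem curve_main {h : ℕ} {o : ℕ → N → ℕ} (hk : Knit a h o) (k : ℕ) (hkh : k ≤ h) :
    (∀ x, ∃ b, IsMon b ∧ eval (fun _ => (1 : ℤ)) b = sg a k x ∧
      Lead (psi (o 1) (Qu a hs ha k x)) (o k x) b) ∧
    (∀ x, 1 ≤ k → Lead (psi (o 1) (ru a hs ha k x)) 0 (X (x, 2))) ∧
    (∀ x, Lead (psi (o 1) (cu a hs ha k x)) 0 (X (x, 2) ^ k)) := by
  induction k using Nat.strong_induction_on with
  | _ k ih =>
    match k, ih with
    | 0, _ =>
      refine ⟨fun x => ⟨1, IsMon.one, map_one _, ?_⟩, fun x h0 => absurd h0 (by norm_num),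
        fun x => ?_⟩
      · rw [Qu_zero, map_one, hk.zero]
        exact Lead.one
      · rw [cu_zero, map_sub, map_mul, map_one, psi_q, psi_ne, pow_zero]
        obtain ⟨d, hd⟩ : ∃ d, o 1 x = d + 1 := ⟨o 1 x - 1, by have := hk.one x; omega⟩
        refine ⟨-(Polynomial.X ^ d * Polynomial.C (X (x, 0 + 1))), ?_⟩
        rw [hd, pow_zero, map_one, pow_succ]
        ring
    | 1, ih =>
      have h0 := ih 0 (by norm_num) (by omega)
      have hr : ∀ x, Lead (psi (o 1) (ru a hs ha 1 x)) 0 (X (x, 2)) := by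
        intro x
        rw [ru_one, psi_ne]
        exact ⟨0, by simp⟩
      refine ⟨fun x => ⟨1, IsMon.one, map_one _, ?_⟩, fun x _ => hr x, fun x => ?_⟩
      · rw [Qu_one, psi_q]
        exact ⟨0, by simp⟩
      · rw [cu_succ, map_mul]
        have := (h0.2.2 x).mul (hr x)
        rwa [← pow_succ] at this
    | k + 2, ih =>
      have h0 := ih k (by omega) (by omega)
      have h1 := ih (k + 1) (by omega) (by omega)
      have hr : ∀ x, Lead (psi (o 1) (ru a hs ha (k + 2) x)) 0 (X (x, 2)) := by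
        intro x
        rw [ru_succ, map_add, map_mul, psi_ne]
        obtain ⟨b, hb, _, hL⟩ := h1.1 x
        have hpos : 0 < o (k + 1) x := by
          have := hk.pos (k + 1) x (by omega) (by omega)
          omega
        obtain ⟨G, hG⟩ := hL.dvd_X hpos
        obtain ⟨R', hR'⟩ := h1.2.1 x (by omega)
        rw [hG, hR']
        refine ⟨R' + Polynomial.C (X (x, k + 1 + 1 + 1)) * G, ?_⟩
        rw [pow_zero]
        ring
      refine ⟨fun x => ?_, fun x _ => hr x, fun x => ?_⟩
      · obtain ⟨b0, hb0, hv0, hL0⟩ := h0.1 x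
        choose b1 hb1 hv1 hL1 using h1.1
        have e1 := congrArg (psi (o 1)) (Qu_rec a hs ha k x)
        rw [map_mul, map_sub, map_mul, map_pow, map_prod] at e1
        simp only [map_pow] at e1
        have e2 := (hL1 x).pow 2
        have e3 := (h1.2.2 x).mul (Lead.prod (s := Finset.univ)
          (fun y _ => (hL1 y).pow (a x y)))
        rw [zero_add] at e3
        have e4 := e3.sub e2 (hk.pos (k + 1) x (by omega) (by omega))
        have e5 : IsMon (-(X (x, 2) ^ (k + 1) * ∏ y, b1 y ^ a x y) : VV N) :=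
          (((IsMon.X x).pow _).mul (IsMon.prod (fun y _ => (hb1 y).pow _))).neg
        have hrec := hk.knit k x hkh
        rw [mul_comm] at e1
        obtain ⟨c, hc1, hc2⟩ := hL0.cancel hb0.ne_zero e4 (by omega) e1
        refine ⟨c, IsMon.of_mul hb0 e5 hc2, ?_, ?_⟩
        · have g1 := congrArg (eval (fun _ => (1 : ℤ))) hc2
          rw [map_mul, hv0, map_neg, map_mul, map_pow, eval_X, one_pow, one_mul, map_prod] at g1
          simp only [map_pow, hv1] at g1
          have g2 : sg a k x * sg a k x = 1 := by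
            rcases sg_pm a k x with h3 | h3 <;> rw [h3] <;> norm_num
          change _ = -(sg a k x * ∏ y, sg a (k + 1) y ^ a x y)
          linear_combination (sg a k x) * g1 - (eval (fun _ => (1 : ℤ)) c) * g2
        have e6 : ∑ y, a x y * o (k + 1) y - o k x = o (k + 2) x := by omega
        rwa [e6] at hc1
      · rw [cu_succ, map_mul]
        have := (h1.2.2 x).mul (hr x)
        rwa [← pow_succ] at this

/-- The run lemma in the universal ring. -/
theorem univ_run {h : ℕ} {o : ℕ → N → ℕ} (hk : Knit a h o) :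
    ∃ (ε : N → ℤ) (R : N → N → ℕ), (∀ x, ε x = 1 ∨ ε x = -1) ∧
      (∀ x, ∏ y, ε y ^ a x y = 1) ∧
      (∀ x z, 2 * R x z = (if z = x then h else 0) + ∑ y, a x y * R y z) ∧
      (∀ k x, 1 ≤ k → k < h → Qu a hs ha k x ∈ Iq N) ∧
      (∀ x, Qu a hs ha h x - C (ε x) * ∏ z, X (z, 2) ^ R x z ∈ Iq N) ∧
      (∀ x, ε x = sg a h x) := by
  have hm : ∀ k x, 1 ≤ k → k < h → ev0 N (Qu a hs ha k x) = 0 := by
    intro k x h1 h2
    obtain ⟨b, hb, _, hL⟩ := (curve_main a hs ha hk k h2.le).1 x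
    have hpos : 0 < o k x := by
      have := hk.pos k x h1 h2
      omega
    rw [← eval_psi hk.one, hL.eval_zero hpos]
  have hh : ∀ x, ∃ (ε : ℤ) (r : N → ℕ), (ε = 1 ∨ ε = -1) ∧ ε = sg a h x ∧
      ev0 N (Qu a hs ha h x) = C ε * ∏ y, X (y, 2) ^ r y := by
    intro x
    obtain ⟨b, hb, hv, hL⟩ := (curve_main a hs ha hk h le_rfl).1 x
    rw [hk.last] at hL
    obtain ⟨ε, r, h1, h2⟩ := hb
    refine ⟨ε, r, h1, ?_, by rw [← eval_psi hk.one, hL.eval_zero', h2]⟩
    rw [← hv, h2, map_mul, eval_C, map_prod]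
    simp only [map_pow, eval_X, one_pow, Finset.prod_const_one, mul_one]
  choose ε R hε hsg hR using hh
  have hrel : ∀ x, (C (ε x) * ∏ y, X (y, 2) ^ R x y : VV N) ^ 2 =
      X (x, 2) ^ h * ∏ y, (C (ε y) * ∏ z, X (z, 2) ^ R y z) ^ a x y := by
    intro x
    obtain ⟨m, rfl⟩ : ∃ m, h = m + 1 := ⟨h - 1, by have := hk.two_le; omega⟩
    have e1 := congrArg (ev0 N) (Qu_rec a hs ha m x)
    rw [map_mul, map_sub, map_mul, map_pow, map_prod,
      hm m x (by have := hk.two_le; omega) (by omega), mul_zero] at e1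
    simp only [map_pow, hR] at e1
    have e2 : ev0 N (cu a hs ha (m + 1) x) = X (x, 2) ^ (m + 1) := by
      have := (curve_main a hs ha hk (m + 1) le_rfl).2.2 x
      rw [← eval_psi hk.one, this.eval_zero']
    rw [e2] at e1
    exact (sub_eq_zero.mp e1.symm)
  have hcmp : ∀ x, (∏ y, ε y ^ a x y = 1) ∧
      (∀ z, 2 * R x z = (if z = x then h else 0) + ∑ y, a x y * R y z) := by
    intro x
    have e1 := hrel x
    have e2 : (C (ε x) * ∏ y, X (y, 2) ^ R x y : VV N) ^ 2 =
        C (ε x ^ 2) * ∏ y, X (y, 2) ^ (2 * R x y) := by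
      rw [mul_pow, C_pow, ← Finset.prod_pow]
      congr 1
      refine Finset.prod_congr rfl (fun y _ => ?_)
      rw [← pow_mul, mul_comm]
    have e3 : (X (x, 2) ^ h * ∏ y, (C (ε y) * ∏ z, X (z, 2) ^ R y z) ^ a x y : VV N) =
        C (∏ y, ε y ^ a x y) *
          ∏ z, X (z, 2) ^ ((if z = x then h else 0) + ∑ y, a x y * R y z) := by
      have f1 : (∏ y, (C (ε y) * ∏ z, X (z, 2) ^ R y z) ^ a x y : VV N) =
          C (∏ y, ε y ^ a x y) * ∏ z, X (z, 2) ^ (∑ y, a x y * R y z) := by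
        simp only [mul_pow]
        rw [Finset.prod_mul_distrib, map_prod]
        simp only [C_pow]
        congr 1
        simp only [← Finset.prod_pow]
        rw [Finset.prod_comm]
        refine Finset.prod_congr rfl (fun z _ => ?_)
        rw [← Finset.prod_pow_eq_pow_sum]
        refine Finset.prod_congr rfl (fun y _ => ?_)
        rw [← pow_mul, mul_comm]
      have f2 : (X (x, 2) ^ h : VV N) = ∏ z, X (z, 2) ^ (if z = x then h else 0) := by
        rw [Finset.prod_eq_single x]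
        · simp
        · intro z _ hz
          simp [hz]
        · intro hx
          exact absurd (Finset.mem_univ x) hx
      rw [f1, f2]
      have f3 : (∏ z, X (z, 2) ^ ((if z = x then h else 0) + ∑ y, a x y * R y z) : VV N) =
          (∏ z, X (z, 2) ^ (if z = x then h else 0)) * ∏ z, X (z, 2) ^ (∑ y, a x y * R y z) := by
        rw [← Finset.prod_mul_distrib]
        exact Finset.prod_congr rfl (fun z _ => pow_add _ _ _)
      rw [f3]
      ring
    rw [e2, e3, ex2_monomial, ex2_monomial, monomial_eq_monomial_iff] at e1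
    have hε2 : ε x ^ 2 = 1 := by rcases hε x with h0 | h0 <;> rw [h0] <;> norm_num
    rcases e1 with ⟨e4, e5⟩ | ⟨e4, e5⟩
    · exact ⟨by rw [← e5, hε2], fun z => congrFun (ex2_inj e4) z⟩
    · rw [hε2] at e4
      exact absurd e4 one_ne_zero
  refine ⟨ε, R, hε, fun x => (hcmp x).1, fun x => (hcmp x).2,
    fun k x h1 h2 => mem_Iq_of_ev0 (hm k x h1 h2), fun x => mem_Iq_of_ev0 ?_, hsg⟩
  rw [map_sub, hR, map_mul, ev0_C, map_prod]
  simp only [map_pow, ev0_ne]
  exact sub_self _

end curve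

end Pool.Agent.H10.KAC
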