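import Pool.Agent.H10.KAC.Term

/-!
Run lemma, module 14: expansion of block terms in the ring `OO N`.
-/

set_option autoImplicit false
set_option maxHeartbeats 400000

namespace Pool.Agent.H10.KAC

open scoped BigOperators
open Pool.Agent.H46.KA Pool.Agent.H27.KAC

variable {I : Type} [Fintype I] [DecidableEq I]

open Classical in
/-- the regular factor. -/
noncomputable def Fo (a : I → I → ℕ) (N : Finset I) (f : I → I × ℕ) (E : (I × ℕ) →₀ ℚ) : OO N :=
  if h : mon a (Ered N f E) ∈ OO N then ⟨mon a (Ered N f E), h⟩ else 0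

section

variable {a : I → I → ℕ} {N : Finset I} (H : Hyp a N)

theorem Fo_val (f : I → I × ℕ) (E : (I × ℕ) →₀ ℚ) (h : mon a (Ered N f E) ∈ OO N) :
    (Fo a N f E : LL I) = mon a (Ered N f E) := by
  unfold Fo
  rw [dif_pos h]

include H in
theorem Ered_mem (T : Trm I) (hT : RReg N T) (f : I → I × ℕ) (hf : GoodF N T f) (p : ℕ)
    (hp : Fintype.card I < p) : mon a (Ered N f ((p : ℚ) • T.E)) ∈ OO N := by
  refine mon_mem H _ (fun x hx l hl => ?_)
  obtain ⟨n, h1, _⟩ := Ered_nat T hT f hf p hp x hx l hl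
  exact ⟨n, h1⟩

theorem Fo_extract (T : Trm I) (hT : RReg N T) (f : I → I × ℕ) (hf : GoodF N T f) (p : ℕ)
    (hp : Fintype.card I < p) (y : I) (hy : y ∈ N) (l : ℕ) (hl : 1 ≤ l) (hE : 1 ≤ T.E (y, l)) :
    ∃ F' : OO N, Fo a N f ((p : ℚ) • T.E) = F' * Qo H y l := by
  have h1 : mon a (Ered N f ((p : ℚ) • T.E) - Finsupp.single (y, l) 1) ∈ OO N := by
    refine mon_mem H _ (fun x hx l' hl' => ?_)
    obtain ⟨n, h2, h3⟩ := Ered_nat T hT f hf p hp x hx l' hl'
    rw [Finsupp.sub_apply, h2, Finsupp.single_apply]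
    by_cases h4 : (y, l) = (x, l')
    · rw [if_pos h4]
      rw [h4] at hE
      refine ⟨n - 1, ?_⟩
      rw [Nat.cast_sub (h3 hE)]
      norm_num
    · rw [if_neg h4, sub_zero]
      exact ⟨n, rfl⟩
  refine ⟨⟨_, h1⟩, ?_⟩
  apply Subtype.ext
  rw [Fo_val f _ (Ered_mem H T hT f hf p hp), Subring.coe_mul]
  change _ = mon a (Ered N f ((p : ℚ) • T.E) - Finsupp.single (y, l) 1) * Qp a y l 1
  have h5 : mon a (Finsupp.single (y, l) 1) = (Qp a y l 1 : LL I) := mon_single a y l 1
  rw [← h5, ← mon_add, sub_add_cancel]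

open Classical in
/-- the expansion of a block term. -/
theorem TV_exp (k σ : ℕ) (q : I → ℚ) (T : Trm I) (hT : RReg N T) (p : ℕ)
    (hp : Fintype.card I < p) (n : I → ℕ) (hn : ∀ x ∈ N, cqN a N q x = n x) (P : I → ℚ)
    (hP : ∀ i, i ∉ N → P i = ∑ x ∈ N, (a x i : ℚ) * q x) :
    TV a ((blkT a N k σ q T).pow p) = ∑ f ∈ (fset N T).filter (fun f => GoodF N T f), fcoef N T f *
      CTd (fun i => (p : ℚ) * (T.γ i + k * resQ N q i))
        ((insN H (fun x => p * n x) k * outN H (fun i => p * P i) k *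
          Fo a N f ((p : ℚ) • T.E) : OO N) : LL I) (colN a N σ (wf a N f)) := by
  rw [TV_blk, Finset.sum_filter]
  refine Finset.sum_congr rfl (fun f hf => ?_)
  by_cases hg : GoodF N T f
  · rw [if_pos hg]
    congr 1
    rw [mon_blk H k σ q T p n hn P hP, mul_assoc, ← Subring.coe_mul,
      TV_term σ T p f (insN H (fun x => p * n x) k * outN H (fun i => p * P i) k),
      Subring.coe_mul (OO N) (insN H (fun x => p * n x) k * outN H (fun i => p * P i) k)
        (Fo a N f ((p : ℚ) • T.E)), Fo_val f _ (Ered_mem H T hT f hg p hp)]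
  · rw [if_neg hg]
    have h1 : ∃ i, i ∉ N ∧ (f i).2 = 0 := by
      by_contra hne
      push Not at hne
      apply hg
      constructor
      · intro i hi
        unfold fset at hf
        rw [Fintype.mem_piFinset] at hf
        have h2 := hf i
        rw [if_neg hi, Finsupp.mem_support_iff] at h2
        exact h2
      · intro i hi
        exact Nat.one_le_iff_ne_zero.mpr (hne i hi)
    obtain ⟨i, hi, h0⟩ := h1
    rw [CTd_lev0 _ _ σ f i hi h0, mul_zero]

/-- extraction of `z_k^M` from the insertion. -/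
theorem ins_pow (p : ℕ) (n : I → ℕ) (hn1 : ∀ x ∈ N, 1 ≤ n x) (k M : ℕ) (hM : M ≤ p) :
    ∃ G : OO N, insN H (fun x => p * n x) k = G * (∏ x ∈ N, Qo H x k) ^ M := by
  refine ⟨insN H (fun x => p * n x - M) k, ?_⟩
  rw [insN_split H (fun x => p * n x) (fun x => p * n x - M) k M (fun x hx => ?_)]
  · exact mul_comm _ _
  · have h1 : p ≤ p * n x := Nat.le_mul_of_pos_right p (hn1 x hx)
    omega

end

end Pool.Agent.H10.KAC
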