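import Pool.Agent.H10.KAC.Fin1

/-!
Run lemma, module 15: vanishing and crossing for one finite type set.
-/

set_option autoImplicit false
set_option maxHeartbeats 400000

namespace Pool.Agent.H10.KAC

open scoped BigOperators
open Pool.Agent.H46.KA Pool.Agent.H27.KAC

variable {I : Type} [Fintype I] [DecidableEq I]

section alg

variable {O : Type} [CommRing O]

theorem alg16 (G z o F q : O) : G * z * o * (F * q) = (G * o * F) * z * q := by ring

theorem alg17 (G z o F : O) : G * z * o * F = (G * o * F) * z * 1 := by ring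

end alg

/-- the relation between `q` and `C q`. -/
theorem hq_eq {a : I → I → ℕ} {N : Finset I} (hs : ∀ i j, a i j = a j i) {h : ℕ} {R : I → I → ℕ}
    (rR : ∀ x ∈ N, ∀ z ∈ N, 2 * R x z = (if z = x then h else 0) + ∑ y ∈ N, a x y * R y z)
    (q : I → ℚ) (z : I) (hz : z ∈ N) :
    (h : ℚ) * q z = ∑ x ∈ N, cqN a N q x * R x z := by
  have h1 : ∀ y ∈ N, ∑ x ∈ N, (cart a x y : ℚ) * R x z = if z = y then (h : ℚ) else 0 := by
    intro y hy
    have h2 : ∑ x ∈ N, (cart a x y : ℚ) * R x z = 2 * R y z - ∑ x ∈ N, (a y x : ℚ) * R x z := by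
      have h3 : ∀ x ∈ N, (cart a x y : ℚ) * R x z =
          (if x = y then 2 * (R x z : ℚ) else 0) - (a y x : ℚ) * R x z := by
        intro x _
        unfold cart
        rw [hs y x]
        by_cases hxy : x = y
        · rw [if_pos hxy, if_pos hxy]
          push_cast
          ring
        · rw [if_neg hxy, if_neg hxy]
          push_cast
          ring
      rw [Finset.sum_congr rfl h3, Finset.sum_sub_distrib, Finset.sum_ite_eq' N y, if_pos hy]
    have h4 : (2 : ℚ) * R y z = (if z = y then (h : ℚ) else 0) + ∑ x ∈ N, (a y x : ℚ) * R x z := by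
      have h5 := congrArg (fun u : ℕ => (u : ℚ)) (rR y hy z hz)
      push_cast at h5
      exact h5
    rw [h2, h4]
    ring
  have h6 : ∑ x ∈ N, cqN a N q x * R x z = ∑ y ∈ N, q y * ∑ x ∈ N, (cart a x y : ℚ) * R x z := by
    unfold cqN
    simp only [Finset.sum_mul, Finset.mul_sum]
    rw [Finset.sum_comm]
    refine Finset.sum_congr rfl (fun y _ => Finset.sum_congr rfl (fun x _ => ?_))
    ring
  rw [h6, Finset.sum_congr rfl (fun y hy => by rw [h1 y hy])]
  have h7 : ∀ y ∈ N, q y * (if z = y then (h : ℚ) else 0) = if z = y then (h : ℚ) * q y else 0 := by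
    intro y _
    by_cases hzy : z = y
    · rw [if_pos hzy, if_pos hzy, mul_comm]
    · rw [if_neg hzy, if_neg hzy, mul_zero]
  rw [Finset.sum_congr rfl h7, Finset.sum_ite_eq N z, if_pos hz]

section

variable {a : I → I → ℕ} {N : Finset I} (H : Hyp a N)

attribute [local irreducible] Qo Po insN outN So Jo colI Fo

include H in
/-- vanishing. -/
theorem rv_A {h : ℕ} {s M : ℕ}
    (hM : ∀ x ∈ N, ∀ l, s < l → l < s + h → So H s ^ M * Qo H x l ∈ Jo H (s + 1))
    (q : I → ℚ) (n : I → ℕ) (hn1 : ∀ x ∈ N, 1 ≤ n x) (hn : ∀ x ∈ N, cqN a N q x = n x)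
    (T : Trm I) (hT : RReg N T) (y : I) (hy : y ∈ N) (l : ℕ) (hl1 : s + 1 ≤ l)
    (hl2 : l + 1 ≤ s + h) (hE : 1 ≤ T.E (y, l)) : TV a (tauT a N s q T) = 0 := by
  classical
  refine TV_eq_zero_of_pow a H.s _ ⟨1, max (Fintype.card I + 1) M, le_rfl, fun p hp hpp _ => ?_⟩
  have hp1 : Fintype.card I < p := lt_of_lt_of_le (Nat.lt_succ_self _) ((le_max_left _ _).trans hp)
  have hp2 : M ≤ p := (le_max_right _ _).trans hp
  change TV a ((blkT a N s (s + 1) q T).pow p) = 0
  rw [TV_exp H s (s + 1) q T hT p hp1 n hn (fun i => ∑ x ∈ N, (a x i : ℚ) * q x)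
    (fun i _ => rfl)]
  refine Finset.sum_eq_zero (fun f hf => ?_)
  have hg := (Finset.mem_filter.mp hf).2
  obtain ⟨F', hF'⟩ := Fo_extract H T hT f hg p hp1 y hy l (by omega) hE
  obtain ⟨G, hG⟩ := ins_pow H p n hn1 s M hp2
  rw [hF', hG, alg16, kill_col H _ s (s + 1) M (mem_colI.mpr (hM y hy l (by omega) (by omega)))
    _ (wf_RFo H f), mul_zero]

include H in
/-- vanishing of short runs. -/
theorem cr0_A {k M : ℕ} (hM : So H k ^ M * 1 ∈ Jo H (k - 1))
    (q : I → ℚ) (n : I → ℕ) (hn1 : ∀ x ∈ N, 1 ≤ n x) (hn : ∀ x ∈ N, cqN a N q x = n x)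
    (T : Trm I) (hT : RReg N T) : TV a (upT a N k q T) = 0 := by
  classical
  refine TV_eq_zero_of_pow a H.s _ ⟨1, max (Fintype.card I + 1) M, le_rfl, fun p hp hpp _ => ?_⟩
  have hp1 : Fintype.card I < p := lt_of_lt_of_le (Nat.lt_succ_self _) ((le_max_left _ _).trans hp)
  have hp2 : M ≤ p := (le_max_right _ _).trans hp
  change TV a ((blkT a N k (k - 1) q T).pow p) = 0
  rw [TV_exp H k (k - 1) q T hT p hp1 n hn (fun i => ∑ x ∈ N, (a x i : ℚ) * q x)
    (fun i _ => rfl)]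
  refine Finset.sum_eq_zero (fun f hf => ?_)
  obtain ⟨G, hG⟩ := ins_pow H p n hn1 k M hp2
  rw [hG, alg17, kill_col H _ k (k - 1) M (mem_colI.mpr hM) _ (wf_RFo H f), mul_zero]

include H in
/-- crossing. -/
theorem cr_A {h b M : ℕ} {ε : I → ℤ} {R : I → I → ℕ} (D : RunD H h b M ε R)
    (q : I → ℚ) (n : I → ℕ) (hn1 : ∀ x ∈ N, 1 ≤ n x) (hn : ∀ x ∈ N, cqN a N q x = n x)
    (T : Trm I) (hT : RReg N T) :
    TV a (upT a N (b + h) q T) = ((∏ x ∈ N, ε x ^ n x : ℤ) : ℚ) * TV a (tauT a N b q T) := by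
  classical
  refine TV_eq_of_pow a H.s _ _ _
    ⟨1, max (Fintype.card I + 3) (M * (N.card + 2)), le_rfl, fun p hp hpp _ => ?_⟩
  have hp0 : Fintype.card I + 3 ≤ p := (le_max_left _ _).trans hp
  have hp1 : Fintype.card I < p := by omega
  have hp2 : M * (N.card + 2) ≤ p := (le_max_right _ _).trans hp
  change TV a ((blkT a N (b + h) (b + h - 1) q T).pow p) =
    _ * TV a ((blkT a N b (b + 1) q T).pow p)
  rw [TV_exp H (b + h) (b + h - 1) q T hT p hp1 n hn (fun i => ∑ x ∈ N, (a x i : ℚ) * q x)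
    (fun i _ => rfl), TV_exp H b (b + 1) q T hT p hp1 n hn
    (fun i => ∑ x ∈ N, (a x i : ℚ) * q x) (fun i _ => rfl), Finset.mul_sum]
  refine Finset.sum_congr rfl (fun f hf => ?_)
  -- the sign
  have hodd : Odd p := hpp.odd_of_ne_two (by omega)
  have hsg : (∏ x ∈ N, ε x ^ (p * n x) : ℤ) = ∏ x ∈ N, ε x ^ n x := by
    refine Finset.prod_congr rfl (fun x _ => ?_)
    rw [pow_mul]
    rcases D.sgn x with h1 | h1 <;> rw [h1]
    · rw [one_pow]
    · rw [hodd.neg_one_pow]
  have hqe : ∀ z ∈ N, (h : ℚ) * q z = ∑ x ∈ N, (n x : ℚ) * R x z := by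
    intro z hz
    rw [hq_eq H.s D.rR q z hz]
    exact Finset.sum_congr rfl (fun x hx => by rw [hn x hx])
  have hnz : ∀ z ∈ N, ((∑ x ∈ N, (p * n x) * R x z : ℕ) : ℚ) = (p : ℚ) * (h * q z) := by
    intro z hz
    rw [hqe z hz, Finset.mul_sum]
    push_cast
    exact Finset.sum_congr rfl (fun x _ => by ring)
  have key := cross_exact H D (e := fun x => p * n x) (n := fun z => ∑ x ∈ N, (p * n x) * R x z)
    (p := fun i => (p : ℚ) * ∑ x ∈ N, (a x i : ℚ) * q x)
    (fun x hx => hp2.trans (Nat.le_mul_of_pos_right p (hn1 x hx)))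
    (fun z _ => rfl)
    (fun i _ => by
      rw [Finset.mul_sum, Finset.mul_sum]
      refine Finset.sum_congr rfl (fun z hz => ?_)
      rw [hnz z hz]
      ring)
    (fun i => (p : ℚ) * (T.γ i + b * resQ N q i)) (Fo a N f ((p : ℚ) • T.E)) (wf_RFo H f)
  have hγ : (fun i => (p : ℚ) * (T.γ i + ((b + h : ℕ) : ℚ) * resQ N q i)) =
      fun i => (p : ℚ) * (T.γ i + b * resQ N q i) +
        if i ∈ N then ((∑ x ∈ N, (p * n x) * R x i : ℕ) : ℚ) else 0 := by
    funext i
    by_cases hi : i ∈ N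
    · rw [if_pos hi, hnz i hi]
      unfold resQ
      rw [if_pos hi]
      push_cast
      ring
    · rw [if_neg hi]
      unfold resQ
      rw [if_neg hi]
      ring
  rw [hγ]
  rw [key, hsg]
  ring

end

end Pool.Agent.H10.KAC
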