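import Pool.Agent.H88.KA.KN4
import Pool.Agent.H10.KAC.Curve

/-!
Run lemma, module 16: the signs.
-/

set_option autoImplicit false

namespace Pool.Agent.H10.KAC

open scoped BigOperators
open Pool.H88.KA

section

variable {N : Type} [Fintype N] [DecidableEq N]

/-- the last nonzero value of `e` is one. -/
theorem KE_pen {a : N → N → ℕ} (hs : ∀ x y, a x y = a y x) {h : ℕ} {e : ℕ → N → ℤ}
    (he : KE a h 1 e) (x : N) : e (h - 1) x = 1 := by
  have h2 := he.two_le
  have h0 : e 0 = 0 := funext he.zero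
  have h1 : e 1 = fun _ => 1 := funext he.one
  have hh : e h = 0 := funext he.last
  have hP : ∀ k, k + 1 ≤ h → Phi a (e (k + 1)) (e k) = ∑ _x : N, (1 : ℤ) := by
    intro k
    induction k with
    | zero =>
      intro _
      rw [zero_add, h0, h1]
      unfold Phi
      simp
    | succ k ih =>
      intro hk
      rw [← ih (by omega)]
      have h3 : e (k + 1 + 1) = fun x => ∑ y, (a x y : ℤ) * e (k + 1) y - e k x := by
        funext x
        have := he.knit k x hk
        linarith
      rw [h3]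
      exact Phi_step a hs (e (k + 1)) (e k)
  have h4 := hP (h - 1) (by omega)
  have h5 : h - 1 + 1 = h := by omega
  rw [h5, hh] at h4
  have h6 : Phi a 0 (e (h - 1)) = ∑ x, e (h - 1) x * e (h - 1) x := by
    unfold Phi
    simp
  rw [h6] at h4
  have h7 : ∀ x ∈ Finset.univ, 0 ≤ e (h - 1) x * e (h - 1) x - 1 := by
    intro x _
    have := he.pos (h - 1) x (by omega) (by omega)
    nlinarith
  have h8 : ∑ x, (e (h - 1) x * e (h - 1) x - 1) = 0 := by
    rw [Finset.sum_sub_distrib, h4, sub_self]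
  have h9 := (Finset.sum_eq_zero_iff_of_nonneg h7).1 h8 x (Finset.mem_univ x)
  have h10 := he.pos (h - 1) x (by omega) (by omega)
  nlinarith

/-- partial sums. -/
def Se (e : ℕ → N → ℤ) (k : ℕ) (x : N) : ℕ := ∑ m ∈ Finset.range k, (e m x).toNat

theorem Se_succ (e : ℕ → N → ℤ) (k : ℕ) (x : N) : Se e (k + 1) x = Se e k x + (e k x).toNat := by
  unfold Se
  rw [Finset.sum_range_succ]

theorem KE_nonneg {a : N → N → ℕ} {h : ℕ} {e : ℕ → N → ℤ} (he : KE a h 1 e) (k : ℕ) (hk : k ≤ h)
    (x : N) : 0 ≤ e k x := by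
  rcases Nat.eq_zero_or_pos k with h0 | h0
  · rw [h0, he.zero x]
  · rcases hk.lt_or_eq with h1 | h1
    · exact (he.pos k x h0 h1).le
    · rw [h1, he.last x]

theorem KE_knitN {a : N → N → ℕ} {h : ℕ} {e : ℕ → N → ℤ} (he : KE a h 1 e) (k : ℕ) (x : N)
    (hk : k + 2 ≤ h) :
    (e (k + 2) x).toNat + (e k x).toNat = ∑ y, a x y * (e (k + 1) y).toNat := by
  have h1 := he.knit k x hk
  have e1 : ((e (k + 2) x).toNat : ℤ) = e (k + 2) x := Int.toNat_of_nonneg (KE_nonneg he _ hk x)
  have e2 : ((e k x).toNat : ℤ) = e k x := Int.toNat_of_nonneg (KE_nonneg he _ (by omega) x)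
  have e3 : ∀ y, ((e (k + 1) y).toNat : ℤ) = e (k + 1) y := fun y =>
    Int.toNat_of_nonneg (KE_nonneg he _ (by omega) y)
  have h2 : (((e (k + 2) x).toNat + (e k x).toNat : ℕ) : ℤ) =
      ((∑ y, a x y * (e (k + 1) y).toNat : ℕ) : ℤ) := by
    push_cast [e1, e2]
    rw [Finset.sum_congr rfl (fun y _ => by rw [e3 y])]
    exact h1
  exact_mod_cast h2

theorem Se_rec {a : N → N → ℕ} {h : ℕ} {e : ℕ → N → ℤ} (he : KE a h 1 e) (k : ℕ) (x : N)
    (hk : k + 2 ≤ h) : ∑ y, a x y * Se e (k + 1) y + 1 = Se e (k + 2) x + Se e k x := by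
  induction k with
  | zero =>
    have h0 : ∀ y, Se e 1 y = 0 := fun y => by
      unfold Se
      rw [Finset.sum_range_one, he.zero y]
      rfl
    have h1 : Se e 2 x = 1 := by
      rw [Se_succ, h0, he.one x]
      rfl
    have h2 : Se e 0 x = 0 := rfl
    simp only [zero_add]
    rw [h1, h2, Finset.sum_eq_zero (fun y _ => by rw [h0 y, mul_zero])]
  | succ k ih =>
    have h1 := ih (by omega)
    have h2 := KE_knitN he k x (by omega)
    have h3 : ∑ y, a x y * Se e (k + 1 + 1) y =
        ∑ y, a x y * Se e (k + 1) y + ∑ y, a x y * (e (k + 1) y).toNat := by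
      rw [← Finset.sum_add_distrib]
      refine Finset.sum_congr rfl (fun y _ => ?_)
      rw [Se_succ]
      ring
    have h4 : Se e (k + 1 + 2) x = Se e (k + 2) x + (e (k + 2) x).toNat := Se_succ e (k + 2) x
    have h5 : Se e (k + 1) x = Se e k x + (e k x).toNat := Se_succ e k x
    rw [h3, h4, h5]
    omega

/-- `C S_h = 2`. -/
theorem Se_last {a : N → N → ℕ} (hs : ∀ x y, a x y = a y x) {h : ℕ} {e : ℕ → N → ℤ}
    (he : KE a h 1 e) (x : N) : ∑ y, a x y * Se e h y + 2 = 2 * Se e h x := by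
  obtain ⟨k, rfl⟩ : ∃ k, h = k + 2 := ⟨h - 2, by have := he.two_le; omega⟩
  have h1 := Se_rec he k x le_rfl
  have h2 := KE_knitN he k x le_rfl
  have h3 : (e (k + 1) x).toNat = 1 := by
    have := KE_pen hs he x
    have h4 : k + 2 - 1 = k + 1 := by omega
    rw [h4] at this
    rw [this]
    rfl
  have h5 : (e (k + 2) x).toNat = 0 := by
    rw [he.last x]
    rfl
  have h6 : ∑ y, a x y * Se e (k + 2) y =
      ∑ y, a x y * Se e (k + 1) y + ∑ y, a x y * (e (k + 1) y).toNat := by
    rw [← Finset.sum_add_distrib]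
    refine Finset.sum_congr rfl (fun y _ => ?_)
    rw [Se_succ e (k + 1)]
    ring
  have h7 : Se e (k + 2) x = Se e (k + 1) x + (e (k + 1) x).toNat := Se_succ e (k + 1) x
  have h8 : Se e (k + 1) x = Se e k x + (e k x).toNat := Se_succ e k x
  omega

/-- the signs in terms of `e`. -/
theorem sg_eq {a : N → N → ℕ} {h : ℕ} {e : ℕ → N → ℤ} (he : KE a h 1 e) (k : ℕ) (hk : k ≤ h)
    (x : N) : sg a k x = (-1) ^ Se e k x := by
  induction k using Nat.strong_induction_on generalizing x with
  | _ k ih =>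
    match k, ih, hk with
    | 0, _, _ => rfl
    | 1, _, _ =>
      have h0 : Se e 1 x = 0 := by
        unfold Se
        rw [Finset.sum_range_one, he.zero x]
        rfl
      rw [h0, pow_zero]
      rfl
    | k + 2, ih, hk =>
      change -(sg a k x * ∏ y, sg a (k + 1) y ^ a x y) = _
      rw [ih k (by omega) (by omega) x]
      have h1 : ∏ y, sg a (k + 1) y ^ a x y = (-1) ^ (∑ y, a x y * Se e (k + 1) y) := by
        rw [← Finset.prod_pow_eq_pow_sum]
        refine Finset.prod_congr rfl (fun y _ => ?_)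
        rw [ih (k + 1) (by omega) (by omega) y, ← pow_mul, mul_comm]
      rw [h1, ← pow_add]
      have h2 := Se_rec he k x hk
      have h3 : Se e k x + ∑ y, a x y * Se e (k + 1) y + 1 = Se e (k + 2) x + 2 * Se e k x := by
        omega
      have h4 : (-1 : ℤ) ^ (Se e k x + ∑ y, a x y * Se e (k + 1) y + 1) = (-1) ^ Se e (k + 2) x := by
        rw [h3, pow_add, pow_mul]
        norm_num
      rw [← h4, pow_succ]
      ring

end

end Pool.Agent.H10.KAC
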