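import Pool.Agent.H10.KAC.Fin2
import Pool.Agent.H10.KAC.Sign

/-!
Run lemma, module 17: the crossing data.
-/

set_option autoImplicit false
set_option maxHeartbeats 400000

namespace Pool.Agent.H10.KAC

open scoped BigOperators
open Pool.Agent.H46.KA Pool.Agent.H27.KAC

variable {I : Type} [Fintype I] [DecidableEq I]

theorem hyp_of {a : I → I → ℕ} (hs : ∀ i j, a i j = a j i) {A : Finset I} (hF : FinT a A) :
    Hyp a A := ⟨hs, hF.loopfree⟩

/-- positive definiteness on the subtype. -/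
theorem pd_of {a : I → I → ℕ} {A : Finset I} (hF : FinT a A) :
    Pool.H88.KA.PD (aN a A) := by
  intro v hv
  set V : I → ℚ := fun i => if hi : i ∈ A then ((v ⟨i, hi⟩ : ℤ) : ℚ) else 0 with hV
  have hVs : ∀ x : {x // x ∈ A}, V x.1 = v x := by
    intro x
    rw [hV]
    simp only [dif_pos x.2]
  have hne : ∃ i ∈ A, V i ≠ 0 := by
    by_contra hcon
    push Not at hcon
    apply hv
    funext x
    have h1 := hcon x.1 x.2
    rw [hVs x] at h1
    exact_mod_cast h1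
  have h1 := hF.pos V hne
  have h2 : ∀ x : {x // x ∈ A}, cqN a A V x.1 = ((Pool.H88.KA.cZ (aN a A) v x : ℤ) : ℚ) := by
    intro x
    unfold cqN Pool.H88.KA.cZ
    rw [← Finset.sum_coe_sort A (fun j => (cart a x.1 j : ℚ) * V j)]
    have h3 : ∀ y : {x // x ∈ A}, (cart a x.1 y.1 : ℚ) * V y.1 =
        (if x = y then 2 * (v y : ℚ) else 0) - (a x.1 y.1 : ℚ) * v y := by
      intro y
      rw [hVs y]
      unfold cart
      by_cases hxy : x = y
      · rw [if_pos hxy, if_pos (congrArg Subtype.val hxy)]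
        push_cast
        ring
      · have hxy' : x.1 ≠ y.1 := fun h => hxy (Subtype.ext h)
        rw [if_neg hxy, if_neg hxy']
        push_cast
        ring
    rw [Finset.sum_congr rfl (fun y _ => h3 y), Finset.sum_sub_distrib, Finset.sum_ite_eq,
      if_pos (Finset.mem_univ x)]
    push_cast
    rfl
  have h4 : ∑ i ∈ A, V i * cqN a A V i =
      ((∑ x, v x * Pool.H88.KA.cZ (aN a A) v x : ℤ) : ℚ) := by
    rw [← Finset.sum_coe_sort A (fun i => V i * cqN a A V i)]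
    push_cast
    exact Finset.sum_congr rfl (fun x _ => by rw [hVs x, h2 x])
  rw [h4] at h1
  exact_mod_cast h1

theorem conn_of {a : I → I → ℕ} {A : Finset I} (hC : ConnS a A) :
    ∀ S : Finset {x // x ∈ A}, S.Nonempty → S ≠ Finset.univ →
      ∃ i ∈ S, ∃ j, j ∉ S ∧ 0 < aN a A i j := by
  intro S hS hne
  have hne' : S.map (Function.Embedding.subtype _) ≠ A := by
    intro h
    apply hne
    ext x
    simp only [Finset.mem_univ, iff_true]
    have h2 : x.1 ∈ S.map (Function.Embedding.subtype _) := by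
      rw [h]
      exact x.2
    obtain ⟨y, hy, hyx⟩ := Finset.mem_map.1 h2
    have h3 : y = x := Subtype.ext hyx
    exact h3 ▸ hy
  have h1 := hC.2 (S.map (Function.Embedding.subtype _)) (fun x hx => by
    obtain ⟨y, _, rfl⟩ := Finset.mem_map.1 hx
    exact y.2) (Finset.Nonempty.map hS) hne'
  obtain ⟨i, hi, j, hjA, hj, hij⟩ := h1
  obtain ⟨i', hi', rfl⟩ := Finset.mem_map.1 hi
  refine ⟨i', hi', ⟨j, hjA⟩, fun h => hj ?_, hij⟩
  exact Finset.mem_map.2 ⟨⟨j, hjA⟩, h, rfl⟩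

/-- everything for one finite type set. -/
structure OneD (a : I → I → ℕ) (A : Finset I) (m : ℕ) (e : ℕ → {x // x ∈ A} → ℤ) (ε : I → ℤ) :
    Prop where
  ke : Pool.H88.KA.KE (aN a A) m 1 e
  pm : ∀ x, ε x = 1 ∨ ε x = -1
  sgn : ∀ x (hx : x ∈ A), ε x = (-1) ^ Se e m ⟨x, hx⟩
  prod : ∀ x ∈ A, ∏ y ∈ A, ε y ^ a x y = 1
  integral : ∀ q : I → ℚ, (∀ x ∈ A, IsZ (cqN a A q x)) → ∀ x ∈ A, IsZ (m * q x)
  rv : ∀ (s : ℕ) (q : I → ℚ), QOk a A q → ∀ T : Trm I, RReg A T →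
    ∀ y ∈ A, ∀ l, s + 1 ≤ l → l + 1 ≤ s + m → 1 ≤ T.E (y, l) → TV a (tauT a A s q T) = 0
  cr : ∀ (k : ℕ) (q : I → ℚ) (n : I → ℕ), (∀ x ∈ A, 1 ≤ n x) → (∀ x ∈ A, cqN a A q x = n x) →
    ∀ T : Trm I, RReg A T → m ≤ k →
    TV a (upT a A k q T) = ((∏ x ∈ A, ε x ^ n x : ℤ) : ℚ) * TV a (tauT a A (k - m) q T)
  cr0 : ∀ (k : ℕ) (q : I → ℚ), QOk a A q → ∀ T : Trm I, RReg A T →
    1 ≤ k → k < m → TV a (upT a A k q T) = 0

theorem IsZ_add {u v : ℚ} (hu : IsZ u) (hv : IsZ v) : IsZ (u + v) := by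
  obtain ⟨m, rfl⟩ := hu
  obtain ⟨n, rfl⟩ := hv
  exact ⟨m + n, by push_cast; ring⟩

theorem IsZ_mul {u v : ℚ} (hu : IsZ u) (hv : IsZ v) : IsZ (u * v) := by
  obtain ⟨m, rfl⟩ := hu
  obtain ⟨n, rfl⟩ := hv
  exact ⟨m * n, by push_cast; ring⟩

theorem IsZ_sum {ι : Type} (s : Finset ι) (f : ι → ℚ) (h : ∀ i ∈ s, IsZ (f i)) :
    IsZ (∑ i ∈ s, f i) := by
  classical
  induction s using Finset.induction_on with
  | empty => exact ⟨0, by simp⟩
  | insert i s hi ih =>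
    rw [Finset.sum_insert hi]
    exact IsZ_add (h i (Finset.mem_insert_self i s))
      (ih (fun j hj => h j (Finset.mem_insert_of_mem hj)))

theorem oneD_exists {a : I → I → ℕ} (hs : ∀ i j, a i j = a j i) {A : Finset I} (hF : FinT a A)
    (hC : ConnS a A) : ∃ m e ε, OneD a A m e ε := by
  classical
  have H := hyp_of hs hF
  have hsN : ∀ x y, aN a A x y = aN a A y x := fun x y => hs x.1 y.1
  have : Nonempty {x // x ∈ A} := by
    obtain ⟨x, hx⟩ := hC.1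
    exact ⟨⟨x, hx⟩⟩
  obtain ⟨m, e, he⟩ := Pool.H88.KA.KE_exists (pd_of hF) hsN (conn_of hC)
  obtain ⟨o, ho⟩ := Pool.H88.KA.knit_of_KE (pd_of hF) he
  obtain ⟨ε, R, h1, h2, h3, h4, h5⟩ := LL_run H ho
  refine ⟨m, e, ε, he, h1, fun x hx => ?_, h2, ?_, ?_, ?_, ?_⟩
  · rw [h3 x hx, sg_eq he m le_rfl]
  · intro q hq z hz
    rw [hq_eq hs h4 q z hz]
    exact IsZ_sum _ _ (fun x hx => IsZ_mul (hq x hx) ⟨(R x z : ℤ), by push_cast; rfl⟩)
  · intro s q hq T hT y hy l hl1 hl2 hE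
    obtain ⟨M, f1, -, -, -⟩ := h5 s
    have hq' : ∀ x, ∃ n : ℕ, x ∈ A → 1 ≤ n ∧ cqN a A q x = n := by
      intro x
      by_cases hx : x ∈ A
      · obtain ⟨n, hn⟩ := hq x hx
        exact ⟨n, fun _ => hn⟩
      · exact ⟨0, fun h => absurd h hx⟩
    choose n hn using hq'
    exact rv_A H f1 q n (fun x hx => (hn x hx).1) (fun x hx => (hn x hx).2) T hT y hy l hl1 hl2 hE
  · intro k q n hn1 hn T hT hk
    obtain ⟨b, rfl⟩ : ∃ b, k = b + m := ⟨k - m, by omega⟩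
    obtain ⟨M, f1, f2, b1, b2⟩ := h5 b
    have e1 : b + m - m = b := by omega
    rw [e1]
    exact cr_A H ⟨he.two_le, h1, h4, f1, f2, b1, b2⟩ q n hn1 hn T hT
  · intro k q hq T hT hk1 hk2
    obtain ⟨M, hM⟩ := LL_short H ho hC.1 k hk1 hk2
    have hq' : ∀ x, ∃ n : ℕ, x ∈ A → 1 ≤ n ∧ cqN a A q x = n := by
      intro x
      by_cases hx : x ∈ A
      · obtain ⟨n, hn⟩ := hq x hx
        exact ⟨n, fun _ => hn⟩
      · exact ⟨0, fun h => absurd h hx⟩
    choose n hn using hq'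
    exact cr0_A H hM q n (fun x hx => (hn x hx).1) (fun x hx => (hn x hx).2) T hT

/-- the sign of a class. -/
noncomputable def epsF (a : I → I → ℕ) (A : Finset I) (ε : I → ℤ) (q : I → ℚ) : ℚ :=
  ∏ x ∈ A, ((ε x : ℤ) : ℚ) ^ ⌊cqN a A q x⌋

open Classical in
/-- the sign, all cases. -/
noncomputable def epsG (a : I → I → ℕ) (A : Finset I) (ε : I → ℤ) (q : I → ℚ) : ℚ :=
  if ∀ x ∈ A, IsZ (cqN a A q x) then epsF a A ε q else 1

theorem pm_zpow {u : ℚ} (hu : u = 1 ∨ u = -1) (n : ℤ) : u ^ n = 1 ∨ u ^ n = -1 := by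
  rcases hu with rfl | rfl
  · left
    exact one_zpow n
  · rcases Int.even_or_odd n with h | h
    · left
      exact h.neg_one_zpow
    · right
      exact h.neg_one_zpow

theorem pm_prod {ι : Type} (s : Finset ι) (f : ι → ℚ) (h : ∀ i ∈ s, f i = 1 ∨ f i = -1) :
    ∏ i ∈ s, f i = 1 ∨ ∏ i ∈ s, f i = -1 := by
  classical
  induction s using Finset.induction_on with
  | empty => left; simp
  | insert i s hi ih =>
    rw [Finset.prod_insert hi]
    rcases h i (Finset.mem_insert_self i s) with h1 | h1 <;>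
      rcases ih (fun j hj => h j (Finset.mem_insert_of_mem hj)) with h2 | h2 <;>
      rw [h1, h2] <;> norm_num

theorem epsG_pm {a : I → I → ℕ} {A : Finset I} {ε : I → ℤ} (h : ∀ x, ε x = 1 ∨ ε x = -1)
    (q : I → ℚ) : epsG a A ε q = 1 ∨ epsG a A ε q = -1 := by
  unfold epsG epsF
  split_ifs
  · refine pm_prod _ _ (fun x _ => pm_zpow ?_ _)
    rcases h x with h1 | h1 <;> rw [h1] <;> norm_num
  · left
    rfl

/-- `ε` is trivial on the root lattice. -/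
theorem epsF_root {a : I → I → ℕ} (hs : ∀ i j, a i j = a j i) {A : Finset I} {ε : I → ℤ}
    (h : ∀ x, ε x = 1 ∨ ε x = -1) (hp : ∀ x ∈ A, ∏ y ∈ A, ε y ^ a x y = 1) (w : I → ℤ) :
    ∏ x ∈ A, ((ε x : ℤ) : ℚ) ^ (∑ y ∈ A, cart a x y * w y) = 1 := by
  have h0 : ∀ x, ((ε x : ℤ) : ℚ) ≠ 0 := by
    intro x
    rcases h x with h1 | h1 <;> rw [h1] <;> norm_num
  have h1 : ∀ x ∈ A, ((ε x : ℤ) : ℚ) ^ (∑ y ∈ A, cart a x y * w y) =
      ∏ y ∈ A, (((ε x : ℤ) : ℚ) ^ a y x) ^ (w y) := by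
    intro x _
    have h2 : ∀ s : Finset I, ((ε x : ℤ) : ℚ) ^ (∑ y ∈ s, cart a x y * w y) =
        ∏ y ∈ s, (((ε x : ℤ) : ℚ) ^ a y x) ^ (w y) := by
      intro s
      induction s using Finset.induction_on with
      | empty => simp
      | insert y s hy ih =>
        rw [Finset.sum_insert hy, Finset.prod_insert hy, zpow_add₀ (h0 x), ih]
        congr 1
        rw [zpow_mul]
        congr 1
        unfold cart
        have h3 : ((ε x : ℤ) : ℚ) ^ (-(a x y : ℤ)) = ((ε x : ℤ) : ℚ) ^ (a x y) := by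
          rw [zpow_neg, zpow_natCast]
          rcases h x with h4 | h4 <;> rw [h4]
          · norm_num
          · push_cast
            rcases Nat.even_or_odd (a x y) with h5 | h5
            · rw [h5.neg_one_pow]; norm_num
            · rw [h5.neg_one_pow]; norm_num
        rw [hs y x]
        by_cases hxy : x = y
        · rw [if_pos hxy, sub_eq_add_neg, zpow_add₀ (h0 x), h3]
          rcases h x with h4 | h4 <;> rw [h4] <;> norm_num
        · rw [if_neg hxy, zero_sub, h3]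
    exact h2 A
  rw [Finset.prod_congr rfl h1, Finset.prod_comm]
  refine Finset.prod_eq_one (fun y hy => ?_)
  rw [Finset.prod_zpow]
  have h2 : ∏ x ∈ A, ((ε x : ℤ) : ℚ) ^ a y x = 1 := by
    have := hp y hy
    exact_mod_cast congrArg (fun u : ℤ => (u : ℚ)) this
  rw [h2, one_zpow]

theorem cqN_sub (a : I → I → ℕ) (A : Finset I) (q q' : I → ℚ) (x : I) :
    cqN a A q x = cqN a A q' x + cqN a A (fun y => q y - q' y) x := by
  unfold cqN
  rw [← Finset.sum_add_distrib]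
  exact Finset.sum_congr rfl (fun y _ => by ring)

theorem IsZ_floor {u : ℚ} (h : IsZ u) : ((⌊u⌋ : ℤ) : ℚ) = u := by
  obtain ⟨n, rfl⟩ := h
  rw [Int.floor_intCast]

theorem cqN_Z {a : I → I → ℕ} {A : Finset I} {w : I → ℚ} (hw : ∀ x ∈ A, IsZ (w x)) (x : I) :
    cqN a A w x = ((∑ y ∈ A, cart a x y * ⌊w y⌋ : ℤ) : ℚ) := by
  unfold cqN
  push_cast
  exact Finset.sum_congr rfl (fun y hy => by rw [IsZ_floor (hw y hy)])

theorem epsG_congr {a : I → I → ℕ} (hs : ∀ i j, a i j = a j i) {A : Finset I} {ε : I → ℤ}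
    (h : ∀ x, ε x = 1 ∨ ε x = -1) (hp : ∀ x ∈ A, ∏ y ∈ A, ε y ^ a x y = 1) (q q' : I → ℚ)
    (hq : ∀ x ∈ A, IsZ (q x - q' x)) : epsG a A ε q = epsG a A ε q' := by
  classical
  have h0 : ∀ x, ((ε x : ℤ) : ℚ) ≠ 0 := by
    intro x
    rcases h x with h1 | h1 <;> rw [h1] <;> norm_num
  have hd : ∀ x, cqN a A (fun y => q y - q' y) x =
      ((∑ y ∈ A, cart a x y * ⌊q y - q' y⌋ : ℤ) : ℚ) := fun x => cqN_Z hq x
  have hiff : (∀ x ∈ A, IsZ (cqN a A q x)) ↔ ∀ x ∈ A, IsZ (cqN a A q' x) := by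
    constructor
    · intro h1 x hx
      have h2 := h1 x hx
      rw [cqN_sub a A q q' x, hd x] at h2
      obtain ⟨n, hn⟩ := h2
      exact ⟨n - ∑ y ∈ A, cart a x y * ⌊q y - q' y⌋, by rw [Int.cast_sub, ← hn]; ring⟩
    · intro h1 x hx
      rw [cqN_sub a A q q' x, hd x]
      exact IsZ_add (h1 x hx) ⟨_, rfl⟩
  unfold epsG
  by_cases hZ : ∀ x ∈ A, IsZ (cqN a A q x)
  · rw [if_pos hZ, if_pos (hiff.mp hZ)]
    unfold epsF
    have h1 : ∀ x ∈ A, ((ε x : ℤ) : ℚ) ^ ⌊cqN a A q x⌋ =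
        ((ε x : ℤ) : ℚ) ^ ⌊cqN a A q' x⌋ *
          ((ε x : ℤ) : ℚ) ^ (∑ y ∈ A, cart a x y * ⌊q y - q' y⌋) := by
      intro x hx
      rw [← zpow_add₀ (h0 x)]
      congr 1
      rw [cqN_sub a A q q' x, hd x, Int.floor_add_intCast]
    rw [Finset.prod_congr rfl h1, Finset.prod_mul_distrib, epsF_root hs h hp, mul_one]
  · rw [if_neg hZ, if_neg (fun h' => hZ (hiff.mpr h'))]

theorem epsG_nat {a : I → I → ℕ} {A : Finset I} {ε : I → ℤ} (q : I → ℚ) (n : I → ℕ)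
    (hn : ∀ x ∈ A, cqN a A q x = n x) : epsG a A ε q = ((∏ x ∈ A, ε x ^ n x : ℤ) : ℚ) := by
  unfold epsG epsF
  rw [if_pos (fun x hx => ⟨(n x : ℤ), by rw [hn x hx]; push_cast; rfl⟩)]
  push_cast
  refine Finset.prod_congr rfl (fun x hx => ?_)
  rw [hn x hx, Int.floor_natCast, zpow_natCast]

end Pool.Agent.H10.KAC
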