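import Mathlib

/-!
Run lemma, module 5: the transformation law for residues, in a purely algebraic form with labels.

`Lx y` = elements regular in direction `y`; the functional `Φ` vanishes on elements which are regular in some
direction `y ∈ N`.
-/

namespace Pool.Agent.H10.KAC

open scoped BigOperators
open Matrix

theorem det_mem {I L : Type} [Fintype I] [DecidableEq I] [CommRing L] (S : Subring L)
    {M : Matrix I I L} (h : ∀ i j, M i j ∈ S) : M.det ∈ S := by
  rw [Matrix.det_apply]
  refine Subring.sum_mem _ (fun σ _ => ?_)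
  rw [Units.smul_def, zsmul_eq_mul]
  exact Subring.mul_mem _ (intCast_mem S _) (Subring.prod_mem _ (fun i _ => h _ _))

section

variable {I L A' : Type} [Fintype I] [DecidableEq I] [CommRing L] [AddCommGroup A']

/-- Cramer type identity. -/
theorem cramer_id (B : Matrix I I L) (f : I → L) (m y : I) :
    f m * (B.updateRow m (Pi.single y 1)).det - f y * (B.updateRow m (Pi.single m 1)).det =
      ∑ i ∈ Finset.univ.erase m, (B *ᵥ f) i *
        (B.updateRow m (Pi.single y 1)).adjugate m i := by
  set C := B.updateRow m (Pi.single y 1) with hC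
  have h1 : ∑ i, C.adjugate m i * (C *ᵥ f) i = C.det * f m := by
    have h2 : C.adjugate *ᵥ (C *ᵥ f) = C.det • f := by
      rw [Matrix.mulVec_mulVec, Matrix.adjugate_mul, Matrix.smul_mulVec, Matrix.one_mulVec]
    have h3 := congrFun h2 m
    simpa [Matrix.mulVec, dotProduct] using h3
  rw [← Finset.add_sum_erase Finset.univ _ (Finset.mem_univ m)] at h1
  have h4 : (C *ᵥ f) m = f y := by
    simp [hC, Matrix.mulVec]
  have h5 : C.adjugate m m = (B.updateRow m (Pi.single m 1)).det := by
    rw [Matrix.adjugate_apply, hC, Matrix.updateRow_idem]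
  have h6 : ∀ i ∈ Finset.univ.erase m, C.adjugate m i * (C *ᵥ f) i =
      (B *ᵥ f) i * C.adjugate m i := by
    intro i hi
    have hne : i ≠ m := Finset.ne_of_mem_erase hi
    have : (C *ᵥ f) i = (B *ᵥ f) i := by
      simp [hC, Matrix.mulVec, Matrix.updateRow_ne hne]
    rw [this, mul_comm]
  rw [h4, h5, Finset.sum_congr rfl h6] at h1
  linear_combination -h1

variable (A : Matrix I I L)

/-- rows in `M` replaced by unit vectors. -/
def rowM (M : Finset I) : Matrix I I L := fun i => if i ∈ M then Pi.single i 1 else A i

theorem rowM_mem {M : Finset I} {i : I} (h : i ∈ M) : rowM A M i = Pi.single i 1 := by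
  simp [rowM, h]

theorem rowM_not {M : Finset I} {i : I} (h : i ∉ M) : rowM A M i = A i := by
  simp [rowM, h]

theorem rowM_insert {M : Finset I} (m : I) :
    rowM A (insert m M) = (rowM A M).updateRow m (Pi.single m 1) := by
  funext i
  by_cases hi : i = m
  · subst hi
    rw [Matrix.updateRow_self, rowM_mem A (Finset.mem_insert_self i M)]
  · rw [Matrix.updateRow_ne hi]
    simp [rowM, hi]

theorem rowM_self {M : Finset I} {m : I} (hm : m ∉ M) :
    rowM A M = (rowM A M).updateRow m (A m) := by
  rw [← rowM_not A hm, Matrix.updateRow_eq_self]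

/-- The transformation law. -/
theorem trans_law (N : Finset I) (Lx : I → Subring L) (Φ : L →+ A')
    (hΦ : ∀ x ∈ N, ∀ F ∈ Lx x, Φ F = 0) {f g u v : I → L} {ζ H : L}
    (hu : ∀ x ∈ N, u x * f x = 1) (hv : ∀ x ∈ N, v x * g x = 1)
    (hu' : ∀ x ∈ N, ∀ y ∈ N, y ≠ x → u x ∈ Lx y) (hv' : ∀ x ∈ N, ∀ y ∈ N, y ≠ x → v x ∈ Lx y)
    (hA : ∀ i j, ∀ y ∈ N, A i j ∈ Lx y) (hζ : ∀ y ∈ N, ζ ∈ Lx y) (hH : ∀ y ∈ N, H ∈ Lx y)
    (hAN : ∀ i, i ∉ N → A i = Pi.single i 1) (hAN' : ∀ i ∈ N, ∀ j, j ∉ N → A i j = 0)
    (hrel : ∀ x ∈ N, ζ * g x = ∑ y ∈ N, A x y * f y) :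
    Φ (H * A.det * ∏ x ∈ N, v x) = Φ (H * ζ ^ N.card * ∏ x ∈ N, u x) := by
  classical
  -- the function `f` extended by zero
  let f' : I → L := fun i => if i ∈ N then f i else 0
  have hf'N : ∀ i ∈ N, f' i = f i := fun i hi => if_pos hi
  have hf'n : ∀ i, i ∉ N → f' i = 0 := fun i hi => if_neg hi
  have hrowmem : ∀ (M : Finset I) (i j : I), ∀ y ∈ N, rowM A M i j ∈ Lx y := by
    intro M i j y hy
    by_cases hi : i ∈ M
    · rw [rowM_mem A hi]
      by_cases hj : j = i
      · subst hj
        rw [Pi.single_eq_same]
        exact Subring.one_mem _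
      · rw [Pi.single_eq_of_ne hj]
        exact Subring.zero_mem _
    · rw [rowM_not A hi]
      exact hA i j y hy
  have hsing : ∀ (i j : I) (y : I), (Pi.single i 1 : I → L) j ∈ Lx y := by
    intro i j y
    by_cases hj : j = i
    · subst hj
      rw [Pi.single_eq_same]
      exact Subring.one_mem _
    · rw [Pi.single_eq_of_ne hj]
      exact Subring.zero_mem _
  have hupd : ∀ (B : Matrix I I L) (m z : I) (y : I), (∀ i j, B i j ∈ Lx y) →
      ∀ i j, B.updateRow m (Pi.single z 1) i j ∈ Lx y := by
    intro B m z y hB i j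
    by_cases hi : i = m
    · subst hi
      rw [Matrix.updateRow_self]
      exact hsing z j y
    · rw [Matrix.updateRow_ne hi]
      exact hB i j
  let P : Finset I → L := fun M =>
    H * ζ ^ M.card * (rowM A M).det * (∏ x ∈ M, u x) * ∏ x ∈ N \ M, v x
  have step : ∀ M : Finset I, M ⊆ N → ∀ m ∈ N, m ∉ M → Φ (P (insert m M)) = Φ (P M) := by
    intro M hMN m hmN hmM
    set W := H * ζ ^ M.card * (∏ x ∈ M, u x) * ∏ x ∈ (N \ M).erase m, v x with hW
    set B := rowM A M with hB
    have hd1 : P M = W * (B.det * f m) * (u m * v m) := by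
      simp only [P]
      rw [← Finset.mul_prod_erase (N \ M) v (Finset.mem_sdiff.mpr ⟨hmN, hmM⟩), hW]
      linear_combination (-(H * ζ ^ M.card * B.det * (∏ x ∈ M, u x) *
        (v m * ∏ x ∈ (N \ M).erase m, v x))) * hu m hmN
    have hd2 : P (insert m M) = W * (ζ * g m * (B.updateRow m (Pi.single m 1)).det) *
        (u m * v m) := by
      simp only [P]
      rw [Finset.card_insert_of_notMem hmM, Finset.prod_insert hmM, rowM_insert, ← hB,
        show N \ insert m M = (N \ M).erase m by
          ext z
          simp only [Finset.mem_sdiff, Finset.mem_insert, Finset.mem_erase]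
          tauto, hW, pow_succ]
      linear_combination (-(H * ζ ^ M.card * ζ * (B.updateRow m (Pi.single m 1)).det *
        (u m * ∏ x ∈ M, u x) * ∏ x ∈ (N \ M).erase m, v x)) * hv m hmN
    -- expansion of the determinant
    have hdetB : B.det = ∑ y ∈ N, A m y * (B.updateRow m (Pi.single y 1)).det := by
      have e1 : B.det = ∑ y, A m y * (B.updateRow m (Pi.single y 1)).det := by
        have e2 := Matrix.det_eq_sum_mul_adjugate_row B m
        rw [e2]
        refine Finset.sum_congr rfl (fun y _ => ?_)
        rw [Matrix.adjugate_apply, hB, rowM_not A hmM]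
      rw [e1]
      symm
      apply Finset.sum_subset (Finset.subset_univ N)
      intro y _ hy
      rw [hAN' m hmN y hy, zero_mul]
    have hdiff : P M - P (insert m M) = ∑ y ∈ N, W * (u m * v m) * (A m y *
        (f m * (B.updateRow m (Pi.single y 1)).det -
          f y * (B.updateRow m (Pi.single m 1)).det)) := by
      rw [hd1, hd2, hrel m hmN, hdetB, ← Finset.mul_sum, Finset.sum_mul, Finset.sum_mul,
        ← mul_sub_right_distrib, ← mul_sub, ← Finset.sum_sub_distrib]
      rw [mul_assoc, mul_comm (∑ y ∈ N, _) (u m * v m), ← mul_assoc]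
      congr 1
      refine Finset.sum_congr rfl (fun y _ => by ring)
    have hzero : ∀ y ∈ N, Φ (W * (u m * v m) * (A m y *
        (f m * (B.updateRow m (Pi.single y 1)).det -
          f y * (B.updateRow m (Pi.single m 1)).det))) = 0 := by
      intro y hyN
      -- removal of a factor with label `i`
      have hWu : ∀ i ∈ N, i ∈ M → ∀ K, (∀ z ∈ N, K ∈ Lx z) →
          Φ (W * (u m * v m) * (f i * K)) = 0 := by
        intro i hiN hiM K hK
        apply hΦ i hiN
        have him : i ≠ m := fun h => hmM (h ▸ hiM)
        have e1 : W * (u m * v m) * (f i * K) = H * ζ ^ M.card * (∏ x ∈ M.erase i, u x) *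
            (∏ x ∈ (N \ M).erase m, v x) * (u m * v m) * K := by
          rw [hW, ← Finset.mul_prod_erase M u hiM]
          linear_combination (H * ζ ^ M.card * (∏ x ∈ M.erase i, u x) *
            (∏ x ∈ (N \ M).erase m, v x) * (u m * v m) * K) * hu i hiN
        rw [e1]
        refine Subring.mul_mem _ (Subring.mul_mem _ (Subring.mul_mem _ (Subring.mul_mem _
          (Subring.mul_mem _ (hH i hiN) (Subring.pow_mem _ (hζ i hiN) _)) ?_) ?_)
          (Subring.mul_mem _ (hu' m hmN i hiN him) (hv' m hmN i hiN him))) (hK i hiN)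
        · exact Subring.prod_mem _ (fun x hx => hu' x (hMN (Finset.mem_of_mem_erase hx)) i hiN
            (Finset.ne_of_mem_erase hx).symm)
        · refine Subring.prod_mem _ (fun x hx => ?_)
          have hx1 := Finset.mem_sdiff.mp (Finset.mem_of_mem_erase hx)
          exact hv' x hx1.1 i hiN (fun h => hx1.2 (h ▸ hiM))
      have hWv : ∀ i ∈ N, i ∉ M → i ≠ m → ∀ K, (∀ z ∈ N, K ∈ Lx z) →
          Φ (W * (u m * v m) * (g i * K)) = 0 := by
        intro i hiN hiM him K hK
        apply hΦ i hiN
        have hmem : i ∈ (N \ M).erase m :=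
          Finset.mem_erase.mpr ⟨him, Finset.mem_sdiff.mpr ⟨hiN, hiM⟩⟩
        have e1 : W * (u m * v m) * (g i * K) = H * ζ ^ M.card * (∏ x ∈ M, u x) *
            (∏ x ∈ ((N \ M).erase m).erase i, v x) * (u m * v m) * K := by
          rw [hW, ← Finset.mul_prod_erase ((N \ M).erase m) v hmem]
          linear_combination (H * ζ ^ M.card * (∏ x ∈ M, u x) *
            (∏ x ∈ ((N \ M).erase m).erase i, v x) * (u m * v m) * K) * hv i hiN
        rw [e1]
        refine Subring.mul_mem _ (Subring.mul_mem _ (Subring.mul_mem _ (Subring.mul_mem _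
          (Subring.mul_mem _ (hH i hiN) (Subring.pow_mem _ (hζ i hiN) _)) ?_) ?_)
          (Subring.mul_mem _ (hu' m hmN i hiN him) (hv' m hmN i hiN him))) (hK i hiN)
        · exact Subring.prod_mem _ (fun x hx => hu' x (hMN hx) i hiN (fun h => hiM (h ▸ hx)))
        · refine Subring.prod_mem _ (fun x hx => ?_)
          have hx1 := Finset.mem_sdiff.mp (Finset.mem_of_mem_erase (Finset.mem_of_mem_erase hx))
          exact hv' x hx1.1 i hiN (Finset.ne_of_mem_erase hx).symm
      by_cases hym : y = m
      · subst hym
        rw [sub_self, mul_zero, mul_zero, map_zero]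
      by_cases hyM : y ∈ M
      · -- the row `y` is a unit vector
        have e1 : (B.updateRow m (Pi.single y 1)).det = 0 := by
          apply Matrix.det_zero_of_row_eq (Ne.symm hym)
          rw [Matrix.updateRow_self, Matrix.updateRow_ne hym, hB, rowM_mem A hyM]
        rw [e1, mul_zero, zero_sub]
        have e2 : W * (u m * v m) * (A m y * -(f y * (B.updateRow m (Pi.single m 1)).det)) =
            W * (u m * v m) * (f y * -(A m y * (B.updateRow m (Pi.single m 1)).det)) := by ring
        rw [e2]
        refine hWu y hyN hyM _ (fun z hz => Subring.neg_mem _ (Subring.mul_mem _ (hA m y z hz)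
          (det_mem _ (hupd B m m z (fun i j => hrowmem M i j z hz)))))
      · -- Cramer
        have e1 := cramer_id B f' m y
        rw [hf'N m hmN, hf'N y hyN] at e1
        rw [e1, Finset.mul_sum, Finset.mul_sum, map_sum]
        refine Finset.sum_eq_zero (fun i hi => ?_)
        have him : i ≠ m := Finset.ne_of_mem_erase hi
        have hadj : ∀ z ∈ N, (B.updateRow m (Pi.single y 1)).adjugate m i ∈ Lx z := by
          intro z hz
          rw [Matrix.adjugate_apply]
          exact det_mem _ (hupd _ i m z (hupd B m y z (fun i j => hrowmem M i j z hz)))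
        by_cases hiN : i ∈ N
        · by_cases hiM : i ∈ M
          · have e2 : (B *ᵥ f') i = f i := by
              rw [← hf'N i hiN]
              simp [Matrix.mulVec, hB, rowM_mem A hiM]
            rw [e2]
            have e3 : W * (u m * v m) * (A m y * (f i *
                (B.updateRow m (Pi.single y 1)).adjugate m i)) = W * (u m * v m) * (f i *
                (A m y * (B.updateRow m (Pi.single y 1)).adjugate m i)) := by ring
            rw [e3]
            exact hWu i hiN hiM _ (fun z hz => Subring.mul_mem _ (hA m y z hz) (hadj z hz))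
          · have e2 : (B *ᵥ f') i = ζ * g i := by
              rw [hrel i hiN]
              simp only [Matrix.mulVec, dotProduct, hB, rowM_not A hiM]
              symm
              rw [← Finset.sum_subset (Finset.subset_univ N)]
              · exact Finset.sum_congr rfl (fun z hz => by rw [hf'N z hz])
              · intro z _ hz
                rw [hf'n z hz, mul_zero]
            rw [e2]
            have e3 : W * (u m * v m) * (A m y * (ζ * g i *
                (B.updateRow m (Pi.single y 1)).adjugate m i)) = W * (u m * v m) * (g i *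
                (ζ * (A m y * (B.updateRow m (Pi.single y 1)).adjugate m i))) := by ring
            rw [e3]
            exact hWv i hiN hiM him _ (fun z hz => Subring.mul_mem _ (hζ z hz)
              (Subring.mul_mem _ (hA m y z hz) (hadj z hz)))
        · have e2 : (B *ᵥ f') i = 0 := by
            rw [← hf'n i hiN]
            have hiM : i ∉ M := fun h => hiN (hMN h)
            simp [Matrix.mulVec, hB, rowM_not A hiM, hAN i hiN]
          rw [e2, zero_mul, mul_zero, mul_zero, map_zero]
    have e0 : Φ (P M) - Φ (P (insert m M)) = 0 := by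
      rw [← map_sub, hdiff, map_sum]
      exact Finset.sum_eq_zero hzero
    exact (sub_eq_zero.mp e0).symm
  have all : ∀ M : Finset I, M ⊆ N → Φ (P M) = Φ (P ∅) := by
    intro M
    induction M using Finset.induction_on with
    | empty => intro _; rfl
    | insert m M hm ih =>
      intro hMN
      rw [step M (fun z hz => hMN (Finset.mem_insert_of_mem hz)) m
        (hMN (Finset.mem_insert_self m M)) hm]
      exact ih (fun z hz => hMN (Finset.mem_insert_of_mem hz))
  have h0 : P ∅ = H * A.det * ∏ x ∈ N, v x := by
    simp only [P]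
    have : rowM A ∅ = A := by
      funext i
      exact rowM_not A (Finset.notMem_empty i)
    rw [this, Finset.card_empty, pow_zero, Finset.prod_empty, Finset.sdiff_empty]
    ring
  have h1 : P N = H * ζ ^ N.card * ∏ x ∈ N, u x := by
    simp only [P]
    have : rowM A N = 1 := by
      funext i
      by_cases hi : i ∈ N
      · rw [rowM_mem A hi]
        funext j
        rw [Matrix.one_apply, Pi.single_apply]
        by_cases h : i = j
        · rw [if_pos h, if_pos h.symm]
        · rw [if_neg h, if_neg (Ne.symm h)]
      · rw [rowM_not A hi, hAN i hi]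
        funext j
        rw [Matrix.one_apply, Pi.single_apply]
        by_cases h : i = j
        · rw [if_pos h, if_pos h.symm]
        · rw [if_neg h, if_neg (Ne.symm h)]
    rw [this, Matrix.det_one, Finset.sdiff_self, Finset.prod_empty]
    ring
  rw [← h0, ← h1, all N (Finset.Subset.refl N)]

end

end Pool.Agent.H10.KAC
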