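import Pool.Agent.H10.KAC.LLRun
import Pool.Agent.H10.KAC.TransLaw

/-!
Run lemma, module 9: functionals with columns `D_{x,l}`, `x ∈ N`: vanishing on ideals and transport between two levels.
-/

set_option autoImplicit false

namespace Pool.Agent.H10.KAC

open scoped BigOperators
open Pool.Agent.H46.KA Pool.Agent.H27.KAC

variable {I : Type} [Fintype I] [DecidableEq I]

/-- scaling all columns. -/
theorem CTd_scale (γ : I → ℚ) (F : LL I) (s : I → LL I) (c : I → Fm I) :
    CTd γ F (fun i l => s i * c i l) = CTd γ (F * ∏ i, s i) c := by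
  unfold CTd
  have h : (cM (fun i l => s i * c i l)).det = (∏ i, s i) * (cM c).det := by
    rw [← Matrix.det_mul_row]
    rfl
  rw [h, mul_assoc]

/-- scaling the columns in `N`. -/
theorem CTd_scaleN (γ : I → ℚ) (F : LL I) (N : Finset I) (s : I → LL I) (c w : I → Fm I) :
    CTd γ F (fun i => if i ∈ N then (fun l => s i * c i l) else w i) =
      CTd γ (F * ∏ i ∈ N, s i) (fun i => if i ∈ N then c i else w i) := by
  have h1 : (fun i => if i ∈ N then (fun l => s i * c i l) else w i) =
      fun i l => (if i ∈ N then s i else 1) * (if i ∈ N then c i else w i) l := by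
    funext i l
    by_cases hi : i ∈ N
    · simp [hi]
    · simp [hi]
  rw [h1, CTd_scale γ F (fun i => if i ∈ N then s i else 1)]
  congr 2
  rw [Finset.prod_ite_mem, Finset.univ_inter]

/-- multiplication by monomials in the series variables. -/
theorem CTd_shift (γ : I → ℚ) (n : I → ℕ) (s : Finset I) (F : LL I) (c : I → Fm I) :
    CTd (fun i => γ i + if i ∈ s then (n i : ℚ) else 0) ((∏ x ∈ s, MvPowerSeries.X x ^ n x) * F) c =
      CTd γ F c := by
  induction s using Finset.induction_on with
  | empty =>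
    simp
  | insert x s hx ih =>
    rw [Finset.prod_insert hx, mul_assoc, ← ih,
      ← CTd_X_pow (fun i => γ i + if i ∈ s then (n i : ℚ) else 0) x (n x)]
    congr 1
    funext i
    by_cases h : i = x
    · subst h
      simp [hx]
    · simp [h]

section

variable {a : I → I → ℕ} {N : Finset I} (H : Hyp a N)

/-- columns `D_{x,l}` for `x ∈ N`, `w` outside. -/
noncomputable def colN (a : I → I → ℕ) (N : Finset I) (l : ℕ) (w : I → Fm I) : I → Fm I :=
  fun i => if i ∈ N then Df a i l else w i

/-- columns `d f_x` for `x ∈ N`, `w` outside. -/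
noncomputable def cold (N : Finset I) (f : I → LL I) (w : I → Fm I) : I → Fm I :=
  fun i => if i ∈ N then (fun l => th l (f i)) else w i

/-- forms regular in all directions of `N`. -/
def RFN (N : Finset I) (w : I → Fm I) : Prop := ∀ i, ∀ x ∈ N, RF x (w i)

/-- outer forms regular in all directions of `N`. -/
def RFo (N : Finset I) (w : I → Fm I) : Prop := ∀ i, i ∉ N → ∀ x ∈ N, RF x (w i)

theorem Df_eq (i : I) (k : ℕ) (l : I) : Df a i k l = Qp a i k (-1) * th l (Qp a i k 1) := by
  rw [th_Qp, qC_one, one_mul, ← mul_assoc, Qp_neg_mul, one_mul]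

/-- the functional in terms of `dQ`. -/
theorem colN_eq (γ : I → ℚ) (F : LL I) (l : ℕ) (w : I → Fm I) :
    CTd γ F (colN a N l w) =
      CTd γ (F * ∏ x ∈ N, Qp a x l (-1)) (cold N (fun x => Qp a x l 1) w) := by
  unfold cold
  rw [← CTd_scaleN γ F N (fun i => Qp a i l (-1))]
  congr 1
  unfold colN
  funext i
  by_cases hi : i ∈ N
  · rw [if_pos hi, if_pos hi]
    funext m
    exact Df_eq i l m
  · rw [if_neg hi, if_neg hi]

include H in
theorem RFN_cold (f : I → LL I) (hf : ∀ x ∈ N, f x ∈ OO N) (w : I → Fm I) (hw : RFo N w) :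
    RFN N (cold N f w) := by
  intro i x hx
  unfold cold
  by_cases hi : i ∈ N
  · rw [if_pos hi]
    exact RF_th (hf i hi x hx)
  · rw [if_neg hi]
    exact hw i hi x hx

include H in
/-- `G Q_{m,l} / ∏ Q_{x,l}` is killed. -/
theorem kill_one (γ : I → ℚ) (l : ℕ) (m : I) (hm : m ∈ N) {G : LL I} (hG : G ∈ OO N)
    {c : I → Fm I} (hc : RFN N c) :
    CTd γ (G * Qp a m l 1 * ∏ x ∈ N, Qp a x l (-1)) c = 0 := by
  have h1 : G * Qp a m l 1 * ∏ x ∈ N, Qp a x l (-1) = G * ∏ x ∈ N.erase m, Qp a x l (-1) := by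
    rw [← Finset.mul_prod_erase N _ hm]
    have := Qp_neg_mul a m l 1
    linear_combination (G * ∏ x ∈ N.erase m, Qp a x l (-1)) * this
  rw [h1]
  apply fact2 m γ _ _ c (fun i => hc i m hm)
  refine Rg_mul (hG m hm) (Rg_prod _ _ (fun x hx => ?_))
  exact Rg_Qp_ne a H.s m (H.l m hm) x (Finset.ne_of_mem_erase hx) l (-1)

/-- the ideal version. -/
theorem kill_ideal (γ : I → ℚ) (l : ℕ) {P : OO N} (hP : P ∈ Jo H l) {G : LL I} (hG : G ∈ OO N)
    {c : I → Fm I} (hc : RFN N c) :
    CTd γ (G * P * ∏ x ∈ N, Qp a x l (-1)) c = 0 := by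
  unfold Jo at hP
  rw [Ideal.span, Submodule.mem_span_range_iff_exists_fun] at hP
  obtain ⟨B, hB⟩ := hP
  have h1 : (P : LL I) = ∑ y : {x // x ∈ N}, (B y : LL I) * Qp a y.1 l 1 := by
    rw [← hB, OO_coe_sum]
    rfl
  have h2 : G * P * ∏ x ∈ N, Qp a x l (-1) =
      ∑ y : {x // x ∈ N}, (G * B y) * Qp a y.1 l 1 * ∏ x ∈ N, Qp a x l (-1) := by
    rw [h1, Finset.mul_sum, Finset.sum_mul]
    refine Finset.sum_congr rfl (fun y _ => by ring)
  rw [h2, CTd_sum]
  exact Finset.sum_eq_zero (fun y _ => kill_one H γ l y.1 y.2 (Subring.mul_mem _ hG (B y).2) hc)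

/-- the product of the `Q_{x,l}`. -/
noncomputable def zo (a : I → I → ℕ) (N : Finset I) (l : ℕ) : LL I := ∏ x ∈ N, Qp a x l 1

include H in
theorem zo_mem (l : ℕ) : zo a N l ∈ OO N := Subring.prod_mem _ (fun x _ => OO_Qp1 H x l)

theorem So_val (l : ℕ) : (So H l : LL I) = zo a N l * ∏ x ∈ N, MvPowerSeries.X x := by
  unfold So zo
  rw [Subring.coe_mul, OO_coe_prod, OO_coe_prod]
  rfl

/-- the ideal version with a power of `So`. -/
theorem kill_ideal' (γ : I → ℚ) (m l M : ℕ) {P : OO N} (hP : So H m ^ M * P ∈ Jo H l) {G : LL I}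
    (hG : G ∈ OO N) {c : I → Fm I} (hc : RFN N c) :
    CTd γ (G * zo a N m ^ M * P * ∏ x ∈ N, Qp a x l (-1)) c = 0 := by
  rw [← CTd_shift γ (fun _ => M) N]
  have h1 : (∏ x ∈ N, MvPowerSeries.X x ^ M : LL I) *
      (G * zo a N m ^ M * P * ∏ x ∈ N, Qp a x l (-1)) =
      G * ((So H m ^ M * P : OO N) : LL I) * ∏ x ∈ N, Qp a x l (-1) := by
    rw [Subring.coe_mul, Subring.coe_pow, So_val, Finset.prod_pow]
    ring
  rw [h1]
  exact kill_ideal H _ l hP hG hc

/-- vanishing of the functional at level `l`. -/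
theorem kill_colN (γ : I → ℚ) (m l M : ℕ) {P : OO N} (hP : So H m ^ M * P ∈ Jo H l) {G : LL I}
    (hG : G ∈ OO N) {w : I → Fm I} (hw : RFo N w) :
    CTd γ (G * zo a N m ^ M * P) (colN a N l w) = 0 := by
  rw [colN_eq]
  exact kill_ideal' H γ m l M hP hG
    (RFN_cold H _ (fun x _ => OO_Qp1 H x l) w hw)

/-- the subring of series regular in one direction. -/
def RgS (y : I) : Subring (LL I) where
  carrier := {F | Rg y F}
  mul_mem' := fun ha hb => Rg_mul ha hb
  one_mem' := Rg_one y
  add_mem' := fun ha hb => Rg_add ha hb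
  zero_mem' := Rg_zero y
  neg_mem' := fun ha => Rg_neg ha

/-- `CT` against a fixed series, as an additive map. -/
noncomputable def CTW (γ : I → ℚ) (W : LL I) : LL I →+ ℚ where
  toFun := fun F => CT γ (F * W)
  map_zero' := by rw [zero_mul, CT_zero]
  map_add' := fun F G => by rw [add_mul, CT_add]

/-- Transport of the functional from level `l1` to level `l2`. -/
theorem transport (γ : I → ℚ) (m1 m2 l1 l2 M : ℕ)
    (h12 : ∀ x ∈ N, So H m1 ^ M * Qo H x l2 ∈ Jo H l1)
    (h21 : ∀ x ∈ N, So H m2 ^ M * Qo H x l1 ∈ Jo H l2)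
    {G : LL I} (hG : G ∈ OO N) {w : I → Fm I} (hw : RFo N w) :
    CTd γ (G * zo a N m2 ^ M * (zo a N m1 ^ M) ^ N.card) (colN a N l1 w) =
      CTd γ (G * zo a N m2 ^ M * (zo a N m1 ^ M) ^ N.card) (colN a N l2 w) := by
  classical
  -- it is enough to prove it with `So` instead of `zo`
  set ζ : LL I := ((So H m1 ^ M : OO N) : LL I) with hζ
  have hζv : ζ = zo a N m1 ^ M * ∏ x ∈ N, MvPowerSeries.X x ^ M := by
    rw [hζ, Subring.coe_pow, So_val, mul_pow, Finset.prod_pow]
  have hζO : ζ ∈ OO N := (So H m1 ^ M : OO N).2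
  set H' : LL I := G * zo a N m2 ^ M with hH'
  have hH'O : H' ∈ OO N := Subring.mul_mem _ hG (Subring.pow_mem _ (zo_mem H m2) M)
  -- the matrix
  have hB : ∀ x ∈ N, ∃ B : {y // y ∈ N} → OO N, ∑ y : {y // y ∈ N}, B y • Qo H y.1 l1 =
      So H m1 ^ M * Qo H x l2 := by
    intro x hx
    have := h12 x hx
    unfold Jo at this
    rwa [Ideal.span, Submodule.mem_span_range_iff_exists_fun] at this
  choose! B hB using hB
  let A : Matrix I I (LL I) := fun i j =>
    if hi : i ∈ N then (if hj : j ∈ N then (B i ⟨j, hj⟩ : LL I) else 0)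
    else (Pi.single i 1 : I → LL I) j
  have hAO : ∀ i j, A i j ∈ OO N := by
    intro i j
    simp only [A]
    split_ifs with hi hj
    · exact (B i ⟨j, hj⟩).2
    · exact Subring.zero_mem _
    · by_cases hj : j = i
      · subst hj
        rw [Pi.single_eq_same]
        exact Subring.one_mem _
      · rw [Pi.single_eq_of_ne hj]
        exact Subring.zero_mem _
  have hAn : ∀ i, i ∉ N → A i = Pi.single i 1 := by
    intro i hi
    funext j
    simp only [A, dif_neg hi]
  have hAN : ∀ i ∈ N, ∀ j, j ∉ N → A i j = 0 := by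
    intro i hi j hj
    simp only [A, dif_pos hi, dif_neg hj]
  have hrel : ∀ x ∈ N, ζ * Qp a x l2 1 = ∑ y ∈ N, A x y * Qp a y l1 1 := by
    intro x hx
    have h1 := congrArg (Subtype.val) (hB x hx)
    rw [OO_coe_sum] at h1
    have h2 : ((So H m1 ^ M * Qo H x l2 : OO N) : LL I) = ζ * Qp a x l2 1 := rfl
    rw [h2] at h1
    rw [← h1, ← Finset.sum_coe_sort N (fun y => A x y * Qp a y l1 1)]
    refine Finset.sum_congr rfl (fun y _ => ?_)
    have h3 : A x y.1 = B x y := by
      simp only [A, dif_pos hx, dif_pos y.2]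
    rw [h3]
    rfl
  -- the transformation law
  set W : LL I := (cM (cold N (fun x => Qp a x l1 1) w)).det with hW
  have hcold1 : RFN N (cold N (fun x => Qp a x l1 1) w) :=
    RFN_cold H _ (fun x _ => OO_Qp1 H x l1) w hw
  have hcold2 : RFN N (cold N (fun x => Qp a x l2 1) w) :=
    RFN_cold H _ (fun x _ => OO_Qp1 H x l2) w hw
  have key : ∀ γ' : I → ℚ, CTd γ' (H' * A.det * ∏ x ∈ N, Qp a x l2 (-1))
        (cold N (fun x => Qp a x l1 1) w) =
      CTd γ' (H' * ζ ^ N.card * ∏ x ∈ N, Qp a x l1 (-1)) (cold N (fun x => Qp a x l1 1) w) := by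
    intro γ'
    refine trans_law A N RgS (CTW γ' W) ?_ (f := fun x => Qp a x l1 1)
      (g := fun x => Qp a x l2 1) (u := fun x => Qp a x l1 (-1)) (v := fun x => Qp a x l2 (-1))
      (ζ := ζ) (H := H') ?_ ?_ ?_ ?_ ?_ ?_ ?_ hAn hAN hrel
    · intro x hx F hF
      exact fact2 x γ' F hF _ (fun i => hcold1 i x hx)
    · intro x _
      exact Qp_neg_mul a x l1 1
    · intro x _
      exact Qp_neg_mul a x l2 1
    · intro x _ y hy hyx
      exact Rg_Qp_ne a H.s y (H.l y hy) x (Ne.symm hyx) l1 (-1)
    · intro x _ y hy hyx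
      exact Rg_Qp_ne a H.s y (H.l y hy) x (Ne.symm hyx) l2 (-1)
    · intro i j y hy
      exact hAO i j y hy
    · intro y hy
      exact hζO y hy
    · intro y hy
      exact hH'O y hy
  -- columns `A df`
  let c1 : I → Fm I := fun i => if i ∈ N then
    (fun l => ∑ y ∈ N, A i y * th l (Qp a y l1 1)) else w i
  let c2 : I → Fm I := fun i => if i ∈ N then (fun l => ζ * th l (Qp a i l2 1)) else w i
  have hc1R : RFN N c1 := by
    intro i x hx
    by_cases hi : i ∈ N
    · simp only [c1, if_pos hi]
      exact RF_sum N _ (fun y _ => RF_smul (RF_th (OO_Qp1 H y l1 x hx)) (hAO i y x hx))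
    · simp only [c1, if_neg hi]
      exact hw i hi x hx
  have hc2R : RFN N c2 := by
    intro i x hx
    by_cases hi : i ∈ N
    · simp only [c2, if_pos hi]
      exact RF_smul (RF_th (OO_Qp1 H i l2 x hx)) (hζO x hx)
    · simp only [c2, if_neg hi]
      exact hw i hi x hx
  have hmat : ∀ (γ' : I → ℚ) (F : LL I), CTd γ' (F * A.det) (cold N (fun x => Qp a x l1 1) w) =
      CTd γ' F c1 := by
    intro γ' F
    unfold CTd
    have h1 : cM c1 = cM (cold N (fun x => Qp a x l1 1) w) * A.transpose := by
      apply Matrix.ext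
      intro l i
      rw [Matrix.mul_apply]
      simp only [Matrix.transpose_apply]
      by_cases hi : i ∈ N
      · have h2 : cM c1 l i = ∑ y ∈ N, A i y * th l (Qp a y l1 1) := by
          simp only [cM, Matrix.of_apply, c1, if_pos hi]
        rw [h2, ← Finset.sum_subset (Finset.subset_univ N)]
        · refine Finset.sum_congr rfl (fun y hy => ?_)
          simp only [cM, Matrix.of_apply, cold, if_pos hy]
          ring
        · intro y _ hy
          rw [hAN i hi y hy, mul_zero]
      · have h2 : cM c1 l i = w i l := by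
          simp only [cM, Matrix.of_apply, c1, if_neg hi]
        rw [h2, Finset.sum_eq_single i]
        · rw [hAn i hi, Pi.single_eq_same, mul_one]
          simp only [cM, Matrix.of_apply, cold, if_neg hi]
        · intro y _ hy
          rw [hAn i hi, Pi.single_eq_of_ne hy, mul_zero]
        · intro h
          exact absurd (Finset.mem_univ i) h
    rw [h1, Matrix.det_mul, Matrix.det_transpose]
    congr 1
    ring
  -- error terms
  have err1 : ∀ (γ' : I → ℚ) (m : I) (hm : m ∈ N) (c : I → Fm I), RFN N c →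
      CTd γ' (H' * (∏ x ∈ N, Qp a x l2 (-1)) * Qp a m l2 1) c = 0 := by
    intro γ' m hm c hc
    have h1 : H' * (∏ x ∈ N, Qp a x l2 (-1)) * Qp a m l2 1 =
        H' * Qp a m l2 1 * ∏ x ∈ N, Qp a x l2 (-1) := by ring
    rw [h1]
    exact kill_one H γ' l2 m hm hH'O hc
  have err2 : ∀ (γ' : I → ℚ) (m : I) (hm : m ∈ N) (c : I → Fm I), RFN N c →
      CTd γ' (H' * (∏ x ∈ N, Qp a x l2 (-1)) * Qp a m l1 1) c = 0 := by
    intro γ' m hm c hc
    have h1 : H' * (∏ x ∈ N, Qp a x l2 (-1)) * Qp a m l1 1 =
        G * zo a N m2 ^ M * ((Qo H m l1 : OO N) : LL I) * ∏ x ∈ N, Qp a x l2 (-1) := by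
      rw [hH']
      change _ = G * zo a N m2 ^ M * Qp a m l1 1 * ∏ x ∈ N, Qp a x l2 (-1)
      ring
    rw [h1]
    exact kill_ideal' H γ' m2 l2 M (h21 m hm) hG hc
  have hstep : ∀ (γ' : I → ℚ) (T : Finset I), T ⊆ N →
      CTd γ' (H' * ∏ x ∈ N, Qp a x l2 (-1)) (fun i => if i ∈ T then c2 i else c1 i) =
      CTd γ' (H' * ∏ x ∈ N, Qp a x l2 (-1)) c1 := by
    intro γ' T
    induction T using Finset.induction_on with
    | empty =>
      intro _
      simp
    | insert x T hx ih =>
      intro hTN
      have hxN : x ∈ N := hTN (Finset.mem_insert_self x T)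
      rw [← ih (fun z hz => hTN (Finset.mem_insert_of_mem hz))]
      set c : I → Fm I := fun i => if i ∈ T then c2 i else c1 i with hc
      have hcR : RFN N c := by
        intro i y hy
        simp only [hc]
        split_ifs
        · exact hc2R i y hy
        · exact hc1R i y hy
      have e1 : (fun i => if i ∈ insert x T then c2 i else c1 i) = Function.update c x (c2 x) := by
        funext i
        by_cases hi : i = x
        · subst hi
          rw [Function.update_self, if_pos (Finset.mem_insert_self i T)]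
        · rw [Function.update_of_ne hi]
          simp [hc, hi]
      have e2 : c = Function.update c x (c1 x) := by
        funext i
        by_cases hi : i = x
        · subst hi
          rw [Function.update_self]
          simp [hc, hx]
        · rw [Function.update_of_ne hi]
      -- `c1 x = c2 x + errors`
      have e3 : c1 x = fun l => c2 x l + ((fun l => Qp a x l2 1 * th l ζ) l +
          (fun l => ∑ y ∈ N, Qp a y l1 1 * (-th l (A x y))) l) := by
        funext l
        have h1 := congrArg (th l) (hrel x hxN)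
        rw [th_mul, th_sum] at h1
        have h2 : ∑ y ∈ N, th l (A x y * Qp a y l1 1) =
            ∑ y ∈ N, A x y * th l (Qp a y l1 1) +
            ∑ y ∈ N, Qp a y l1 1 * th l (A x y) := by
          rw [← Finset.sum_add_distrib]
          refine Finset.sum_congr rfl (fun y _ => ?_)
          rw [th_mul]
          ring
        have h3 : ∑ y ∈ N, Qp a y l1 1 * (-th l (A x y)) =
            -∑ y ∈ N, Qp a y l1 1 * th l (A x y) := by
          rw [← Finset.sum_neg_distrib]
          exact Finset.sum_congr rfl (fun y _ => by ring)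
        rw [h2] at h1
        simp only [c1, c2, if_pos hxN]
        rw [h3]
        linear_combination -h1
      rw [e1]
      conv_rhs => rw [e2, e3]
      rw [CTd_update_add, CTd_update_add, CTd_update_smul, CTd_update_sum]
      have hup : ∀ v : Fm I, (∀ y ∈ N, RF y v) → RFN N (Function.update c x v) := by
        intro v hv i y hy
        by_cases hi : i = x
        · subst hi
          rw [Function.update_self]
          exact hv y hy
        · rw [Function.update_of_ne hi]
          exact hcR i y hy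
      rw [err1 γ' x hxN _ (hup _ (fun y hy => RF_th (hζO y hy))), zero_add]
      rw [Finset.sum_eq_zero, add_zero]
      intro y hy
      rw [CTd_update_smul]
      apply err2 γ' y hy _ (hup _ _)
      intro z hz
      have h4 := RF_th (I := I) (x := z) (F := -A x y) (Rg_neg (hAO x y z hz))
      have h5 : (fun l => -th l (A x y)) = fun l => th l (-A x y) := by
        funext l
        rw [th_neg]
      rw [h5]
      exact h4
  have hall : ∀ γ' : I → ℚ, CTd γ' (H' * ζ ^ N.card) (colN a N l1 w) =
      CTd γ' (H' * ζ ^ N.card) (colN a N l2 w) := by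
    intro γ'
    rw [colN_eq, ← key γ']
    have h1 : H' * A.det * ∏ x ∈ N, Qp a x l2 (-1) =
        (H' * ∏ x ∈ N, Qp a x l2 (-1)) * A.det := by ring
    rw [h1, hmat, ← hstep γ' N (Finset.Subset.refl N)]
    have h2 : (fun i => if i ∈ N then c2 i else c1 i) =
        fun i => if i ∈ N then (fun l => ζ * (fun l => th l (Qp a i l2 1)) l) else w i := by
      funext i
      by_cases hi : i ∈ N
      · simp only [if_pos hi, c2]
      · simp only [if_neg hi, c1]
    rw [h2, CTd_scaleN γ' _ N (fun _ => ζ) (fun i l => th l (Qp a i l2 1)) w, colN_eq,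
      Finset.prod_const]
    unfold cold
    congr 1
    ring
  -- remove the series variables
  have hfin := hall (fun i => γ i + if i ∈ N then ((M * N.card : ℕ) : ℚ) else 0)
  have h3 : H' * ζ ^ N.card = (∏ x ∈ N, MvPowerSeries.X x ^ (M * N.card)) *
      (H' * (zo a N m1 ^ M) ^ N.card) := by
    rw [hζv, mul_pow, ← Finset.prod_pow]
    simp only [← pow_mul]
    ring
  rw [h3, CTd_shift γ (fun _ => M * N.card) N, CTd_shift γ (fun _ => M * N.card) N] at hfin
  exact hfin

end

end Pool.Agent.H10.KAC
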