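import Mathlib

/-!
Run lemma, module 1: fresh variables in a polynomial ring over the integers.

`Free i v`: the polynomial `v` does not involve the variable `i`.  If `α, β` are relatively prime, free of the
variable `i` and `v ≠ 0` is free of `i`, then `α + X i * β` is relatively prime to `v`.
-/

namespace Pool.Agent.H10.KAC

open scoped BigOperators
open MvPolynomial

variable {σ : Type} [DecidableEq σ]

/-- the substitution `X i ↦ T`. -/
noncomputable def th1 (i : σ) : MvPolynomial σ ℤ →+* Polynomial (MvPolynomial σ ℤ) :=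
  eval₂Hom (algebraMap ℤ (Polynomial (MvPolynomial σ ℤ)))
    (fun j => if j = i then Polynomial.X else Polynomial.C (X j))

/-- `v` does not involve the variable `i`. -/
def Free (i : σ) (v : MvPolynomial σ ℤ) : Prop := th1 i v = Polynomial.C v

theorem th1_X_self (i : σ) : th1 i (X i) = Polynomial.X := by
  simp [th1]

theorem th1_X_ne {i j : σ} (h : j ≠ i) : th1 i (X j) = Polynomial.C (X j) := by
  simp [th1, h]

theorem eval_th1 (i : σ) (v : MvPolynomial σ ℤ) : Polynomial.eval (X i) (th1 i v) = v := by
  have h : ((Polynomial.evalRingHom (X i : MvPolynomial σ ℤ)).comp (th1 i)) = RingHom.id _ := by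
    apply MvPolynomial.ringHom_ext
    · intro r
      simp
    · intro j
      by_cases hj : j = i
      · subst hj
        simp [th1_X_self]
      · simp [th1_X_ne hj]
  have := RingHom.congr_fun h v
  simpa using this

theorem Free.add {i : σ} {v w : MvPolynomial σ ℤ} (hv : Free i v) (hw : Free i w) :
    Free i (v + w) := by
  unfold Free at *
  rw [map_add, hv, hw, map_add]

theorem Free.sub {i : σ} {v w : MvPolynomial σ ℤ} (hv : Free i v) (hw : Free i w) :
    Free i (v - w) := by
  unfold Free at *
  rw [map_sub, hv, hw, map_sub]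

theorem Free.neg {i : σ} {v : MvPolynomial σ ℤ} (hv : Free i v) : Free i (-v) := by
  unfold Free at *
  rw [map_neg, hv, map_neg]

theorem Free.mul {i : σ} {v w : MvPolynomial σ ℤ} (hv : Free i v) (hw : Free i w) :
    Free i (v * w) := by
  unfold Free at *
  rw [map_mul, hv, hw, map_mul]

theorem Free.pow {i : σ} {v : MvPolynomial σ ℤ} (hv : Free i v) (n : ℕ) : Free i (v ^ n) := by
  unfold Free at *
  rw [map_pow, hv, map_pow]

theorem Free.zero (i : σ) : Free i (0 : MvPolynomial σ ℤ) := by
  unfold Free
  rw [map_zero, map_zero]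

theorem Free.one (i : σ) : Free i (1 : MvPolynomial σ ℤ) := by
  unfold Free
  rw [map_one, map_one]

theorem Free.prod {ι : Type} {i : σ} {s : Finset ι} {f : ι → MvPolynomial σ ℤ}
    (h : ∀ j ∈ s, Free i (f j)) : Free i (∏ j ∈ s, f j) := by
  unfold Free at *
  rw [map_prod, map_prod]
  exact Finset.prod_congr rfl h

theorem Free.X {i j : σ} (h : j ≠ i) : Free i (X j : MvPolynomial σ ℤ) := th1_X_ne h

theorem Free.of_dvd {i : σ} {d v : MvPolynomial σ ℤ} (hv : Free i v) (h0 : v ≠ 0) (hd : d ∣ v) :
    Free i d := by
  obtain ⟨e, he⟩ := hd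
  have h1 : th1 i d * th1 i e = Polynomial.C v := by
    rw [← map_mul, ← he]
    exact hv
  have h2 : (th1 i d * th1 i e) ≠ 0 := by
    rw [h1]
    exact fun h => h0 (Polynomial.C_eq_zero.mp h)
  have h3 : (th1 i d).natDegree + (th1 i e).natDegree = 0 := by
    rw [← Polynomial.natDegree_mul (left_ne_zero_of_mul h2) (right_ne_zero_of_mul h2), h1,
      Polynomial.natDegree_C]
  have h4 : (th1 i d).natDegree = 0 := by omega
  have h5 := Polynomial.eq_C_of_natDegree_eq_zero h4
  have h6 := eval_th1 i d
  rw [h5, Polynomial.eval_C] at h6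
  unfold Free
  rw [h5, h6]

/-- The fresh variable lemma. -/
theorem fresh {i : σ} {α β v : MvPolynomial σ ℤ} (hα : Free i α) (hβ : Free i β)
    (hr : IsRelPrime α β) (hv : Free i v) (h0 : v ≠ 0) : IsRelPrime (α + X i * β) v := by
  intro d hd1 hd2
  have hd := hv.of_dvd h0 hd2
  obtain ⟨e, he⟩ := hd1
  have h1 : Polynomial.C α + Polynomial.X * Polynomial.C β = Polynomial.C d * th1 i e := by
    have := congrArg (th1 i) he
    rw [map_add, map_mul, map_mul, th1_X_self, hα, hβ, hd] at this
    exact this
  have h2 : α = d * (th1 i e).eval 0 := by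
    have := congrArg (Polynomial.eval 0) h1
    simpa using this
  have h3 : α + β = d * (th1 i e).eval 1 := by
    have := congrArg (Polynomial.eval 1) h1
    simpa using this
  have h4 : d ∣ α := ⟨_, h2⟩
  have h5 : d ∣ β := by
    have : d ∣ (α + β) - α := dvd_sub ⟨_, h3⟩ h4
    simpa using this
  exact hr h4 h5

theorem fresh_ne {i : σ} {α β : MvPolynomial σ ℤ} (hα : Free i α) (hβ : Free i β)
    (h0 : β ≠ 0) : α + X i * β ≠ 0 := by
  intro he
  have h1 : Polynomial.C α + Polynomial.X * Polynomial.C β = 0 := by
    have := congrArg (th1 i) he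
    rw [map_add, map_mul, th1_X_self, hα, hβ, map_zero] at this
    exact this
  have h2 : α = 0 := by
    have := congrArg (Polynomial.eval 0) h1
    simpa using this
  have h3 : α + β = 0 := by
    have := congrArg (Polynomial.eval 1) h1
    simpa using this
  rw [h2, zero_add] at h3
  exact h0 h3

end Pool.Agent.H10.KAC
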