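import Pool.Agent.H10.KAC.Loc
import Pool.Agent.H46.KA.B3b
import Pool.Agent.H46.KA.B4b

/-!
Run lemma, module 7: the Q-system restricted to a set `N` of vertices, in the ring `OO N` of series regular in all
directions of `N`.
-/

set_option autoImplicit false

namespace Pool.Agent.H10.KAC

open scoped BigOperators
open Pool.Agent.H46.KA Pool.Agent.H27.KAC

variable {I : Type} [Fintype I] [DecidableEq I]

/-- series regular in all directions of `N`. -/
def OO (N : Finset I) : Subring (LL I) where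
  carrier := {F | ∀ x ∈ N, Rg x F}
  mul_mem' := fun ha hb x hx => Rg_mul (ha x hx) (hb x hx)
  one_mem' := fun x _ => Rg_one x
  add_mem' := fun ha hb x hx => Rg_add (ha x hx) (hb x hx)
  zero_mem' := fun x _ => Rg_zero x
  neg_mem' := fun ha x hx => Rg_neg (ha x hx)

theorem OO_coe_prod {N : Finset I} {ι : Type} (s : Finset ι) (f : ι → OO N) :
    ((∏ i ∈ s, f i : OO N) : LL I) = ∏ i ∈ s, (f i : LL I) :=
  map_prod (OO N).subtype f s

theorem OO_coe_sum {N : Finset I} {ι : Type} (s : Finset ι) (f : ι → OO N) :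
    ((∑ i ∈ s, f i : OO N) : LL I) = ∑ i ∈ s, (f i : LL I) :=
  map_sum (OO N).subtype f s

theorem OO_coe_sub {N : Finset I} (f g : OO N) : ((f - g : OO N) : LL I) = f - g :=
  map_sub (OO N).subtype f g

theorem mem_OO {N : Finset I} {F : LL I} : F ∈ OO N ↔ ∀ x ∈ N, Rg x F := Iff.rfl

section

variable (a : I → I → ℕ) (N : Finset I)

/-- standing hypotheses: symmetric, no loops in `N`. -/
structure Hyp : Prop where
  s : ∀ i j, a i j = a j i
  l : ∀ x ∈ N, a x x = 0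

end

section

variable {a : I → I → ℕ} {N : Finset I} (H : Hyp a N)

include H in
theorem OO_Qp (i : I) (l n : ℕ) : Qp a i l (n : ℚ) ∈ OO N := by
  intro x hx
  by_cases h : i = x
  · subst h
    exact Rg_Qp_self a H.s i (H.l i hx) l n
  · exact Rg_Qp_ne a H.s x (H.l x hx) i h l n

include H in
theorem OO_Qp1 (i : I) (l : ℕ) : Qp a i l 1 ∈ OO N := by
  have := OO_Qp H i l 1
  rwa [Nat.cast_one] at this

include H in
theorem OO_Qpo (i : I) (hi : i ∉ N) (l : ℕ) (α : ℚ) : Qp a i l α ∈ OO N := by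
  intro x hx
  exact Rg_Qp_ne a H.s x (H.l x hx) i (fun h => hi (h ▸ hx)) l α

theorem OO_X (i : I) : (MvPowerSeries.X i : LL I) ∈ OO N := fun x _ => Rg_X x i

theorem Qp_natPow (i : I) (l n : ℕ) : Qp a i l (n : ℚ) = Qp a i l 1 ^ n := by
  rw [← Qp_nat_mul, mul_one]

/-- `Q_{i,l}` as an element of `OO N`. -/
noncomputable def Qo (i : I) (l : ℕ) : OO N := ⟨Qp a i l 1, OO_Qp1 H i l⟩

/-- rational powers of outer `Q`. -/
noncomputable def Po (i : I) (l : ℕ) (α : ℚ) : OO N :=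
  if h : i ∉ N then ⟨Qp a i l α, OO_Qpo H i h l α⟩ else 1

/-- the series variables. -/
noncomputable def Xo (N : Finset I) (i : I) : OO N := ⟨MvPowerSeries.X i, OO_X i⟩

theorem Po_val (i : I) (h : i ∉ N) (l : ℕ) (α : ℚ) : (Po H i l α : LL I) = Qp a i l α := by
  unfold Po
  rw [dif_pos h]

theorem Po_add (i : I) (l : ℕ) (α β : ℚ) : Po H i l (α + β) = Po H i l α * Po H i l β := by
  by_cases h : i ∉ N
  · apply Subtype.ext
    rw [Subring.coe_mul, Po_val H i h, Po_val H i h, Po_val H i h, Qp_add]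
  · unfold Po
    rw [dif_neg h, dif_neg h, dif_neg h, one_mul]

theorem Po_zero (i : I) (l : ℕ) : Po H i l 0 = 1 := by
  by_cases h : i ∉ N
  · apply Subtype.ext
    rw [Po_val H i h, Qp_zero, Subring.coe_one]
  · unfold Po
    rw [dif_neg h]

theorem Po_neg (i : I) (l : ℕ) (α : ℚ) : Po H i l (-α) * Po H i l α = 1 := by
  rw [← Po_add, neg_add_cancel, Po_zero]

/-- outer units `c_{x,l}`. -/
noncomputable def co (x : I) (l : ℕ) : OO N := Xo N x ^ l * ∏ i ∈ Nᶜ, Po H i l (a x i)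

/-- ratios `c_{x,l+1} / c_{x,l}`. -/
noncomputable def rr (x : I) (l : ℕ) : OO N :=
  Xo N x * ∏ i ∈ Nᶜ, (Po H i (l + 1) (a x i) * Po H i l (-(a x i : ℚ)))

theorem co_zero (x : I) : co H x 0 = 1 := by
  unfold co
  rw [pow_zero, one_mul]
  refine Finset.prod_eq_one (fun i hi => ?_)
  have h : i ∉ N := Finset.mem_compl.mp hi
  apply Subtype.ext
  rw [Po_val H i h, Qp_level_zero, Subring.coe_one]

theorem co_succ (x : I) (l : ℕ) : co H x (l + 1) = co H x l * rr H x l := by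
  unfold co rr
  have h : ∏ i ∈ Nᶜ, Po H i (l + 1) (a x i) = (∏ i ∈ Nᶜ, Po H i l (a x i)) *
      ∏ i ∈ Nᶜ, (Po H i (l + 1) (a x i) * Po H i l (-(a x i : ℚ))) := by
    rw [← Finset.prod_mul_distrib]
    refine Finset.prod_congr rfl (fun i _ => ?_)
    have := Po_neg H i l (a x i)
    linear_combination (-Po H i (l + 1) (a x i)) * this
  rw [h, pow_succ]
  ring

/-- `Q_{x,n-1}` with the convention `Q_{x,-1} = 0`. -/
noncomputable def Fq (n : ℕ) (x : I) : OO N := match n with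
  | 0 => 0
  | n + 1 => Qo H x n

theorem Fq_rec (x : I) (hx : x ∈ N) (n : ℕ) :
    Fq H (n + 2) x * Fq H n x =
      Fq H (n + 1) x ^ 2 - co H x n * ∏ y ∈ N, Fq H (n + 1) y ^ a x y := by
  cases n with
  | zero =>
    rw [co_zero]
    simp only [Fq, Qo]
    apply Subtype.ext
    push_cast
    have : ∀ y, (Qp a y 0 1 : LL I) = 1 := fun y => Qp_level_zero a y 1
    simp [this]
  | succ n =>
    apply Subtype.ext
    have h1 := Qsys a H.s x n
    have h2 : (∏ j, Qp a j (n + 1) (a x j : ℚ) : LL I) =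
        (∏ j ∈ N, Qp a j (n + 1) (a x j : ℚ)) * ∏ j ∈ Nᶜ, Qp a j (n + 1) (a x j : ℚ) :=
      (Finset.prod_mul_prod_compl N _).symm
    have h3 : ((∏ i ∈ Nᶜ, Po H i (n + 1) (a x i) : OO N) : LL I) =
        ∏ j ∈ Nᶜ, Qp a j (n + 1) (a x j : ℚ) := by
      rw [OO_coe_prod]
      exact Finset.prod_congr rfl (fun i hi => Po_val H i (Finset.mem_compl.mp hi) _ _)
    have h4 : ((∏ y ∈ N, Fq H (n + 1 + 1) y ^ a x y : OO N) : LL I) =
        ∏ j ∈ N, Qp a j (n + 1) (a x j : ℚ) := by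
      rw [OO_coe_prod]
      refine Finset.prod_congr rfl (fun i _ => ?_)
      rw [Qp_natPow]
      rfl
    have h5 : (Qp a x (n + 1) 2 : LL I) = Qp a x (n + 1) 1 ^ 2 := by
      rw [← Qp_natPow]
      norm_num
    have h6 : ((Fq H (n + 1 + 2) x * Fq H (n + 1) x : OO N) : LL I) =
        Qp a x (n + 2) 1 * Qp a x n 1 := rfl
    have h7 : ((Fq H (n + 1 + 1) x : OO N) : LL I) = Qp a x (n + 1) 1 := rfl
    have h8 : ((Xo N x : OO N) : LL I) = MvPowerSeries.X x := rfl
    rw [h6, h1, h2, OO_coe_sub, Subring.coe_pow, h7, Subring.coe_mul, h4, h5]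
    unfold co
    rw [Subring.coe_mul, h3, Subring.coe_pow, h8]
    ring

theorem prod_one_sub {O : Type} [CommRing O] {ι : Type} (s : Finset ι) (Q : O) (e : ι → O)
    (n : ι → ℕ) : ∃ G, ∏ i ∈ s, (1 - Q * e i) ^ n i = 1 - Q * G := by
  classical
  induction s using Finset.induction_on with
  | empty => exact ⟨0, by simp⟩
  | insert i s hi ih =>
    obtain ⟨G, hG⟩ := ih
    have h1 : ∀ m : ℕ, ∃ G', (1 - Q * e i) ^ m = 1 - Q * G' := by
      intro m
      induction m with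
      | zero => exact ⟨0, by simp⟩
      | succ m ihm =>
        obtain ⟨G', hG'⟩ := ihm
        refine ⟨G' + e i - Q * (G' * e i), ?_⟩
        rw [pow_succ, hG']
        ring
    obtain ⟨G', hG'⟩ := h1 (n i)
    refine ⟨G' + G - Q * (G' * G), ?_⟩
    rw [Finset.prod_insert hi, hG, hG']
    ring

include H in
/-- `η_{i,l}` for an outer vertex `i` adjacent to `x ∈ N` is divisible by `Q_{x,l}`. -/
theorem eta_dvd (i : I) (hi : i ∉ N) (x : I) (hx : x ∈ N) (hxi : a x i ≠ 0) (l : ℕ) :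
    ∃ e ∈ OO N, eta a i l = Qp a x l 1 * e := by
  rw [eta_eq a H.s]
  have h1 : (∏ j, Qp a j l (a i j : ℚ) : LL I) = Qp a x l (a i x : ℚ) *
      ∏ j ∈ Finset.univ.erase x, Qp a j l (a i j : ℚ) :=
    (Finset.mul_prod_erase Finset.univ _ (Finset.mem_univ x)).symm
  have h2 : Qp a x l (a i x : ℚ) = Qp a x l 1 * Qp a x l ((a i x - 1 : ℕ) : ℚ) := by
    rw [← Qp_add]
    congr 1
    have : 1 ≤ a i x := by
      rw [H.s i x]
      omega
    rw [Nat.cast_sub this]
    ring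
  refine ⟨MvPowerSeries.X i ^ l * (Qp a x l ((a i x - 1 : ℕ) : ℚ) *
    (∏ j ∈ Finset.univ.erase x, Qp a j l (a i j : ℚ)) * Qp a i l (-2)), ?_, ?_⟩
  · refine Subring.mul_mem _ (Subring.pow_mem _ (OO_X i) _) (Subring.mul_mem _
      (Subring.mul_mem _ (OO_Qp H x l _) (Subring.prod_mem _ (fun j _ => OO_Qp H j l _)))
      (OO_Qpo H i hi l _))
  · rw [h1, h2]
    ring

theorem rr_succ (x : I) (hx : x ∈ N) (l : ℕ) :
    ∃ G : OO N, rr H x (l + 1) = rr H x l * (1 - Qo H x (l + 1) * G) := by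
  have h1 : ∀ i : I, ∃ e : OO N, i ∉ N → a x i ≠ 0 →
      (Po H i (l + 2) 1 * Po H i l 1 * Po H i (l + 1) (-2)) = 1 - Qo H x (l + 1) * e := by
    intro i
    by_cases hi : i ∈ N
    · exact ⟨0, fun h => absurd hi h⟩
    by_cases hxi : a x i = 0
    · exact ⟨0, fun _ h => absurd hxi h⟩
    obtain ⟨e, he, he2⟩ := eta_dvd H i hi x hx hxi (l + 1)
    refine ⟨⟨e, he⟩, fun _ _ => ?_⟩
    apply Subtype.ext
    have h2 := one_sub_eta a H.s i l
    rw [Subring.coe_mul, Subring.coe_mul, Po_val H i hi, Po_val H i hi, Po_val H i hi, ← h2, he2]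
    rfl
  choose e he using h1
  have hP : ∀ (i : I) (m : ℕ) (α : ℚ) (n : ℕ), Po H i m (α * n) = Po H i m α ^ n := by
    intro i m α n
    induction n with
    | zero => rw [Nat.cast_zero, mul_zero, Po_zero, pow_zero]
    | succ n ih =>
      rw [Nat.cast_succ, mul_add, mul_one, Po_add, ih, pow_succ]
  have h3 : ∏ i ∈ Nᶜ, (Po H i (l + 1 + 1) (a x i) * Po H i (l + 1) (-(a x i : ℚ))) =
      (∏ i ∈ Nᶜ, (Po H i (l + 1) (a x i) * Po H i l (-(a x i : ℚ)))) *
      ∏ i ∈ Nᶜ, (1 - Qo H x (l + 1) * e i) ^ a x i := by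
    rw [← Finset.prod_mul_distrib]
    refine Finset.prod_congr rfl (fun i hi => ?_)
    have hiN : i ∉ N := Finset.mem_compl.mp hi
    by_cases hxi : a x i = 0
    · rw [hxi]
      simp [Po_zero]
    · rw [← he i hiN hxi, mul_pow, mul_pow, ← hP, ← hP, ← hP]
      have e1 : Po H i (l + 1) (-2 * (a x i : ℚ)) =
          Po H i (l + 1) (-(a x i : ℚ)) * Po H i (l + 1) (-(a x i : ℚ)) := by
        rw [← Po_add]
        congr 1
        ring
      rw [e1, one_mul]
      have e2 := Po_neg H i (l + 1) (a x i)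
      have e3 := Po_neg H i l (a x i)
      have e4 : Po H i (l + 2) (a x i : ℚ) = Po H i (l + 1 + 1) (a x i) := rfl
      rw [e4]
      linear_combination (-(Po H i (l + 1 + 1) (a x i) * Po H i (l + 1) (-(a x i : ℚ)))) *
        (e2 + e3 * Po H i (l + 1) (a x i) * Po H i (l + 1) (-(a x i : ℚ)))
  obtain ⟨G, hG⟩ := prod_one_sub Nᶜ (Qo H x (l + 1)) e (fun i => a x i)
  refine ⟨G, ?_⟩
  unfold rr
  rw [h3, hG]
  ring

end

end Pool.Agent.H10.KAC
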