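import Pool.Agent.H10.KAC.LLBase

/-!
Run lemma, module 8: the run lemma in the ring `OO N`.
-/

set_option autoImplicit false

namespace Pool.Agent.H10.KAC

open scoped BigOperators
open Pool.Agent.H46.KA Pool.Agent.H27.KAC

variable {I : Type} [Fintype I] [DecidableEq I]

/-- the restricted adjacency matrix. -/
def aN (a : I → I → ℕ) (N : Finset I) : {x // x ∈ N} → {x // x ∈ N} → ℕ := fun x y => a x.1 y.1

section

variable {a : I → I → ℕ} {N : Finset I} (H : Hyp a N)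

/-- the element to be inverted. -/
noncomputable def So (l : ℕ) : OO N := (∏ x ∈ N, Qo H x l) * ∏ x ∈ N, Xo N x

/-- the ideal generated by `Q_{x,l}`, `x ∈ N`. -/
noncomputable def Jo (l : ℕ) : Ideal (OO N) :=
  Ideal.span (Set.range (fun y : {x // x ∈ N} => Qo H y.1 l))

theorem Qo_nz (x : I) (l : ℕ) : Qo H x l ∈ nonZeroDivisors (OO N) := by
  rw [mem_nonZeroDivisors_iff_right]
  intro z hz
  apply Subtype.ext
  have h1 : (z : LL I) * Qp a x l 1 = 0 := congrArg Subtype.val hz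
  have h2 : (Qp a x l (-1) : LL I) * Qp a x l 1 = 1 := Qp_neg_mul a x l 1
  calc (z : LL I) = z * (Qp a x l (-1) * Qp a x l 1) := by rw [h2, mul_one]
    _ = (z * Qp a x l 1) * Qp a x l (-1) := by ring
    _ = 0 := by rw [h1, zero_mul]

theorem Qo_dvd_So (x : I) (hx : x ∈ N) (l : ℕ) : Qo H x l ∣ So H l ^ 1 := by
  rw [pow_one]
  exact (Finset.dvd_prod_of_mem (fun x => Qo H x l) hx).mul_right _

theorem Xo_dvd_So (x : I) (hx : x ∈ N) (l : ℕ) : Xo N x ∣ So H l ^ 1 := by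
  rw [pow_one]
  exact (Finset.dvd_prod_of_mem (fun x => Xo N x) hx).mul_left _

theorem rr_dvd (x : I) (l : ℕ) : rr H x l ∣ Xo N x := by
  unfold rr
  refine ⟨∏ i ∈ Nᶜ, (Po H i (l + 1) (-(a x i : ℚ)) * Po H i l (a x i)), ?_⟩
  rw [mul_assoc, ← Finset.prod_mul_distrib, Finset.prod_eq_one, mul_one]
  intro i _
  have e1 := Po_neg H i (l + 1) (a x i)
  have e2 := Po_neg H i l (a x i)
  calc Po H i (l + 1) (a x i) * Po H i l (-(a x i : ℚ)) *
        (Po H i (l + 1) (-(a x i : ℚ)) * Po H i l (a x i))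
      = (Po H i (l + 1) (-(a x i : ℚ)) * Po H i (l + 1) (a x i)) *
        (Po H i l (-(a x i : ℚ)) * Po H i l (a x i)) := by ring
    _ = 1 := by rw [e1, e2, one_mul]

theorem rr_unit (x : I) (hx : x ∈ N) (m l : ℕ) : IsUnit (lm (So H m) (rr H x l)) :=
  lm_unit (So H m) 1 ((rr_dvd H x l).trans (Xo_dvd_So H x hx m))

/-- the forward system. -/
theorem fwd (h b : ℕ) : ∃ g, RSys (aN a N) h (LA (So H b))
    (fun k x => lm (So H b) (Fq H (b + k) x.1))
    (fun k x => lm (So H b) (co H x.1 (b + k - 1)))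
    (fun k x => lm (So H b) (rr H x.1 (b + k - 1))) g := by
  choose G hG using fun (l : ℕ) (x : {x // x ∈ N}) => rr_succ H x.1 x.2 l
  refine ⟨fun k x => lm (So H b) (-(rr H x.1 (b + k) * G (b + k) x)), ?_⟩
  constructor
  · intro x
    exact lm_unit (So H b) 1 (Qo_dvd_So H x.1 x.2 b)
  · intro k x hk1 _
    apply lm_nz
    obtain ⟨d, rfl⟩ : ∃ d, k = d + 1 := ⟨k - 1, by omega⟩
    exact Qo_nz H x.1 (b + d)
  · intro k x _
    have h1 := Fq_rec H x.1 x.2 (b + k)
    have h2 : ∏ y ∈ N, Fq H (b + k + 1) y ^ a x.1 y =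
        ∏ y : {x // x ∈ N}, Fq H (b + k + 1) y.1 ^ a x.1 y.1 :=
      (Finset.prod_coe_sort N (fun y => Fq H (b + k + 1) y ^ a x.1 y)).symm
    rw [h2] at h1
    have h3 := congrArg (lm (So H b)) h1
    rw [map_mul, map_sub, map_mul, map_pow, map_prod] at h3
    simp only [map_pow] at h3
    exact h3
  · intro k x _
    change lm (So H b) (co H x.1 (b + k + 1)) = _ * _
    rw [co_succ, map_mul]
    rfl
  · intro k x _
    change lm (So H b) (rr H x.1 (b + k + 1)) = lm (So H b) (rr H x.1 (b + k)) +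
      lm (So H b) (Qo H x.1 (b + k + 1)) * lm (So H b) (-(rr H x.1 (b + k) * G (b + k) x))
    rw [hG (b + k) x, ← map_mul, ← map_add]
    congr 1
    ring

/-- the backward system. -/
theorem bwd (h K : ℕ) (hK : h ≤ K) : ∃ r g, RSys (aN a N) h (LA (So H K))
    (fun k x => lm (So H K) (Fq H (K + 2 - k) x.1))
    (fun k x => lm (So H K) (co H x.1 (K + 1 - k))) r g ∧
    ∀ z, lm (So H K) (rr H z.1 (K - 1)) * r 1 z = 1 := by
  choose G hG using fun (l : ℕ) (x : {x // x ∈ N}) => rr_succ H x.1 x.2 l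
  choose ri hri using fun (l : ℕ) (x : {x // x ∈ N}) => (rr_unit H x.1 x.2 K l).exists_right_inv
  refine ⟨fun k x => ri (K - k) x, fun k x => -(ri (K - k - 1) x *
    lm (So H K) (G (K - k - 2) x)), ?_, fun z => hri (K - 1) z⟩
  constructor
  · intro x
    have e : K + 2 - 1 = K + 1 := by omega
    rw [e]
    exact lm_unit (So H K) 1 (Qo_dvd_So H x.1 x.2 K)
  · intro k x hk1 hk2
    apply lm_nz
    obtain ⟨d, hd⟩ : ∃ d, K + 2 - k = d + 1 := ⟨K + 1 - k, by omega⟩
    rw [hd]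
    exact Qo_nz H x.1 d
  · intro k x hk
    obtain ⟨n, hn⟩ : ∃ n, K = n + k := ⟨K - k, by omega⟩
    have e1 : K + 2 - (k + 2) = n := by omega
    have e2 : K + 2 - k = n + 2 := by omega
    have e3 : K + 2 - (k + 1) = n + 1 := by omega
    have e4 : K + 1 - (k + 1) = n := by omega
    rw [e1, e2, e3, e4]
    have h1 := Fq_rec H x.1 x.2 n
    have h2 : ∏ y ∈ N, Fq H (n + 1) y ^ a x.1 y =
        ∏ y : {x // x ∈ N}, Fq H (n + 1) y.1 ^ a x.1 y.1 :=
      (Finset.prod_coe_sort N (fun y => Fq H (n + 1) y ^ a x.1 y)).symm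
    rw [h2] at h1
    have h3 := congrArg (lm (So H K)) h1
    rw [map_mul, map_sub, map_mul, map_pow, map_prod] at h3
    simp only [map_pow] at h3
    rw [mul_comm]
    exact h3
  · intro k x hk
    obtain ⟨n, hn⟩ : ∃ n, K = n + k + 1 := ⟨K - k - 1, by omega⟩
    have e1 : K + 1 - (k + 2) = n := by omega
    have e2 : K + 1 - (k + 1) = n + 1 := by omega
    have e3 : K - (k + 1) = n := by omega
    simp only [e1, e2, e3]
    rw [co_succ, map_mul, mul_assoc, hri n x, mul_one]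
  · intro k x hk
    obtain ⟨n, hn⟩ : ∃ n, K = n + k + 2 := ⟨K - k - 2, by omega⟩
    have e1 : K - (k + 2) = n := by omega
    have e2 : K - (k + 1) = n + 1 := by omega
    have e3 : K + 2 - (k + 2) = n + 1 + 1 := by omega
    have e4 : K - k - 1 = n + 1 := by omega
    have e5 : K - k - 2 = n := by omega
    simp only [e1, e2, e3, e4, e5]
    have h1 := hri n x
    have h2 := hri (n + 1) x
    have h3 := congrArg (lm (So H K)) (hG n x)
    rw [map_mul, map_sub, map_mul, map_one] at h3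
    change ri n x = ri (n + 1) x + lm (So H K) (Qo H x.1 (n + 1)) * -(ri (n + 1) x *
      lm (So H K) (G n x))
    -- `ri n = ri n * (rr (n+1) * ri (n+1)) = ri (n+1) * (1 - Q G)`
    calc ri n x = ri n x * (lm (So H K) (rr H x.1 (n + 1)) * ri (n + 1) x) := by
          rw [h2, mul_one]
      _ = (lm (So H K) (rr H x.1 n) * ri n x) *
          ((1 - lm (So H K) (Qo H x.1 (n + 1)) * lm (So H K) (G n x)) * ri (n + 1) x) := by
          rw [h3]
          ring
      _ = _ := by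
          rw [h1]
          ring

/-- The run lemma in `OO N`. -/
theorem LL_run {h : ℕ} {o : ℕ → {x // x ∈ N} → ℕ} (hk : Knit (aN a N) h o) :
    ∃ (ε : I → ℤ) (R : I → I → ℕ),
      (∀ x, ε x = 1 ∨ ε x = -1) ∧
      (∀ x ∈ N, ∏ y ∈ N, ε y ^ a x y = 1) ∧
      (∀ x (hx : x ∈ N), ε x = sg (aN a N) h ⟨x, hx⟩) ∧
      (∀ x ∈ N, ∀ z ∈ N, 2 * R x z = (if z = x then h else 0) + ∑ y ∈ N, a x y * R y z) ∧
      (∀ b : ℕ, ∃ M : ℕ,
        (∀ x ∈ N, ∀ l, b < l → l < b + h → So H b ^ M * Qo H x l ∈ Jo H (b + 1)) ∧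
        (∀ x ∈ N, So H b ^ M * (Qo H x (b + h) -
          (ε x : OO N) * Qo H x b * ∏ z ∈ N, rr H z b ^ R x z) ∈ Jo H (b + 1)) ∧
        (∀ x ∈ N, ∀ l, b < l → l < b + h →
          So H (b + h) ^ M * Qo H x l ∈ Jo H (b + h - 1)) ∧
        (∀ x ∈ N, So H (b + h) ^ M * ((∏ z ∈ N, rr H z (b + h - 1) ^ R x z) * Qo H x b -
          (ε x : OO N) * Qo H x (b + h)) ∈ Jo H (b + h - 1))) := by
  classical
  have hs : ∀ x y, aN a N x y = aN a N y x := fun x y => H.s x.1 y.1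
  have ha : ∀ x, aN a N x x = 0 := fun x => H.l x.1 x.2
  obtain ⟨ε, R, hε1, hε2, hR, u1, u2, hsg⟩ := univ_run (aN a N) hs ha hk
  have h2 := hk.two_le
  refine ⟨fun x => if hx : x ∈ N then ε ⟨x, hx⟩ else 1,
    fun x z => if hx : x ∈ N then (if hz : z ∈ N then R ⟨x, hx⟩ ⟨z, hz⟩ else 0) else 0,
    ?_, ?_, ?_, ?_, ?_⟩
  · intro x
    by_cases hx : x ∈ N
    · simp only [dif_pos hx]
      exact hε1 _
    · simp only [dif_neg hx]
      left
      trivial
  · intro x hx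
    rw [← Finset.prod_coe_sort]
    have := hε2 ⟨x, hx⟩
    rw [← this]
    refine Finset.prod_congr rfl (fun y _ => ?_)
    simp only [dif_pos y.2]
    rfl
  · intro x hx
    simp only [dif_pos hx]
    exact hsg _
  · intro x hx z hz
    have h3 := hR ⟨x, hx⟩ ⟨z, hz⟩
    have h4 : (∑ y ∈ N, a x y * (if hy : y ∈ N then
        (if hz : z ∈ N then R ⟨y, hy⟩ ⟨z, hz⟩ else 0) else 0)) =
        ∑ y : {x // x ∈ N}, aN a N ⟨x, hx⟩ y * R y ⟨z, hz⟩ := by
      rw [← Finset.sum_coe_sort N (fun y => a x y * (if hy : y ∈ N then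
        (if hz : z ∈ N then R ⟨y, hy⟩ ⟨z, hz⟩ else 0) else 0))]
      refine Finset.sum_congr rfl (fun y _ => ?_)
      simp only [dif_pos y.2, dif_pos hz]
      rfl
    have h5 : (if (⟨z, hz⟩ : {x // x ∈ N}) = ⟨x, hx⟩ then h else 0) = if z = x then h else 0 := by
      by_cases hzx : z = x
      · simp [hzx]
      · simp [hzx]
    rw [h4, ← h5, ← h3]
    simp only [dif_pos hx, dif_pos hz]
  · intro b
    obtain ⟨g, hg⟩ := fwd H h b
    obtain ⟨⟨M1, f1⟩, f2⟩ := run_O hs ha hg u1 u2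
    obtain ⟨r', g', hg', hr'⟩ := bwd H h (b + h) (by omega)
    obtain ⟨⟨M3, f3⟩, f4⟩ := run_O hs ha hg' u1 u2
    have f2' : ∀ x : {x // x ∈ N}, ∃ M : ℕ, So H b ^ M * (Qo H x.1 (b + h) -
        (ε x : OO N) * Qo H x.1 b * ∏ z : {x // x ∈ N}, rr H z.1 b ^ R x z) ∈ Jo H (b + 1) := by
      intro x
      obtain ⟨M, hM⟩ := f2 x 1 (∏ z : {x // x ∈ N}, rr H z.1 b ^ R x z) (by
        rw [map_one, one_mul, map_prod]
        simp only [map_pow]
        rfl)
      refine ⟨M, ?_⟩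
      rw [one_mul] at hM
      exact hM
    have f4' : ∀ x : {x // x ∈ N}, ∃ M : ℕ, So H (b + h) ^ M *
        ((∏ z : {x // x ∈ N}, rr H z.1 (b + h - 1) ^ R x z) * Qo H x.1 b -
        (ε x : OO N) * Qo H x.1 (b + h)) ∈ Jo H (b + h - 1) := by
      intro x
      obtain ⟨M, hM⟩ := f4 x (∏ z : {x // x ∈ N}, rr H z.1 (b + h - 1) ^ R x z) 1 (by
        rw [map_one, map_prod]
        simp only [map_pow]
        rw [← Finset.prod_mul_distrib]
        symm
        refine Finset.prod_eq_one (fun z _ => ?_)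
        rw [← mul_pow, hr' z, one_pow])
      refine ⟨M, ?_⟩
      have e1 : b + h + 2 - (h + 1) = b + 1 := by omega
      have e2 : b + h + 2 - 1 = (b + h) + 1 := by omega
      have e3 : b + h + 2 - 2 = (b + h - 1) + 1 := by omega
      rw [mul_one, e1, e2, e3] at hM
      exact hM
    choose m2 hm2 using f2'
    choose m4 hm4 using f4'
    set T := M1 + M3 + ∑ x, m2 x + ∑ x, m4 x with hT
    have up : ∀ (s : OO N) (J : Ideal (OO N)) (m : ℕ) (z : OO N), m ≤ T → s ^ m * z ∈ J →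
        s ^ T * z ∈ J := by
      intro s J m z hm hz
      obtain ⟨d, hd⟩ := Nat.exists_eq_add_of_le hm
      rw [hd, pow_add, mul_comm (s ^ m), mul_assoc]
      exact Ideal.mul_mem_left _ _ hz
    have hm2T : ∀ x, m2 x ≤ T := by
      intro x
      have : m2 x ≤ ∑ x, m2 x := Finset.single_le_sum (fun _ _ => Nat.zero_le _) (Finset.mem_univ x)
      omega
    have hm4T : ∀ x, m4 x ≤ T := by
      intro x
      have : m4 x ≤ ∑ x, m4 x := Finset.single_le_sum (fun _ _ => Nat.zero_le _) (Finset.mem_univ x)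
      omega
    refine ⟨T, ?_, ?_, ?_, ?_⟩
    · intro x hx l hl1 hl2
      obtain ⟨k, rfl⟩ : ∃ k, l = b + k := ⟨l - b, by omega⟩
      exact up _ _ M1 _ (by omega) (f1 k ⟨x, hx⟩ (by omega) (by omega))
    · intro x hx
      have := up _ _ (m2 ⟨x, hx⟩) _ (hm2T _) (hm2 ⟨x, hx⟩)
      simp only [dif_pos hx]
      have e : ∏ z ∈ N, rr H z b ^ (if hz : z ∈ N then R ⟨x, hx⟩ ⟨z, hz⟩ else 0) =
          ∏ z : {x // x ∈ N}, rr H z.1 b ^ R ⟨x, hx⟩ z := by
        rw [← Finset.prod_coe_sort]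
        refine Finset.prod_congr rfl (fun z _ => ?_)
        simp only [dif_pos z.2]
      rw [e]
      exact this
    · intro x hx l hl1 hl2
      obtain ⟨k, hk'⟩ : ∃ k, l = b + h - k := ⟨b + h - l, by omega⟩
      have := f3 k ⟨x, hx⟩ (by omega) (by omega)
      have e1 : b + h + 2 - (k + 1) = l + 1 := by omega
      have e3 : b + h + 2 - 2 = (b + h - 1) + 1 := by omega
      rw [e1, e3] at this
      exact up _ _ M3 _ (by omega) this
    · intro x hx
      have := up _ _ (m4 ⟨x, hx⟩) _ (hm4T _) (hm4 ⟨x, hx⟩)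
      simp only [dif_pos hx]
      have e : ∏ z ∈ N, rr H z (b + h - 1) ^ (if hz : z ∈ N then R ⟨x, hx⟩ ⟨z, hz⟩ else 0) =
          ∏ z : {x // x ∈ N}, rr H z.1 (b + h - 1) ^ R ⟨x, hx⟩ z := by
        rw [← Finset.prod_coe_sort]
        refine Finset.prod_congr rfl (fun z _ => ?_)
        simp only [dif_pos z.2]
      rw [e]
      exact this

/-- Short runs: the locus is empty. -/
theorem LL_short {h : ℕ} {o : ℕ → {x // x ∈ N} → ℕ} (hk : Knit (aN a N) h o) (hne : N.Nonempty)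
    (k : ℕ) (hk1 : 1 ≤ k) (hk2 : k < h) : ∃ M : ℕ, So H k ^ M * 1 ∈ Jo H (k - 1) := by
  have hs : ∀ x y, aN a N x y = aN a N y x := fun x y => H.s x.1 y.1
  have ha : ∀ x, aN a N x x = 0 := fun x => H.l x.1 x.2
  obtain ⟨ε, R, hε1, hε2, hR, u1, u2, hsg⟩ := univ_run (aN a N) hs ha hk
  obtain ⟨r', g', hg', hr'⟩ := bwd H k k le_rfl
  obtain ⟨x, hx⟩ := hne
  obtain ⟨M, hM⟩ := short_O hs ha hg' (fun k' x h1 h2 => u1 k' x h1 (by omega)) k ⟨x, hx⟩ hk1 le_rfl
  refine ⟨M, ?_⟩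
  have e1 : k + 2 - (k + 1) = 1 := by omega
  have e2 : k + 2 - 2 = (k - 1) + 1 := by omega
  rw [e1, e2] at hM
  have e3 : Fq H 1 x = 1 := by
    apply Subtype.ext
    exact Qp_level_zero a x 1
  have hM' : So H k ^ M * Fq H 1 x ∈ Jo H (k - 1) := hM
  rwa [e3] at hM'

end

end Pool.Agent.H10.KAC
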