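import Pool.Agent.H10.KAC.Transfer

/-!
Run lemma, module 6: the run lemma in a ring `O` after inverting one element `s`.
-/

namespace Pool.Agent.H10.KAC

open scoped BigOperators

section

variable {O : Type} [CommRing O] (s : O)

/-- the localisation. -/
abbrev LA : Type := Localization.Away s

/-- the localisation map. -/
noncomputable abbrev lm : O →+* LA s := algebraMap O (LA s)

theorem lm_unit {x : O} (n : ℕ) (h : x ∣ s ^ n) : IsUnit (lm s x) :=
  (IsLocalization.Away.algebraMap_isUnit_iff (x := s) (S := LA s)).mpr ⟨n, h⟩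

theorem lm_nz {x : O} (h : x ∈ nonZeroDivisors O) : lm s x ∈ nonZeroDivisors (LA s) :=
  IsLocalization.map_nonZeroDivisors_le (Submonoid.powers s) (LA s) (Submonoid.mem_map_of_mem _ h)

theorem lm_mem {ι : Type} (f : ι → O) {x : O}
    (h : lm s x ∈ Ideal.span (Set.range (fun i => lm s (f i)))) :
    ∃ n : ℕ, s ^ n * x ∈ Ideal.span (Set.range f) := by
  have h1 : Ideal.span (Set.range (fun i => lm s (f i))) =
      Ideal.map (algebraMap O (LA s)) (Ideal.span (Set.range f)) := by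
    rw [Ideal.map_span]
    congr 1
    rw [← Set.range_comp]
    rfl
  rw [h1] at h
  rw [IsLocalization.algebraMap_mem_map_algebraMap_iff (Submonoid.powers s)] at h
  obtain ⟨m, ⟨n, rfl⟩, hm⟩ := h
  exact ⟨n, hm⟩

end

section

variable {N : Type} [Fintype N] [DecidableEq N]

/-- The run lemma in `O`, localised at `s`. -/
theorem run_O {a : N → N → ℕ} (hs : ∀ x y, a x y = a y x) (ha : ∀ x, a x x = 0) {h : ℕ}
    {O : Type} [CommRing O] {s : O} {F : ℕ → N → O} {c r g : ℕ → N → LA s}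
    (S : RSys a h (LA s) (fun k x => lm s (F k x)) c r g)
    {ε : N → ℤ} {R : N → N → ℕ}
    (h1 : ∀ k x, 1 ≤ k → k < h → Qu a hs ha k x ∈ Iq N)
    (h2 : ∀ x, Qu a hs ha h x - MvPolynomial.C (ε x) *
      ∏ z, MvPolynomial.X (z, 2) ^ R x z ∈ Iq N) :
    (∃ M : ℕ, ∀ k x, 1 ≤ k → k < h → s ^ M * F (k + 1) x ∈ Ideal.span (Set.range (F 2))) ∧
    (∀ (x : N) (u v : O), lm s v = lm s u * ∏ z, r 1 z ^ R x z →
      ∃ M : ℕ, s ^ M * (u * F (h + 1) x - (ε x : O) * F 1 x * v) ∈
        Ideal.span (Set.range (F 2))) := by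
  classical
  obtain ⟨t1, t2⟩ := run_transfer hs ha S h1 h2
  constructor
  · have h3 : ∀ k x, 1 ≤ k → k < h → ∃ n : ℕ, s ^ n * F (k + 1) x ∈ Ideal.span (Set.range (F 2)) :=
      fun k x hk1 hk2 => lm_mem s (F 2) (t1 k x hk1 hk2)
    choose! n hn using h3
    refine ⟨∑ k ∈ Finset.range h, ∑ x, n k x, fun k x hk1 hk2 => ?_⟩
    have h4 : n k x ≤ ∑ k ∈ Finset.range h, ∑ x, n k x := by
      calc n k x ≤ ∑ x, n k x := Finset.single_le_sum (fun _ _ => Nat.zero_le _)
            (Finset.mem_univ x)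
        _ ≤ _ := Finset.single_le_sum (f := fun k => ∑ x, n k x) (fun _ _ => Nat.zero_le _)
            (Finset.mem_range.mpr hk2)
    obtain ⟨d, hd⟩ := Nat.exists_eq_add_of_le h4
    rw [hd, pow_add, mul_comm (s ^ n k x), mul_assoc]
    exact Ideal.mul_mem_left _ _ (hn k x hk1 hk2)
  · intro x u v huv
    apply lm_mem s (F 2)
    have h5 := Ideal.mul_mem_left _ (lm s u) (t2 x)
    have h6 : lm s (u * F (h + 1) x - (ε x : O) * F 1 x * v) =
        lm s u * (lm s (F (h + 1) x) - (ε x : LA s) * lm s (F 1 x) * ∏ z, r 1 z ^ R x z) := by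
      rw [map_sub, map_mul, map_mul, map_mul, map_intCast, huv]
      ring
    rw [h6]
    exact h5

/-- Short systems, localised at `s`. -/
theorem short_O {a : N → N → ℕ} (hs : ∀ x y, a x y = a y x) (ha : ∀ x, a x x = 0) {n : ℕ}
    {O : Type} [CommRing O] {s : O} {F : ℕ → N → O} {c r g : ℕ → N → LA s}
    (S : RSys a n (LA s) (fun k x => lm s (F k x)) c r g)
    (h1 : ∀ k x, 1 ≤ k → k ≤ n → Qu a hs ha k x ∈ Iq N) (k : ℕ) (x : N) (hk1 : 1 ≤ k)
    (hk2 : k ≤ n) : ∃ M : ℕ, s ^ M * F (k + 1) x ∈ Ideal.span (Set.range (F 2)) :=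
  lm_mem s (F 2) (run_short hs ha S h1 k x hk1 hk2)

end

end Pool.Agent.H10.KAC
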