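import Pool.Agent.H10.KAC.Cross2
import Pool.Agent.H46.KA.Bridge
import Pool.Agent.H41.KA.AD9
import Pool.Agent.H41.KA.AG0

/-!
Run lemma, module 13: from terms to the ring `LL I`.
-/

set_option autoImplicit false
set_option maxHeartbeats 400000

namespace Pool.Agent.H10.KAC

open scoped BigOperators
open Pool.Agent.H46.KA Pool.Agent.H27.KAC

variable {I : Type} [Fintype I] [DecidableEq I]

/-- the outer positions whose symbol lies over `N`. -/
def pol (N : Finset I) (f : I → I × ℕ) : Finset I :=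
  Finset.univ.filter (fun i => i ∉ N ∧ (f i).1 ∈ N)

/-- outer columns with poles removed. -/
noncomputable def wf (a : I → I → ℕ) (N : Finset I) (f : I → I × ℕ) : I → Fm I :=
  fun i => if i ∈ pol N f then (fun l => Qp a (f i).1 (f i).2 1 * Df a (f i).1 (f i).2 l)
    else Df a (f i).1 (f i).2

/-- plain outer columns. -/
noncomputable def vf (a : I → I → ℕ) (f : I → I × ℕ) : I → Fm I :=
  fun i => Df a (f i).1 (f i).2

section

variable {a : I → I → ℕ} {N : Finset I} (H : Hyp a N)

include H in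
theorem wf_RFo (f : I → I × ℕ) : RFo N (wf a N f) := by
  intro i hi x hx
  unfold wf
  by_cases hp : i ∈ pol N f
  · rw [if_pos hp]
    by_cases hj : (f i).1 = x
    · rw [hj]
      exact RF_Q_Df a H.s x (H.l x hx) (f i).2
    · exact RF_smul (RF_Df_ne a H.s x (H.l x hx) (f i).1 hj (f i).2) (OO_Qp1 H _ _ x hx)
  · rw [if_neg hp]
    have hj : (f i).1 ≠ x := by
      intro h
      apply hp
      simp only [pol, Finset.mem_filter, Finset.mem_univ, true_and]
      exact ⟨hi, h ▸ hx⟩
    exact RF_Df_ne a H.s x (H.l x hx) (f i).1 hj (f i).2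

theorem CTd_poles (γ : I → ℚ) (G : LL I) (lev : ℕ) (f : I → I × ℕ) :
    CTd γ (G * ∏ i ∈ pol N f, Qp a (f i).1 (f i).2 1) (colN a N lev (vf a f)) =
      CTd γ G (colN a N lev (wf a N f)) := by
  have h1 : colN a N lev (wf a N f) = fun i l =>
      (if i ∈ pol N f then Qp a (f i).1 (f i).2 1 else 1) * colN a N lev (vf a f) i l := by
    funext i l
    unfold colN
    by_cases hi : i ∈ N
    · have hp : i ∉ pol N f := by
        simp only [pol, Finset.mem_filter, Finset.mem_univ, true_and]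
        exact fun h => h.1 hi
      rw [if_pos hi, if_pos hi, if_neg hp, one_mul]
    · rw [if_neg hi, if_neg hi]
      unfold wf vf
      by_cases hp : i ∈ pol N f
      · rw [if_pos hp, if_pos hp]
      · rw [if_neg hp, if_neg hp, one_mul]
  rw [h1, CTd_scale γ G (fun i => if i ∈ pol N f then Qp a (f i).1 (f i).2 1 else 1)]
  congr 2
  rw [Finset.prod_ite_mem, Finset.univ_inter]

include H in
/-- monomials with natural exponents at the levels `≥ 1` of `N`. -/
theorem mon_mem (E : (I × ℕ) →₀ ℚ) (hE : ∀ x ∈ N, ∀ l, 1 ≤ l → ∃ n : ℕ, E (x, l) = n) :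
    mon a E ∈ OO N := by
  intro x hx
  unfold mon Finsupp.prod
  refine Rg_prod _ _ (fun ik _ => ?_)
  change Rg x (Qp a ik.1 ik.2 (E ik))
  by_cases h : ik.1 = x
  · rcases Nat.eq_zero_or_pos ik.2 with h0 | h0
    · rw [h0, Qp_level_zero]
      exact Rg_one x
    · obtain ⟨n, hn⟩ := hE x hx ik.2 h0
      have h2 : ik = (x, ik.2) := by rw [← h]
      rw [h2, hn]
      exact Rg_Qp_self a H.s x (H.l x hx) ik.2 n
  · exact Rg_Qp_ne a H.s x (H.l x hx) ik.1 h ik.2 _

/-- exponents after removing the poles. -/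
noncomputable def Ered (N : Finset I) (f : I → I × ℕ) (E : (I × ℕ) →₀ ℚ) : (I × ℕ) →₀ ℚ :=
  E - ∑ i ∈ pol N f, Finsupp.single (f i) 1

theorem mon_Ered (f : I → I × ℕ) (E : (I × ℕ) →₀ ℚ) :
    mon a E = mon a (Ered N f E) * ∏ i ∈ pol N f, Qp a (f i).1 (f i).2 1 := by
  have h1 : E = Ered N f E + ∑ i ∈ pol N f, Finsupp.single (f i) 1 := by
    unfold Ered
    rw [sub_add_cancel]
  conv_lhs => rw [h1]
  rw [mon_add, mon_sum]
  congr 1
  refine Finset.prod_congr rfl (fun i _ => ?_)
  exact mon_single a (f i).1 (f i).2 1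

/-- assignments of symbols to the outer columns. -/
structure GoodF (N : Finset I) (T : Trm I) (f : I → I × ℕ) : Prop where
  ne : ∀ i, i ∉ N → T.Λ i (f i) ≠ 0
  lev : ∀ i, i ∉ N → 1 ≤ (f i).2

theorem sum_single_apply (s : Finset I) (f : I → I × ℕ) (k : I × ℕ) :
    (∑ i ∈ s, Finsupp.single (f i) (1 : ℚ)) k = ((s.filter (fun i => f i = k)).card : ℚ) := by
  rw [Finsupp.finsetSum_apply, Finset.card_filter]
  push_cast
  refine Finset.sum_congr rfl (fun i _ => ?_)
  rw [Finsupp.single_apply]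

theorem Ered_nat (T : Trm I) (hT : RReg N T) (f : I → I × ℕ) (hf : GoodF N T f) (p : ℕ)
    (hp : Fintype.card I < p) (x : I) (hx : x ∈ N) (l : ℕ) (hl : 1 ≤ l) :
    ∃ n : ℕ, Ered N f ((p : ℚ) • T.E) (x, l) = n ∧ (1 ≤ T.E (x, l) → 1 ≤ n) := by
  obtain ⟨m, hm⟩ := hT.nat x hx l hl
  set c := ((pol N f).filter (fun i => f i = (x, l))).card with hc
  have hcard : c ≤ Fintype.card I := by
    rw [hc]
    exact (Finset.card_le_univ _)
  have h1 : Ered N f ((p : ℚ) • T.E) (x, l) = (p : ℚ) * m - c := by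
    unfold Ered
    rw [Finsupp.sub_apply, Finsupp.smul_apply, smul_eq_mul, hm, sum_single_apply]
  rcases Nat.eq_zero_or_pos m with h0 | h0
  · -- no poles
    have hc0 : c = 0 := by
      rw [hc, Finset.card_eq_zero, Finset.filter_eq_empty_iff]
      intro i hi hfi
      simp only [pol, Finset.mem_filter, Finset.mem_univ, true_and] at hi
      have h2 := hT.col x hx i hi.1 l hl (by rw [← hfi]; exact hf.ne i hi.1)
      rw [hm, h0] at h2
      norm_num at h2
    refine ⟨0, ?_, fun h2 => ?_⟩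
    · rw [h1, h0, hc0]
      simp
    · rw [hm, h0] at h2
      norm_num at h2
  · refine ⟨p * m - c, ?_, fun _ => ?_⟩
    · rw [h1, Nat.cast_sub]
      · push_cast
        ring
      · calc c ≤ Fintype.card I := hcard
          _ ≤ p := hp.le
          _ ≤ p * m := Nat.le_mul_of_pos_right p h0
    · have : p ≤ p * m := Nat.le_mul_of_pos_right p h0
      omega

/-- `∑_x q_x C_{x,j}` over `N`. -/
def qC' (a : I → I → ℕ) (N : Finset I) (q : I → ℚ) (j : I) : ℚ :=
  ∑ x ∈ N, q x * (cart a x j : ℚ)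

theorem eta_E (a : I → I → ℕ) (N : Finset I) (k : ℕ) (q : I → ℚ) :
    (-∑ x, (-resQ N q x) • cE a x k : QE I) = ∑ j, Finsupp.single (j, k) (qC' a N q j) := by
  have h1 : (-∑ x, (-resQ N q x) • cE a x k : QE I) = ∑ x, (resQ N q x) • cE a x k := by
    rw [← Finset.sum_neg_distrib]
    refine Finset.sum_congr rfl (fun x _ => by rw [neg_smul, neg_neg])
  rw [h1]
  unfold cE
  simp only [Finset.smul_sum]
  rw [Finset.sum_comm]
  refine Finset.sum_congr rfl (fun j _ => ?_)
  have h2 : ∀ x, resQ N q x • ((cart a x j : ℤ) : ℚ) • sy j k =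
      Finsupp.single (j, k) (resQ N q x * ((cart a x j : ℤ) : ℚ)) := by
    intro x
    rw [sy, Finsupp.smul_single, Finsupp.smul_single, smul_eq_mul, smul_eq_mul, mul_one]
  rw [Finset.sum_congr rfl (fun x _ => h2 x), ← Finsupp.single_finsetSum]
  congr 1
  unfold qC' resQ
  rw [← Finset.sum_subset (Finset.subset_univ N)]
  · refine Finset.sum_congr rfl (fun x hx => by rw [if_pos hx])
  · intro x _ hx
    rw [if_neg hx, zero_mul]

theorem insN_val (e : I → ℕ) (l : ℕ) :
    (insN H e l : LL I) = ∏ x ∈ N, Qp a x l (e x : ℚ) := by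
  unfold insN
  rw [OO_coe_prod]
  refine Finset.prod_congr rfl (fun x _ => ?_)
  rw [Qp_natPow]
  rfl

theorem outN_val (p : I → ℚ) (l : ℕ) :
    (outN H p l : LL I) = ∏ i ∈ Nᶜ, Qp a i l (-p i) := by
  unfold outN
  rw [OO_coe_prod]
  exact Finset.prod_congr rfl (fun i hi => Po_val H i (Finset.mem_compl.mp hi) _ _)

/-- the monomial of a block term (power `p`). -/
theorem mon_blk (k σ : ℕ) (q : I → ℚ) (T : Trm I) (p : ℕ) (n : I → ℕ)
    (hn : ∀ x ∈ N, cqN a N q x = n x) (P : I → ℚ)
    (hP : ∀ i, i ∉ N → P i = ∑ x ∈ N, (a x i : ℚ) * q x) :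
    mon a ((blkT a N k σ q T).pow p).E =
      mon a ((p : ℚ) • T.E) * ((insN H (fun x => p * n x) k : OO N) : LL I) *
        ((outN H (fun i => p * P i) k : OO N) : LL I) := by
  have h1 : ((blkT a N k σ q T).pow p).E =
      (p : ℚ) • T.E + ∑ j, Finsupp.single (j, k) ((p : ℚ) * qC' a N q j) := by
    change (p : ℚ) • (T.E - ∑ x, (-resQ N q x) • cE a x k) = _
    rw [sub_eq_add_neg, eta_E, smul_add, Finset.smul_sum]
    congr 1
    refine Finset.sum_congr rfl (fun j _ => ?_)
    rw [Finsupp.smul_single, smul_eq_mul]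
  rw [h1, mon_add, mon_sum, mul_assoc]
  congr 1
  have h2 : ∀ j, mon a (Finsupp.single (j, k) ((p : ℚ) * qC' a N q j)) =
      Qp a j k ((p : ℚ) * qC' a N q j) := fun j => mon_single a j k _
  rw [Finset.prod_congr rfl (fun j _ => h2 j), ← Finset.prod_mul_prod_compl N, insN_val, outN_val]
  refine congrArg₂ (· * ·) (Finset.prod_congr rfl (fun x hx => ?_))
    (Finset.prod_congr rfl (fun i hi => ?_))
  · have h3 : qC' a N q x = n x := by
      rw [← hn x hx]
      unfold qC' cqN
      refine Finset.sum_congr rfl (fun y _ => ?_)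
      rw [mul_comm]
      congr 2
      unfold cart
      by_cases hxy : x = y
      · subst hxy
        rfl
      · rw [if_neg hxy, if_neg (Ne.symm hxy), H.s]
    rw [h3]
    push_cast
    rfl
  · have hi' := Finset.mem_compl.mp hi
    have h3 : qC' a N q i = -P i := by
      rw [hP i hi', ← Finset.sum_neg_distrib]
      unfold qC'
      refine Finset.sum_congr rfl (fun y hy => ?_)
      have hyi : y ≠ i := fun h => hi' (h ▸ hy)
      unfold cart
      rw [if_neg hyi]
      push_cast
      ring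
    rw [h3, mul_neg]

/-- the index set of the expansion. -/
noncomputable def fset (N : Finset I) (T : Trm I) : Finset (I → I × ℕ) :=
  Fintype.piFinset (fun i => if i ∈ N then {(i, 0)} else (T.Λ i).support)

/-- the coefficient of the expansion. -/
noncomputable def fcoef (N : Finset I) (T : Trm I) (f : I → I × ℕ) : ℚ :=
  ∏ i, (if i ∈ N then 1 else T.Λ i (f i))

/-- expansion of a block term. -/
theorem TV_blk (k σ : ℕ) (q : I → ℚ) (T : Trm I) (p : ℕ) :
    TV a ((blkT a N k σ q T).pow p) = ∑ f ∈ fset N T, fcoef N T f *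
      CTd (fun i => (p : ℚ) * (T.γ i + k * resQ N q i)) (mon a ((blkT a N k σ q T).pow p).E)
        (colN a N σ (vf a f)) := by
  classical
  rw [TV_eq]
  have h1 : ((blkT a N k σ q T).pow p).γ = fun i => (p : ℚ) * (T.γ i + k * resQ N q i) := by
    funext i
    change (p : ℚ) * (T.γ i - k * -resQ N q i) = _
    ring
  rw [h1]
  have h2 : (fun i => cf a (((blkT a N k σ q T).pow p).Λ i)) = fun i l =>
      ∑ ik ∈ (if i ∈ N then {(i, 0)} else (T.Λ i).support),
        qC (if i ∈ N then 1 else T.Λ i ik) *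
          (if i ∈ N then Df a i σ else Df a ik.1 ik.2) l := by
    funext i l
    have h3 : ((blkT a N k σ q T).pow p).Λ i = if i ∈ N then sy i σ else T.Λ i := rfl
    rw [h3]
    by_cases hi : i ∈ N
    · simp only [if_pos hi, Finset.sum_singleton]
      unfold cf
      have h4 : (sy i σ : QE I).support = {(i, σ)} :=
        Finsupp.support_single_ne_zero _ one_ne_zero
      rw [h4, Finset.sum_singleton, sy, Finsupp.single_eq_same]
    · simp only [if_neg hi]
      rfl
  rw [h2, CTd_expand]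
  refine Finset.sum_congr rfl (fun f _ => ?_)
  have h5 : (fun i => if i ∈ N then Df a i σ else Df a (f i).1 (f i).2) =
      colN a N σ (vf a f) := rfl
  rw [h5]
  rfl

/-- a column of level zero. -/
theorem CTd_lev0 (γ : I → ℚ) (G : LL I) (lev : ℕ) (f : I → I × ℕ) (i : I) (hi : i ∉ N)
    (h0 : (f i).2 = 0) : CTd γ G (colN a N lev (vf a f)) = 0 := by
  have h1 : colN a N lev (vf a f) = Function.update (colN a N lev (vf a f)) i (fun _ => 0) := by
    rw [eq_comm, Function.update_eq_self_iff]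
    unfold colN vf
    rw [if_neg hi, h0]
    funext l
    exact (Df_level_zero a (f i).1 l).symm
  rw [h1, CTd_update_zero]

/-- one term of the expansion: either zero for trivial reasons or in regular form. -/
theorem TV_term (σ : ℕ) (T : Trm I) (p : ℕ)
    (f : I → I × ℕ) (G : OO N) (γ : I → ℚ) :
    CTd γ (mon a ((p : ℚ) • T.E) * (G : LL I)) (colN a N σ (vf a f)) =
      CTd γ ((G : LL I) * mon a (Ered N f ((p : ℚ) • T.E))) (colN a N σ (wf a N f)) := by
  rw [← CTd_poles, mon_Ered (a := a) (N := N) f ((p : ℚ) • T.E)]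
  congr 1
  ring

end

end Pool.Agent.H10.KAC
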