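import Pool.Agent.H10.KAC.Curve

/-!
Run lemma, module 4: transfer of the universal run lemma to a commutative ring.

`F 0, F 1, F 2, ...` are the values `Q_{x, j-2}, Q_{x, j-1}, Q_{x, j}, ...`.
-/

namespace Pool.Agent.H10.KAC

open scoped BigOperators
open MvPolynomial

variable {N : Type} [Fintype N] [DecidableEq N]

/-- a system in a commutative ring `A` (levels `0, ..., h + 1`). -/
structure RSys (a : N → N → ℕ) (h : ℕ) (A : Type) [CommRing A] (F c r g : ℕ → N → A) : Prop where
  u : ∀ x, IsUnit (F 1 x)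
  nz : ∀ k x, 1 ≤ k → k ≤ h → F k x ∈ nonZeroDivisors A
  q : ∀ k x, k < h → F (k + 2) x * F k x = F (k + 1) x ^ 2 - c (k + 1) x * ∏ y, F (k + 1) y ^ a x y
  c : ∀ k x, k + 1 < h → c (k + 2) x = c (k + 1) x * r (k + 1) x
  r : ∀ k x, k + 1 < h → r (k + 2) x = r (k + 1) x + F (k + 2) x * g k x

/-- The homomorphism from the universal ring. -/
theorem run_hom {a : N → N → ℕ} (hs : ∀ x y, a x y = a y x) (ha : ∀ x, a x x = 0) {h : ℕ}
    {A : Type} [CommRing A] {F c r g : ℕ → N → A} (S : RSys a h A F c r g) :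
    ∃ φ : VV N →+* A, (∀ k, k ≤ h → ∀ x, φ (Qu a hs ha k x) * F 1 x = F (k + 1) x) ∧
      (∀ v ∈ Iq N, φ v ∈ Ideal.span (Set.range (F 2))) ∧
      (∀ n : ℤ, φ (C n) = (n : A)) ∧ (∀ x, φ (X (x, 2)) = r 1 x) := by
  choose zi hzi using fun x => (S.u x).exists_right_inv
  let v : N × ℕ → A := fun p => match p.2 with
    | 0 => F 2 p.1 * zi p.1
    | 1 => F 0 p.1 * zi p.1
    | 2 => r 1 p.1
    | k + 3 => F 1 p.1 * g k p.1
  let φ : VV N →+* A := eval₂Hom (algebraMap ℤ A) v
  have φ0 : ∀ x, φ (X (x, 0)) = F 2 x * zi x := fun x => by simp [φ, v]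
  have φ1 : ∀ x, φ (X (x, 1)) = F 0 x * zi x := fun x => by simp [φ, v]
  have φ2 : ∀ x, φ (X (x, 2)) = r 1 x := fun x => by simp [φ, v]
  have φ3 : ∀ k x, φ (X (x, k + 3)) = F 1 x * g k x := fun k x => by simp [φ, v]
  have φC : ∀ n : ℤ, φ (C n) = (n : A) := fun n => by simp [φ]
  let κ : N → A := fun x => (∏ y, F 1 y ^ a x y) * zi x ^ 2
  have main : ∀ k, k ≤ h → (∀ x, φ (Qu a hs ha k x) * F 1 x = F (k + 1) x) ∧
      (∀ x, k < h → φ (cu a hs ha k x) = c (k + 1) x * κ x) ∧
      (∀ x, 1 ≤ k → k < h → φ (ru a hs ha k x) = r k x) := by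
    intro k
    induction k using Nat.strong_induction_on with
    | _ k ih =>
      match k, ih with
      | 0, _ =>
        intro _
        refine ⟨fun x => by rw [Qu_zero, map_one, one_mul], fun x hh => ?_,
          fun x h0 => absurd h0 (by norm_num)⟩
        rw [cu_zero, map_sub, map_mul, map_one, φ0, φ1]
        have e1 := S.q 0 x hh
        have e2 := hzi x
        simp only [zero_add] at e1
        simp only [κ, zero_add]
        linear_combination (-(F 1 x * zi x + 1)) * e2 - zi x ^ 2 * e1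
      | 1, ih =>
        intro hh
        have i0 := ih 0 (by norm_num) (by omega)
        refine ⟨fun x => ?_, fun x h3 => ?_, fun x _ h3 => by rw [ru_one, φ2]⟩
        · rw [Qu_one, φ0, mul_assoc, mul_comm (zi x), hzi, mul_one]
        · rw [cu_succ, map_mul, i0.2.1 x (by omega), ru_one, φ2, S.c 0 x h3]
          ring
      | k + 2, ih =>
        intro hh
        have i0 := ih k (by omega) (by omega)
        have i1 := ih (k + 1) (by omega) (by omega)
        have hr : ∀ x, k + 2 < h → φ (ru a hs ha (k + 2) x) = r (k + 2) x := by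
          intro x h3
          rw [ru_succ, map_add, map_mul, i1.2.2 x (by omega) (by omega), φ3,
            S.r k x (by omega), ← i1.1 x]
          ring
        refine ⟨fun x => ?_, fun x h3 => ?_, fun x _ h3 => hr x h3⟩
        · have e1 := congrArg φ (Qu_rec a hs ha k x)
          rw [map_mul, map_sub, map_mul, map_pow, map_prod, i1.2.1 x (by omega)] at e1
          simp only [map_pow] at e1
          have e2 := S.q (k + 1) x (by omega)
          have e3 := hzi x
          have e4 : (∏ y, F 1 y ^ a x y) * (∏ y, φ (Qu a hs ha (k + 1) y) ^ a x y) =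
              ∏ y, F (k + 2) y ^ a x y := by
            rw [← Finset.prod_mul_distrib]
            refine Finset.prod_congr rfl (fun y _ => ?_)
            rw [← mul_pow, mul_comm, i1.1 y]
          have e5 := i0.1 x
          have e6 := i1.1 x
          have e7 : F (k + 1) x * (φ (Qu a hs ha (k + 2) x) * F 1 x) =
              F (k + 1) x * F (k + 2 + 1) x := by
            have e8 : F (k + 1) x * (φ (Qu a hs ha (k + 2) x) * F 1 x) =
                (φ (Qu a hs ha (k + 2) x) * φ (Qu a hs ha k x)) * F 1 x ^ 2 := by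
              rw [← e5]
              ring
            rw [e8, e1]
            have e9 : F (k + 1) x * F (k + 2 + 1) x = F (k + 1 + 2) x * F (k + 1) x := mul_comm _ _
            rw [e9, e2, ← e4, show k + 1 + 1 = k + 2 from rfl, ← e6]
            simp only [κ]
            have e10 : zi x ^ 2 * F 1 x ^ 2 = 1 := by
              rw [← mul_pow, mul_comm, e3, one_pow]
            linear_combination (-(c (k + 2) x * (∏ y, F 1 y ^ a x y) *
              ∏ y, φ (Qu a hs ha (k + 1) y) ^ a x y)) * e10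
          exact (mem_nonZeroDivisors_iff_right.mp (S.nz (k + 1) x (by omega) (by omega))
            (φ (Qu a hs ha (k + 2) x) * F 1 x - F (k + 2 + 1) x)
            (by rw [sub_mul, sub_eq_zero, mul_comm, e7, mul_comm])) |> sub_eq_zero.mp
        · rw [cu_succ, map_mul, i1.2.1 x (by omega), hr x h3, S.c (k + 1) x (by omega)]
          ring
  have hI : Iq N ≤ Ideal.comap φ (Ideal.span (Set.range (F 2))) := by
    rw [Iq, Ideal.span_le]
    rintro _ ⟨y, rfl⟩
    change φ (X (y, 0)) ∈ Ideal.span (Set.range (F 2))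
    rw [φ0]
    exact Ideal.mul_mem_right _ _ (Ideal.subset_span ⟨y, rfl⟩)
  exact ⟨φ, fun k hk x => (main k hk).1 x, fun v hv => Ideal.mem_comap.mp (hI hv), φC, φ2⟩

/-- The run lemma in a commutative ring. -/
theorem run_transfer {a : N → N → ℕ} (hs : ∀ x y, a x y = a y x) (ha : ∀ x, a x x = 0) {h : ℕ}
    {A : Type} [CommRing A] {F c r g : ℕ → N → A} (S : RSys a h A F c r g)
    {ε : N → ℤ} {R : N → N → ℕ}
    (h1 : ∀ k x, 1 ≤ k → k < h → Qu a hs ha k x ∈ Iq N)
    (h2 : ∀ x, Qu a hs ha h x - C (ε x) * ∏ z, X (z, 2) ^ R x z ∈ Iq N) :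
    (∀ k x, 1 ≤ k → k < h → F (k + 1) x ∈ Ideal.span (Set.range (F 2))) ∧
    (∀ x, F (h + 1) x - (ε x : A) * F 1 x * ∏ z, r 1 z ^ R x z ∈ Ideal.span (Set.range (F 2))) := by
  obtain ⟨φ, main, hI, φC, φ2⟩ := run_hom hs ha S
  refine ⟨fun k x hk1 hk2 => ?_, fun x => ?_⟩
  · rw [← main k hk2.le x]
    exact Ideal.mul_mem_right _ _ (hI _ (h1 k x hk1 hk2))
  · have e1 := Ideal.mul_mem_right (F 1 x) _ (hI _ (h2 x))
    rw [map_sub, map_mul, map_prod, φC] at e1
    simp only [map_pow, φ2] at e1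
    rw [sub_mul, main h le_rfl x] at e1
    have e2 : (ε x : A) * F 1 x * ∏ z, r 1 z ^ R x z =
        (ε x : A) * (∏ z, r 1 z ^ R x z) * F 1 x := by ring
    rw [e2]
    exact e1

/-- Short systems. -/
theorem run_short {a : N → N → ℕ} (hs : ∀ x y, a x y = a y x) (ha : ∀ x, a x x = 0) {n : ℕ}
    {A : Type} [CommRing A] {F c r g : ℕ → N → A} (S : RSys a n A F c r g)
    (h1 : ∀ k x, 1 ≤ k → k ≤ n → Qu a hs ha k x ∈ Iq N) :
    ∀ k x, 1 ≤ k → k ≤ n → F (k + 1) x ∈ Ideal.span (Set.range (F 2)) := by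
  obtain ⟨φ, main, hI, φC, φ2⟩ := run_hom hs ha S
  intro k x hk1 hk2
  rw [← main k hk2 x]
  exact Ideal.mul_mem_right _ _ (hI _ (h1 k x hk1 hk2))

end Pool.Agent.H10.KAC
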