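import Pool.Agent.H10.KAC.Fresh

/-!
Run lemma, module 2: the universal Q-system with curvature variables.

`VV N = ℤ[q, w, g_0, g_1, ...]`, variables `(x, 0) = q_x`, `(x, 1) = w_x`, `(x, k + 2) = g_{x, k}`.
-/

namespace Pool.Agent.H10.KAC

open scoped BigOperators
open MvPolynomial

/-- the universal ring. -/
abbrev VV (N : Type) : Type := MvPolynomial (N × ℕ) ℤ

section

variable {N : Type} [Fintype N] [DecidableEq N]

/-- State of the universal system at level `k`. -/
structure UState (a : N → N → ℕ) (k : ℕ) where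
  R : N → VV N
  S : N → VV N
  c : N → VV N
  ρ : N → VV N
  α : N → VV N
  fR : ∀ x y j, k + 2 ≤ j → Free (y, j) (R x)
  fS : ∀ x y j, k + 2 ≤ j → Free (y, j) (S x)
  fc : ∀ x y j, k + 2 ≤ j → Free (y, j) (c x)
  fρ : ∀ x y j, k + 2 ≤ j → Free (y, j) (ρ x)
  fα : ∀ x y j, k + 2 ≤ j → Free (y, j) (α x)
  rel : ∀ x, α x * R x = S x ^ 2 - c x * ρ x * ∏ y, S y ^ (a x y)
  cS : ∀ x, IsRelPrime (S x) (c x)
  cSS : ∀ x y, x ≠ y → IsRelPrime (S x) (S y)
  nR : ∀ x, R x ≠ 0
  nS : ∀ x, S x ≠ 0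
  nc : ∀ x, c x ≠ 0
  dv : ∀ x, S x ∣ R x ^ 2 - c x * ∏ y, R y ^ (a x y)
  cRS : ∀ x, IsRelPrime (R x) (S x)

namespace UState

variable {a : N → N → ℕ} {k : ℕ} (st : UState a k)

/-- the coefficient of the fresh variable in the next `S` (with sign). -/
noncomputable def β (x : N) : VV N := -(st.c x * ∏ y, st.S y ^ (a x y))

/-- the next `ρ`. -/
noncomputable def ρ' (x : N) : VV N := st.ρ x + X (x, k + 2) * st.R x

/-- the next `c`. -/
noncomputable def c' (x : N) : VV N := st.c x * st.ρ' x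

/-- the next `S`. -/
noncomputable def S' (x : N) : VV N := st.α x + X (x, k + 2) * st.β x

theorem fβ (x y : N) (j : ℕ) (hj : k + 2 ≤ j) : Free (y, j) (st.β x) :=
  ((st.fc x y j hj).mul (Free.prod (fun z _ => (st.fS z y j hj).pow _))).neg

theorem fρ' (x y : N) (j : ℕ) (hj : k + 3 ≤ j) : Free (y, j) (st.ρ' x) := by
  refine (st.fρ x y j (by omega)).add (Free.mul (Free.X ?_) (st.fR x y j (by omega)))
  intro h
  have := (Prod.mk.injEq _ _ _ _ ▸ h : x = y ∧ k + 2 = j).2
  omega

theorem fS' (x y : N) (j : ℕ) (hj : k + 3 ≤ j) : Free (y, j) (st.S' x) := by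
  refine (st.fα x y j (by omega)).add (Free.mul (Free.X ?_) (st.fβ x y j (by omega)))
  intro h
  have := (Prod.mk.injEq _ _ _ _ ▸ h : x = y ∧ k + 2 = j).2
  omega

theorem fS'ne (x y : N) (hxy : x ≠ y) : Free (y, k + 2) (st.S' x) := by
  refine (st.fα x y _ le_rfl).add (Free.mul (Free.X ?_) (st.fβ x y _ le_rfl))
  intro h
  exact hxy (Prod.mk.injEq _ _ _ _ ▸ h : x = y ∧ k + 2 = k + 2).1

theorem nβ (x : N) : st.β x ≠ 0 := by
  unfold β
  rw [neg_ne_zero]
  exact mul_ne_zero (st.nc x) (Finset.prod_ne_zero_iff.mpr (fun y _ => pow_ne_zero _ (st.nS y)))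

/-- the one step recursion. -/
theorem srec (x : N) : st.S' x * st.R x = st.S x ^ 2 - st.c' x * ∏ y, st.S y ^ (a x y) := by
  have h := st.rel x
  unfold S' c' β ρ'
  linear_combination h

theorem cαβ (ha : ∀ x, a x x = 0) (x : N) : IsRelPrime (st.α x) (st.β x) := by
  have h1 : IsRelPrime (st.β x) (st.S x) := by
    unfold β
    rw [IsRelPrime.neg_left_iff]
    refine IsRelPrime.mul_left (st.cS x).symm (IsRelPrime.prod_left (fun y _ => ?_))
    by_cases hxy : x = y
    · subst hxy
      rw [ha, pow_zero]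
      exact isRelPrime_one_left
    · exact (st.cSS x y hxy).symm.pow_left
  have h2 : IsRelPrime (st.β x) (st.S x ^ 2) := h1.pow_right
  have h3 : st.S x ^ 2 = st.α x * st.R x + st.β x * (-st.ρ x) := by
    have h := st.rel x
    unfold β
    linear_combination -h
  rw [h3] at h2
  have h4 : IsRelPrime (st.β x) (st.α x * st.R x) := IsRelPrime.of_add_mul_left_right h2
  exact h4.of_mul_right_left.symm

theorem cS' (ha : ∀ x, a x x = 0) (x : N) {v : VV N} (hv : Free (x, k + 2) v) (h0 : v ≠ 0) :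
    IsRelPrime (st.S' x) v :=
  fresh (st.fα x x _ le_rfl) (st.fβ x x _ le_rfl) (st.cαβ ha x) hv h0

theorem nS' (x : N) : st.S' x ≠ 0 := fresh_ne (st.fα x x _ le_rfl) (st.fβ x x _ le_rfl) (st.nβ x)

theorem nρ' (x : N) : st.ρ' x ≠ 0 := fresh_ne (st.fρ x x _ le_rfl) (st.fR x x _ le_rfl) (st.nR x)

theorem cS'c' (ha : ∀ x, a x x = 0) (x : N) : IsRelPrime (st.S' x) (st.c' x) := by
  unfold c'
  refine IsRelPrime.mul_right (st.cS' ha x (st.fc x x _ le_rfl) (st.nc x)) ?_
  intro d hd1 hd2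
  have h1 : st.S' x * st.R x + st.ρ' x * -st.β x = st.S x ^ 2 := by
    have h := st.srec x
    unfold c' at h
    unfold β
    linear_combination h
  have h2 : d ∣ st.S x ^ 2 := by
    rw [← h1]
    exact dvd_add (hd1.mul_right _) (hd2.mul_right _)
  exact st.cS' ha x ((st.fS x x _ le_rfl).pow 2) (pow_ne_zero 2 (st.nS x)) hd1 h2

/-- The frame lemma. -/
theorem frame (hs : ∀ x y, a x y = a y x) (ha : ∀ x, a x x = 0) (x : N) :
    st.S x ∣ st.S' x ^ 2 - st.c' x * st.ρ' x * ∏ y, st.S' y ^ (a x y) := by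
  have key : st.S x ∣ st.R x ^ 2 * (st.S' x ^ 2 - st.c' x * st.ρ' x * ∏ y, st.S' y ^ (a x y)) := by
    rw [← Ideal.mem_span_singleton, ← Ideal.Quotient.eq_zero_iff_mem]
    set π := Ideal.Quotient.mk (Ideal.span {st.S x}) with hπ
    have e0 : π (st.S x) = 0 := by
      rw [hπ, Ideal.Quotient.eq_zero_iff_mem]
      exact Ideal.mem_span_singleton_self _
    have e1 : π (st.S' x) * π (st.R x) = -(π (st.c' x) * ∏ y, π (st.S y) ^ (a x y)) := by
      have h := congrArg π (st.srec x)
      rw [map_mul, map_sub, map_mul, map_pow, e0, map_prod] at h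
      rw [h]
      simp only [map_pow]
      ring
    have e2 : π (st.R x) ^ 2 = π (st.c x) * ∏ y, π (st.R y) ^ (a x y) := by
      have h : π (st.R x ^ 2 - st.c x * ∏ y, st.R y ^ (a x y)) = 0 := by
        rw [hπ, Ideal.Quotient.eq_zero_iff_mem]
        exact Ideal.mem_span_singleton.mpr (st.dv x)
      rw [map_sub, map_pow, map_mul, map_prod, sub_eq_zero] at h
      rw [h]
      simp only [map_pow]
    have e3 : ∀ y, (π (st.R y) * π (st.S' y)) ^ (a x y) = (π (st.S y) ^ 2) ^ (a x y) := by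
      intro y
      by_cases hxy : a x y = 0
      · rw [hxy, pow_zero, pow_zero]
      · congr 1
        have h := congrArg π (st.srec y)
        rw [map_mul, map_sub, map_mul, map_pow, map_prod, Finset.prod_eq_zero (Finset.mem_univ x),
          mul_zero, sub_zero] at h
        · rw [mul_comm, h]
        · rw [map_pow, e0, zero_pow]
          rw [hs y x]
          exact hxy
    have e4 : (∏ y, π (st.R y) ^ (a x y)) * (∏ y, π (st.S' y) ^ (a x y)) =
        (∏ y, π (st.S y) ^ (a x y)) ^ 2 := by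
      rw [← Finset.prod_mul_distrib, ← Finset.prod_pow]
      refine Finset.prod_congr rfl (fun y _ => ?_)
      rw [← mul_pow, e3 y, ← pow_mul, ← pow_mul, mul_comm]
    have e5 : π (st.c' x) = π (st.c x) * π (st.ρ' x) := by
      unfold c'
      rw [map_mul]
    rw [map_mul, map_sub, map_mul, map_mul, map_pow, map_pow, map_prod]
    simp only [map_pow]
    have e6 : π (st.R x) ^ 2 * π (st.S' x) ^ 2 =
        (π (st.c' x)) ^ 2 * (∏ y, π (st.S y) ^ (a x y)) ^ 2 := by
      rw [← mul_pow, mul_comm (π (st.R x)), e1]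
      ring
    have e7 : π (st.R x) ^ 2 * (π (st.c' x) * π (st.ρ' x) * ∏ y, π (st.S' y) ^ (a x y)) =
        (π (st.c' x)) ^ 2 * (∏ y, π (st.S y) ^ (a x y)) ^ 2 := by
      rw [e2, ← e4, e5]
      ring
    rw [mul_sub, e6, e7, sub_self]
  have h2 : IsRelPrime (st.S x) (st.R x ^ 2) := (st.cRS x).symm.pow_right
  exact h2.dvd_of_dvd_mul_left key

/-- the next state. -/
noncomputable def next (hs : ∀ x y, a x y = a y x) (ha : ∀ x, a x x = 0) : UState a (k + 1) where
  R := st.S
  S := st.S'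
  c := st.c'
  ρ := st.ρ'
  α := fun x => (st.frame hs ha x).choose
  fR := fun x y j hj => st.fS x y j (by omega)
  fS := fun x y j hj => st.fS' x y j (by omega)
  fc := fun x y j hj => (st.fc x y j (by omega)).mul (st.fρ' x y j (by omega))
  fρ := fun x y j hj => st.fρ' x y j (by omega)
  fα := fun x y j hj => by
    have h := (st.frame hs ha x).choose_spec
    set A := (st.frame hs ha x).choose with hA
    by_cases h0 : st.S' x ^ 2 - st.c' x * st.ρ' x * ∏ y, st.S' y ^ (a x y) = 0
    · rw [h0] at h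
      have : A = 0 := by
        rcases mul_eq_zero.mp h.symm with h1 | h1
        · exact absurd h1 (st.nS x)
        · exact h1
      rw [this]
      exact Free.zero _
    · refine Free.of_dvd ?_ h0 (Dvd.intro_left _ h.symm)
      exact ((st.fS' x y j (by omega)).pow 2).sub
        (Free.mul (((st.fc x y j (by omega)).mul (st.fρ' x y j (by omega))).mul
          (st.fρ' x y j (by omega))) (Free.prod (fun z _ => (st.fS' z y j (by omega)).pow _)))
  rel := fun x => by
    have h := (st.frame hs ha x).choose_spec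
    exact (mul_comm _ _).trans h.symm
  cS := fun x => st.cS'c' ha x
  cSS := fun x y hxy => st.cS' ha x (st.fS'ne y x (Ne.symm hxy)) (st.nS' y)
  nR := st.nS
  nS := st.nS'
  nc := fun x => mul_ne_zero (st.nc x) (st.nρ' x)
  dv := fun x => ⟨st.R x, by rw [← st.srec x]⟩
  cRS := fun x => (st.cS' ha x (st.fS x x _ le_rfl) (st.nS x)).symm

end UState

/-- the initial state. -/
noncomputable def uInit (a : N → N → ℕ) : UState a 0 where
  R := fun _ => 1
  S := fun x => X (x, 0)
  c := fun x => 1 - X (x, 0) * X (x, 1)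
  ρ := fun _ => 0
  α := fun x => X (x, 0) ^ 2
  fR := fun x y j hj => Free.one _
  fS := fun x y j hj => Free.X (by
    intro h
    have := (Prod.mk.injEq _ _ _ _ ▸ h : x = y ∧ 0 = j).2
    omega)
  fc := fun x y j hj => by
    refine (Free.one _).sub (Free.mul (Free.X ?_) (Free.X ?_))
    · intro h
      have := (Prod.mk.injEq _ _ _ _ ▸ h : x = y ∧ 0 = j).2
      omega
    · intro h
      have := (Prod.mk.injEq _ _ _ _ ▸ h : x = y ∧ 1 = j).2
      omega
  fρ := fun x y j hj => Free.zero _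
  fα := fun x y j hj => by
    refine Free.pow (Free.X ?_) 2
    intro h
    have := (Prod.mk.injEq _ _ _ _ ▸ h : x = y ∧ 0 = j).2
    omega
  rel := fun x => by ring
  cS := fun x => by
    intro d hd1 hd2
    have : d ∣ (1 - X (x, 0) * X (x, 1)) + X (x, 0) * X (x, 1) :=
      dvd_add hd2 (hd1.mul_right _)
    rw [sub_add_cancel] at this
    exact isUnit_of_dvd_one this
  cSS := fun x y hxy => by
    have hf : Free (x, 0) (X (y, 0) : VV N) := Free.X (by
      intro h
      exact hxy (Prod.mk.injEq _ _ _ _ ▸ h : y = x ∧ 0 = 0).1.symm)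
    have h := fresh (i := (x, 0)) (α := (0 : VV N)) (β := 1) (Free.zero _) (Free.one _)
      isRelPrime_one_right hf (X_ne_zero _)
    simpa using h
  nR := fun x => one_ne_zero
  nS := fun x => X_ne_zero _
  nc := fun x => by
    intro h
    have h1 := congrArg (MvPolynomial.eval (fun _ => (0 : ℤ))) h
    simp at h1
  dv := fun x => ⟨X (x, 1), by simp⟩
  cRS := fun x => isRelPrime_one_left

/-- the sequence of states. -/
noncomputable def ust (a : N → N → ℕ) (hs : ∀ x y, a x y = a y x) (ha : ∀ x, a x x = 0) :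
    (k : ℕ) → UState a k
  | 0 => uInit a
  | k + 1 => (ust a hs ha k).next hs ha

/-- the universal `Q`. -/
noncomputable def Qu (a : N → N → ℕ) (hs : ∀ x y, a x y = a y x) (ha : ∀ x, a x x = 0)
    (k : ℕ) (x : N) : VV N := (ust a hs ha k).R x

/-- the universal `c`. -/
noncomputable def cu (a : N → N → ℕ) (hs : ∀ x y, a x y = a y x) (ha : ∀ x, a x x = 0)
    (k : ℕ) (x : N) : VV N := (ust a hs ha k).c x

/-- the universal `ρ`. -/
noncomputable def ru (a : N → N → ℕ) (hs : ∀ x y, a x y = a y x) (ha : ∀ x, a x x = 0)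
    (k : ℕ) (x : N) : VV N := (ust a hs ha k).ρ x

variable (a : N → N → ℕ) (hs : ∀ x y, a x y = a y x) (ha : ∀ x, a x x = 0)

theorem ust_S (k : ℕ) (x : N) : (ust a hs ha k).S x = Qu a hs ha (k + 1) x := rfl

theorem Qu_zero (x : N) : Qu a hs ha 0 x = 1 := rfl

theorem Qu_one (x : N) : Qu a hs ha 1 x = X (x, 0) := rfl

theorem cu_zero (x : N) : cu a hs ha 0 x = 1 - X (x, 0) * X (x, 1) := rfl

theorem ru_zero (x : N) : ru a hs ha 0 x = 0 := rfl

theorem ru_succ (k : ℕ) (x : N) :
    ru a hs ha (k + 1) x = ru a hs ha k x + X (x, k + 2) * Qu a hs ha k x := rfl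

theorem ru_one (x : N) : ru a hs ha 1 x = X (x, 2) := by
  rw [ru_succ, ru_zero, Qu_zero, zero_add, zero_add, mul_one]

theorem cu_succ (k : ℕ) (x : N) :
    cu a hs ha (k + 1) x = cu a hs ha k x * ru a hs ha (k + 1) x := rfl

theorem Qu_rec (k : ℕ) (x : N) :
    Qu a hs ha (k + 2) x * Qu a hs ha k x =
      Qu a hs ha (k + 1) x ^ 2 - cu a hs ha (k + 1) x * ∏ y, Qu a hs ha (k + 1) y ^ (a x y) :=
  (ust a hs ha k).srec x

theorem Qu_ne (k : ℕ) (x : N) : Qu a hs ha k x ≠ 0 := (ust a hs ha k).nR x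

end

end Pool.Agent.H10.KAC
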